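import Pool.Agent.N743.Engine
import Pool.Agent.R473.JC.Pairs

/-!
# The scale dichotomy for algebraic approximations
-/

set_option autoImplicit false

namespace Pool.Agent.N743

open Polynomial Finset
open Pool.Agent.TH456.TM Pool.Agent.R356

/-- `u` is algebraic of degree at most `d` -/
def AlgDeg (d : ℕ) (u : ℝ) : Prop := ∃ P : ℤ[X], P ≠ 0 ∧ P.natDegree ≤ d ∧ aeval u P = 0

/-- some nonzero integer polynomial of degree at most `d` with coefficients at most `X ^ θ` in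
absolute value has at `u` a value at most `1 / X` in absolute value -/
def AlgNear (d : ℕ) (θ X u : ℝ) : Prop :=
  ∃ P : ℤ[X], P ≠ 0 ∧ P.natDegree ≤ d ∧ (∀ k, |((P.coeff k : ℤ) : ℝ)| ≤ X ^ θ) ∧
    |aeval u P| ≤ X⁻¹

lemma ht_le (P : ℤ[X]) (hP : P ≠ 0) (B : ℝ) (h : ∀ k, |((P.coeff k : ℤ) : ℝ)| ≤ B) :
    (ht P : ℝ) ≤ B := by
  have hne : P.support.Nonempty := nonempty_support_iff.2 hP
  obtain ⟨i, _, hi⟩ := Finset.exists_mem_eq_sup P.support hne (fun i => (P.coeff i).natAbs)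
  have h1 : (ht P : ℝ) = |((P.coeff i : ℤ) : ℝ)| := by
    unfold ht
    rw [hi, ← Int.cast_abs, Int.abs_eq_natAbs, Int.cast_natCast]
  rw [h1]
  exact h i

/-- change of sign -/
lemma sign_normal (d : ℕ) (q : ℤ[X]) (hq : Irreducible q) (hd : q.natDegree ≤ d) :
    ∃ r ∈ I1 d, (∀ k, |((r.coeff k : ℤ) : ℝ)| = |((q.coeff k : ℤ) : ℝ)|) ∧
      ∀ u : ℝ, |aeval u r| = |aeval u q| := by
  rcases lt_or_gt_of_ne (leadingCoeff_ne_zero.2 hq.ne_zero) with h | h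
  · refine ⟨-q, ⟨?_, by rwa [natDegree_neg], by rw [leadingCoeff_neg]; linarith⟩, fun k => ?_,
      fun u => ?_⟩
    · exact (Associated.neg_left (Associated.refl q)).symm.irreducible hq
    · rw [coeff_neg]; push_cast; rw [abs_neg]
    · rw [map_neg, abs_neg]
  · exact ⟨q, ⟨hq, hd, h⟩, fun _ => rfl, fun _ => rfl⟩

/-- degree and coefficients of a factor -/
lemma factor_bound (d : ℕ) (P q : ℤ[X]) (hP : P ≠ 0) (hd : P.natDegree ≤ d) (hq : q ∣ P) (H : ℝ)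
    (hH : ∀ k, |((P.coeff k : ℤ) : ℝ)| ≤ H) :
    q.natDegree ≤ d ∧ ∀ k, |((q.coeff k : ℤ) : ℝ)| ≤ 2 ^ d * (d + 1) * H := by
  obtain ⟨r, hr⟩ := hq
  have hq0 : q ≠ 0 := by
    rintro rfl
    rw [zero_mul] at hr
    exact hP hr
  have hr0 : r ≠ 0 := by
    rintro rfl
    rw [mul_zero] at hr
    exact hP hr
  have h1 := natDegree_mul hq0 hr0
  rw [← hr] at h1
  refine ⟨by omega, fun k => ?_⟩
  exact height_factor d q r hq0 hr0 (by rw [← hr]; exact hd) H (fun k => by rw [← hr]; exact hH k) k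

/-- a small value gives an irreducible polynomial with a small value -/
lemma near_irr (d : ℕ) (θ X u : ℝ) (hX : 1 < X) (h : AlgNear d θ X u) :
    ∃ q ∈ I1 d, (ht q : ℝ) ≤ 2 ^ d * (d + 1) * X ^ θ ∧ |aeval u q| ≤ X ^ (-(1 / ((d : ℝ) + 1))) := by
  obtain ⟨P, hP, hd, hc, hv⟩ := h
  have hX0 : 0 < X := by linarith
  have hd0 : (0 : ℝ) < (d : ℝ) + 1 := by positivity
  obtain ⟨δ, hδ⟩ : ∃ δ : ℝ, δ = X ^ (-(1 / ((d : ℝ) + 1))) := ⟨_, rfl⟩
  have hδ0 : 0 < δ := by rw [hδ]; positivity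
  have hδ1 : δ ≤ 1 := by
    rw [hδ]
    refine Real.rpow_le_one_of_one_le_of_nonpos hX.le ?_
    have : 0 < 1 / ((d : ℝ) + 1) := by positivity
    linarith
  obtain ⟨q, hq, hqP, hqv⟩ : ∃ q : ℤ[X], Irreducible q ∧ q ∣ P ∧ |aeval u q| < δ := by
    by_contra hcon
    push Not at hcon
    have h1 := value_of_factors (u : ℂ) δ hδ0 hδ1 P hP fun q hq hqP => by
      rw [← abs_aeval]
      exact hcon q hq hqP
    rw [← abs_aeval] at h1
    have h2 : δ ^ d ≤ δ ^ P.natDegree := pow_le_pow_of_le_one hδ0.le hδ1 hd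
    have h3 : X⁻¹ < δ ^ d := by
      rw [hδ, ← Real.rpow_natCast, ← Real.rpow_mul hX0.le, ← Real.rpow_neg_one]
      refine Real.rpow_lt_rpow_of_exponent_lt hX ?_
      have h4 : -(1 / ((d : ℝ) + 1)) * d = -(d / (d + 1)) := by ring
      rw [h4, neg_lt_neg_iff, div_lt_one hd0]
      linarith
    linarith
  obtain ⟨hqd, hqc⟩ := factor_bound d P q hP hd hqP _ hc
  obtain ⟨r, hr, hrc, hrv⟩ := sign_normal d q hq hqd
  refine ⟨r, hr, ht_le r hr.1.ne_zero _ fun k => by rw [hrc]; exact hqc k, ?_⟩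
  rw [hrv, ← hδ]
  exact hqv.le

/-- an algebraic number is a root of an irreducible polynomial -/
lemma algDeg_iff (d : ℕ) (u : ℝ) : AlgDeg d u ↔ ∃ q ∈ I1 d, |aeval u q| = 0 := by
  constructor
  · rintro ⟨P, hP, hd, h0⟩
    obtain ⟨f, hf, w, hw⟩ := UniqueFactorizationMonoid.exists_prime_factors P hP
    have h1 : aeval u f.prod = 0 := by
      rw [← hw, map_mul] at h0
      refine (mul_eq_zero.1 h0).resolve_right fun h => ?_
      have h2 : IsUnit (aeval u (w : ℤ[X])) := w.isUnit.map (aeval u)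
      exact h2.ne_zero h
    rw [map_multiset_prod, Multiset.prod_eq_zero_iff, Multiset.mem_map] at h1
    obtain ⟨F, hFf, hF0⟩ := h1
    have hdvd : F ∣ P := by
      rw [← hw]
      exact (Multiset.dvd_prod hFf).mul_right _
    obtain ⟨hFd, _⟩ := factor_bound d P F hP hd hdvd (ht P) (le_ht P)
    obtain ⟨r, hr, _, hrv⟩ := sign_normal d F (hf F hFf).irreducible hFd
    exact ⟨r, hr, by rw [hrv, hF0, abs_zero]⟩
  · rintro ⟨q, hq, h0⟩
    exact ⟨q, hq.1.ne_zero, hq.2.1, abs_eq_zero.1 h0⟩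

lemma near_of_algDeg (d : ℕ) (θ u : ℝ) (hθ : 0 < θ) (h : AlgDeg d u) :
    ∃ K : ℝ, ∀ X ≥ K, AlgNear d θ X u := by
  obtain ⟨P, hP, hd, h0⟩ := h
  obtain ⟨K, hK1, hK⟩ := large_scale θ (ht P) hθ
  refine ⟨K, fun X hX => ⟨P, hP, hd, fun k => (le_ht P k).trans (hK X hX).le, ?_⟩⟩
  rw [h0, abs_zero, inv_nonneg]
  have : K ≤ X := hX
  linarith

/-- the joint measure of all the numbers -/
theorem joint_all {ι : Type} [Finite ι] (x : ι → ℝ) (h : ∀ i j, i ≠ j → JointR (x i) (x j)) (D : ℕ) :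
    ∃ κ C : ℝ, 0 < κ ∧ 0 < C ∧ ∀ i j, ∀ P ∈ I1 D, ∀ Q ∈ I1 D, (i, P) ≠ (j, Q) →
      ∀ H : ℝ, (ht P : ℝ) ≤ H → (ht Q : ℝ) ≤ H →
      C * H ^ (-κ) ≤ max |aeval (x i) P| |aeval (x j) Q| := by
  classical
  cases nonempty_fintype ι
  obtain ⟨κ₀, hκ₀, hsame⟩ := same_core _ measT_e D
  have h1 : ∀ p : ι × ι, ∃ κ C : ℝ, 0 < κ ∧ 0 < C ∧ (p.1 ≠ p.2 →
      ∀ P Q : ℤ[X], P ≠ 0 → Q ≠ 0 → P.natDegree ≤ D → Q.natDegree ≤ D → ∀ H : ℝ,
      (∀ k, |((P.coeff k : ℤ) : ℝ)| ≤ H) → (∀ k, |((Q.coeff k : ℤ) : ℝ)| ≤ H) →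
      C * H ^ (-κ) ≤ max |aeval (x p.1) P| |aeval (x p.2) Q|) := by
    intro p
    by_cases hp : p.1 ≠ p.2
    · obtain ⟨κ, C, hκ, hC, hj⟩ := h p.1 p.2 hp D
      exact ⟨κ, C, hκ, hC, fun _ => hj⟩
    · exact ⟨1, 1, one_pos, one_pos, fun a => absurd a hp⟩
  choose κ' C' hκ' hC' h1 using h1
  obtain ⟨κ₁, hκ₁, hκle⟩ := exists_le_ge (Finset.univ : Finset (ι × ι)) κ'
  obtain ⟨C₁, hC₁, hCle⟩ := exists_pos_le (Finset.univ : Finset (ι × ι)) C' (fun b _ => hC' b)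
  obtain ⟨B, hB, hBle⟩ := exists_le_ge (Finset.univ : Finset ι) fun i => ‖((x i : ℝ) : ℂ)‖
  obtain ⟨C₀, hC₀, hsame⟩ := hsame B
  have hmono : ∀ (κ C c H : ℝ), 1 ≤ H → 0 < c → c ≤ C → κ ≤ max κ₀ κ₁ →
      c * H ^ (-(max κ₀ κ₁)) ≤ C * H ^ (-κ) := by
    intro κ C c H hH hc hcC hκ
    have h3 : H ^ (-(max κ₀ κ₁)) ≤ H ^ (-κ) :=
      Real.rpow_le_rpow_of_exponent_le hH (by linarith)
    have h4 : 0 < H ^ (-(max κ₀ κ₁)) := by positivity
    have h5 : 0 ≤ C := hc.le.trans hcC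
    gcongr
  refine ⟨max κ₀ κ₁, min C₀ C₁, lt_max_of_lt_left hκ₀, lt_min hC₀ hC₁, ?_⟩
  intro i j P hP Q hQ hne H hPH hQH
  have hH : 1 ≤ H := (ht_pos P hP.1.ne_zero).trans hPH
  by_cases hij : i = j
  · subst hij
    have hPQ : P ≠ Q := fun h => hne (by rw [h])
    have h2 := hsame ((x i : ℝ) : ℂ) (hBle i (Finset.mem_univ _)) P hP Q hQ hPQ H hPH hQH
    rw [← abs_aeval, ← abs_aeval] at h2
    refine le_trans ?_ h2
    exact hmono _ _ _ _ hH (lt_min hC₀ hC₁) (min_le_left _ _) (le_max_left _ _)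
  · have h2 := h1 (i, j) hij P Q hP.1.ne_zero hQ.1.ne_zero hP.2.1 hQ.2.1 H
      (fun k => (le_ht P k).trans hPH) (fun k => (le_ht Q k).trans hQH)
    refine le_trans ?_ h2
    refine hmono _ _ _ _ hH (lt_min hC₀ hC₁) ?_ ?_
    · exact (min_le_right _ _).trans (hCle (i, j) (Finset.mem_univ _))
    · exact (hκle (i, j) (Finset.mem_univ _)).trans (le_max_right _ _)

/-- **The scale dichotomy for algebraic approximations.** -/
theorem dichotomy_alg {ι : Type} [Finite ι] (x : ι → ℝ)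
    (h : ∀ i j, i ≠ j → JointR (x i) (x j)) (d : ℕ) (M : ℝ) (hM : 1 < M) :
    ∃ θ₀ : ℝ, 0 < θ₀ ∧ ∀ θ : ℝ, 0 < θ → θ ≤ θ₀ →
      Dichotomy (fun i => AlgDeg d (x i)) (fun X i => AlgNear d θ X (x i)) M := by
  obtain ⟨κ, C, hκ, hC, hj⟩ := joint_all x h d
  have hd0 : (0 : ℝ) < (d : ℝ) + 1 := by positivity
  have hM0 : 0 < M + 1 := by linarith
  refine ⟨1 / ((d : ℝ) + 1) / ((M + 1) * κ) / 2, by positivity, fun θ hθ hθ₀ => ?_⟩
  refine engine (α := ι × {P : ℤ[X] // P ∈ I1 d}) (fun a => a.1) (fun a => (ht a.2.1 : ℝ))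
    (fun a => |aeval (x a.1) a.2.1|) (fun a => ht_pos _ a.2.2.1.ne_zero) (fun a => abs_nonneg _)
    κ C hκ hC ?_ _ _ (2 ^ d * (d + 1)) θ (1 / ((d : ℝ) + 1)) M ?_ hθ (by positivity) ?_ ?_ ?_ ?_ hM
  · rintro ⟨i, P, hP⟩ ⟨j, Q, hQ⟩ hne
    have h1 := ht_pos P hP.1.ne_zero
    have h2 := ht_pos Q hQ.1.ne_zero
    refine hj i j P hP Q hQ (fun h => hne ?_) ((ht P : ℝ) * ht Q) (by nlinarith) (by nlinarith)
    rw [Prod.mk.injEq] at h ⊢
    exact ⟨h.1, Subtype.ext h.2⟩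
  · have h1 : (1 : ℝ) ≤ 2 ^ d := one_le_pow₀ (by norm_num)
    have h2 : (0 : ℝ) ≤ d := by positivity
    nlinarith
  · intro X hX i hi
    obtain ⟨q, hq, h1, h2⟩ := near_irr d θ X (x i) hX hi
    exact ⟨(i, ⟨q, hq⟩), rfl, h1, h2⟩
  · intro i
    rw [algDeg_iff]
    constructor
    · rintro ⟨q, hq, h0⟩
      exact ⟨(i, ⟨q, hq⟩), rfl, h0⟩
    · rintro ⟨⟨j, q, hq⟩, rfl, h0⟩
      exact ⟨q, hq, h0⟩
  · intro i hi
    exact near_of_algDeg d θ (x i) hθ hi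
  · have h1 : (M + 1) * (θ * κ) ≤ (M + 1) * ((1 / ((d : ℝ) + 1) / ((M + 1) * κ) / 2) * κ) := by
      gcongr
    have h2 : (M + 1) * ((1 / ((d : ℝ) + 1) / ((M + 1) * κ) / 2) * κ) = 1 / ((d : ℝ) + 1) / 2 := by
      field_simp
    have h3 : 0 < 1 / ((d : ℝ) + 1) := by positivity
    linarith

end Pool.Agent.N743
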