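import Pool.Agent.N743.ZetaFam

/-!
# The scale dichotomy of rank `r` for algebraic approximations
-/

set_option autoImplicit false

namespace Pool.Agent.N743

open Polynomial Finset
open Pool.Agent.TH456.TM Pool.Agent.R356

/-- a joint measure for polynomials in one variable -/
def JointUni {ν : Type} (v : ν → ℝ) : Prop :=
  ∀ D : ℕ, ∃ κ C : ℝ, 0 < κ ∧ 0 < C ∧ ∀ P : ν → ℤ[X], (∀ i, P i ≠ 0 ∧ (P i).natDegree ≤ D) → ∀ H : ℝ, 1 ≤ H →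
    (∀ i k, |(((P i).coeff k : ℤ) : ℝ)| ≤ H) → ∃ i, C * H ^ (-κ) ≤ |aeval (v i) (P i)|

theorem jointUni_of_fam {x : ℂ} {ν : Type} {v : ν → ℝ} (h : JointFam x (fun i => (v i : ℂ))) : JointUni v := by
  intro D
  obtain ⟨κ, C, hκ, hC, h1⟩ := h D
  refine ⟨κ, C, hκ, hC, fun G hG1 H hH hG2 => ?_⟩
  have hinj : Function.Injective (Polynomial.C : ℤ →+* ℤ[X]) := Polynomial.C_injective
  obtain ⟨i, hi⟩ := h1 (fun i => (G i).map Polynomial.C) (fun i => ⟨(Polynomial.map_ne_zero_iff hinj).2 (hG1 i).1,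
    natDegree_map_le.trans (hG1 i).2, fun j => by rw [coeff_map, natDegree_C]; exact Nat.zero_le _⟩) H hH
    (fun i j k => by
      rw [coeff_map, coeff_C]
      split_ifs
      · exact hG2 i j
      · simp only [Int.cast_zero, abs_zero]; linarith)
  have h2 : ∀ (w : ℝ) (F : ℤ[X]), aevalAeval x (w : ℂ) (F.map Polynomial.C) = ((aeval w F : ℝ) : ℂ) := by
    intro w F
    rw [← vl_eq, vl, eval_map, eval₂_map]
    have h3 : (σx x).comp Polynomial.C = algebraMap ℤ ℂ := Subsingleton.elim _ _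
    rw [h3, ← aeval_def]
    exact (aeval_algebraMap_apply ℂ w F)
  rw [h2, Complex.norm_real, Real.norm_eq_abs] at hi
  exact ⟨i, hi⟩

/-- **The scale dichotomy of rank `r` for algebraic approximations.** -/
theorem dichotomyR_alg {ι : Type} [Finite ι] (v : ι → ℝ) (r : ℕ) (hr : 1 ≤ r)
    (h : ∀ s : Finset ι, s.card = r + 1 → JointUni (fun i : s => v i)) (d : ℕ) (M : ℝ) (hM : 1 < M) :
    ∃ θ₀ : ℝ, 0 < θ₀ ∧ ∀ θ : ℝ, 0 < θ → θ ≤ θ₀ →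
      DichotomyR r (fun i => AlgDeg d (v i)) (fun X i => AlgNear d θ X (v i)) M := by
  classical
  cases nonempty_fintype ι
  obtain ⟨κ₁, hκ₁, hsame⟩ := same_core _ measT_e d
  obtain ⟨T, hT⟩ : ∃ T : ℝ, ∀ i, ‖((v i : ℝ) : ℂ)‖ ≤ T := by
    obtain ⟨T, hT⟩ := (Set.finite_range fun i => ‖((v i : ℝ) : ℂ)‖).bddAbove
    exact ⟨T, fun i => hT ⟨i, rfl⟩⟩
  obtain ⟨C₁, hC₁, hsame⟩ := hsame T
  have h1 : ∀ s : Finset ι, ∃ κ C : ℝ, 0 < κ ∧ 0 < C ∧ (s.card = r + 1 → ∀ P : s → ℤ[X],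
      (∀ i, P i ≠ 0 ∧ (P i).natDegree ≤ d) → ∀ H : ℝ, 1 ≤ H →
      (∀ i k, |(((P i).coeff k : ℤ) : ℝ)| ≤ H) → ∃ i : s, C * H ^ (-κ) ≤ |aeval (v i) (P i)|) := by
    intro s
    by_cases hs : s.card = r + 1
    · obtain ⟨κ, C, hκ, hC, h2⟩ := h s hs d
      exact ⟨κ, C, hκ, hC, fun _ => h2⟩
    · exact ⟨1, 1, one_pos, one_pos, fun h => absurd h hs⟩
  choose κ' C' hκ' hC' h1 using h1
  obtain ⟨C₂, hC₂, hCle⟩ := exists_pos_le (Finset.univ : Finset (Finset ι)) C' (fun b _ => hC' b)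
  obtain ⟨κ₂, hκle⟩ : ∃ κ₂ : ℝ, ∀ s, κ' s ≤ κ₂ := by
    obtain ⟨B, hB⟩ := (Set.finite_range κ').bddAbove
    exact ⟨B, fun s => hB ⟨s, rfl⟩⟩
  obtain ⟨κ, hκ⟩ : ∃ κ, κ = max κ₁ κ₂ := ⟨_, rfl⟩
  obtain ⟨C, hC⟩ : ∃ C, C = min C₁ C₂ := ⟨_, rfl⟩
  have hκ0 : 0 < κ := by rw [hκ]; exact lt_max_of_lt_left hκ₁
  have hC0 : 0 < C := by rw [hC]; exact lt_min hC₁ hC₂
  have hmono : ∀ (C' κ' H : ℝ), 1 ≤ H → C ≤ C' → κ' ≤ κ → C * H ^ (-κ) ≤ C' * H ^ (-κ') := by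
    intro C' κ' H hH h2 h3
    have h4 : H ^ (-κ) ≤ H ^ (-κ') := Real.rpow_le_rpow_of_exponent_le hH (by linarith)
    have h5 : 0 ≤ H ^ (-κ) := by positivity
    exact mul_le_mul h2 h4 h5 (hC0.le.trans h2)
  have hd0 : (0 : ℝ) < (d : ℝ) + 1 := by positivity
  have hσ0 : (0 : ℝ) < 1 / ((d : ℝ) + 1) := by positivity
  have hM0 : 0 < M := by linarith
  refine ⟨1 / ((d : ℝ) + 1) / (M * κ) / 2, by positivity, fun θ hθ hθ₀ => ?_⟩
  have hθM : M * θ * κ < 1 / ((d : ℝ) + 1) := by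
    have h1 : M * θ * κ ≤ M * (1 / ((d : ℝ) + 1) / (M * κ) / 2) * κ := by gcongr
    have h2 : M * (1 / ((d : ℝ) + 1) / (M * κ) / 2) * κ = 1 / ((d : ℝ) + 1) / 2 := by field_simp
    linarith
  have hpair : ∀ a b : ι × {F : ℤ[X] // F ∈ I1 d}, a.1 = b.1 → a ≠ b → ∀ H : ℝ, 1 ≤ H →
      (ht a.2.1 : ℝ) ≤ H → (ht b.2.1 : ℝ) ≤ H →
      C * H ^ (-κ) ≤ max |aeval (v a.1) a.2.1| |aeval (v b.1) b.2.1| := by
    rintro ⟨i, P, hP⟩ ⟨j, Q, hQ⟩ hij hne H hH hPH hQH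
    have hij' : i = j := hij
    subst hij'
    have h3 := hsame ((v i : ℝ) : ℂ) (hT i) P hP Q hQ (fun h => hne (by subst h; rfl)) H hPH hQH
    rw [← abs_aeval, ← abs_aeval] at h3
    refine le_trans (hmono _ _ H hH ?_ ?_) h3
    · rw [hC]; exact min_le_left _ _
    · rw [hκ]; exact le_max_left _ _
  refine engineR (α := ι × {F : ℤ[X] // F ∈ I1 d}) r hr (fun a => a.1) (fun a => (ht a.2.1 : ℝ))
    (fun a => |aeval (v a.1) a.2.1|) (fun a => abs_nonneg _) κ C hκ0 hC0 ?_ hpair _ _ (2 ^ d * (d + 1)) θ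
    (1 / ((d : ℝ) + 1)) M ?_ hθ hσ0 ?_ ?_ ?_ hθM hM
  · intro S hS H hH hSH
    by_cases hinj : ∀ a ∈ S, ∀ b ∈ S, a.1 = b.1 → a = b
    · have hcard : (S.image Prod.fst).card = r + 1 := by
        rw [Finset.card_image_of_injOn (fun a ha b hb hab => hinj a ha b hb hab), hS]
      have h2 : ∀ i : {i // i ∈ S.image Prod.fst}, ∃ a ∈ S, a.1 = i.1 := fun i => Finset.mem_image.1 i.2
      choose f hfS hf using h2
      obtain ⟨i, hi⟩ := h1 (S.image Prod.fst) hcard (fun i => (f i).2.1)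
        (fun i => ⟨(f i).2.2.1.ne_zero, (f i).2.2.2.1⟩) H hH
        (fun i k => (le_ht _ k).trans (hSH _ (hfS i)))
      refine ⟨f i, hfS i, ?_⟩
      simp only [hf i]
      refine le_trans (hmono _ _ H hH ?_ ?_) hi
      · rw [hC]; exact (min_le_right _ _).trans (hCle _ (Finset.mem_univ _))
      · rw [hκ]; exact (hκle _).trans (le_max_right _ _)
    · push Not at hinj
      obtain ⟨a, ha, b, hb, hab, hne⟩ := hinj
      have h3 := hpair a b hab hne H hH (hSH a ha) (hSH b hb)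
      rcases le_max_iff.1 h3 with h4 | h4
      · exact ⟨a, ha, h4⟩
      · exact ⟨b, hb, h4⟩
  · have h1 : (1 : ℝ) ≤ 2 ^ d := one_le_pow₀ (by norm_num)
    have h2 : (0 : ℝ) ≤ d := by positivity
    nlinarith
  · intro X hX i hi
    obtain ⟨q, hq, h1, h2⟩ := near_irr d θ X (v i) hX hi
    exact ⟨(i, ⟨q, hq⟩), rfl, h1, h2⟩
  · intro i
    rw [algDeg_iff]
    constructor
    · rintro ⟨q, hq, h0⟩
      exact ⟨(i, ⟨q, hq⟩), rfl, h0⟩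
    · rintro ⟨⟨j, q, hq⟩, rfl, h0⟩
      exact ⟨q, hq, h0⟩
  · intro i hi
    exact near_of_algDeg d θ (v i) hθ hi

open Pool.Agent.R352.E (clF zt)
open Pool.Agent.R352.Q (Rk)

/-- **The scale dichotomy over `ℚ`** -/
theorem dichotomy_zeta_alg {r : ℕ} (hr : 1 ≤ r) (y : Fin r → ℝ) {ι : Type} [Finite ι] (b : ι → Fin r ⊕ (ℕ × ℚ))
    (hb : Function.Injective b)
    (hK : ∀ i p, b i = Sum.inr p → 2 ≤ p.1 ∧ 0 < p.2 ∧ zt p.1 ∈ clF ({Real.exp 1} ∪ Set.range y))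
    (d : ℕ) (M : ℝ) (hM : 1 < M) :
    ∃ θ₀ : ℝ, 0 < θ₀ ∧ ∀ θ : ℝ, 0 < θ → θ ≤ θ₀ →
      DichotomyR r (fun i => AlgDeg d (Sum.elim y (fun p => Rk p.1 p.2) (b i)))
        (fun X i => AlgNear d θ X (Sum.elim y (fun p => Rk p.1 p.2) (b i))) M := by
  obtain ⟨v, hv⟩ : ∃ v : ι → ℝ, v = fun i => (Sum.elim y (fun p => Rk p.1 p.2) (b i) : ℝ) := ⟨_, rfl⟩
  have h1 : ∀ s : Finset ι, s.card = r + 1 → JointUni (fun i : s => v i) := by
    intro s hs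
    rw [hv]
    exact jointUni_of_fam (jointFam_zeta y b hb hK s hs)
  have h2 := dichotomyR_alg v r hr h1 d M hM
  rw [hv] at h2
  exact h2

end Pool.Agent.N743
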