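import Pool.Agent.N743.Alg

/-!
# Factors of polynomials in two variables
-/

set_option autoImplicit false

namespace Pool.Agent.N743

open Polynomial Finset
open Pool.Agent.TH456.TM Pool.Agent.R356

/-- the coefficients of the polynomial with exchanged variables -/
lemma swap_coeff (P : ℤ[X][X]) (i j : ℕ) : ((Bivariate.swap P).coeff i).coeff j = (P.coeff j).coeff i := by
  induction P using Polynomial.induction_on' with
  | add p q hp hq => rw [map_add, coeff_add, coeff_add, coeff_add, coeff_add, hp, hq]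
  | monomial n f =>
    induction f using Polynomial.induction_on' with
    | add p q hp hq =>
      rw [map_add (monomial n), map_add, coeff_add, coeff_add, coeff_add, coeff_add, hp, hq]
    | monomial m r =>
      rw [Bivariate.swap_monomial_monomial]
      simp only [coeff_monomial]
      split_ifs <;> simp_all [coeff_monomial]

/-- the degree in the inner variable -/
lemma swap_natDegree_le (P : ℤ[X][X]) (D : ℕ) :
    (Bivariate.swap P).natDegree ≤ D ↔ ∀ j, (P.coeff j).natDegree ≤ D := by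
  constructor
  · intro h j
    rw [natDegree_le_iff_coeff_eq_zero]
    intro N hN
    rw [← swap_coeff, coeff_eq_zero_of_natDegree_lt (lt_of_le_of_lt h hN), coeff_zero]
  · intro h
    rw [natDegree_le_iff_coeff_eq_zero]
    intro N hN
    ext j
    rw [swap_coeff, coeff_zero, coeff_eq_zero_of_natDegree_lt (lt_of_le_of_lt (h j) hN)]

/-- the substitution `y = x ^ (D + 1)` -/
noncomputable def kron (D : ℕ) : ℤ[X][X] →+* ℤ[X] := evalRingHom (X ^ (D + 1))

lemma kron_coeff (D : ℕ) (P : ℤ[X][X]) (hP : ∀ j, (P.coeff j).natDegree ≤ D) (i j : ℕ)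
    (hi : i ≤ D) : (kron D P).coeff (i + (D + 1) * j) = (P.coeff j).coeff i := by
  have h1 : kron D P = ∑ k ∈ range (P.natDegree + 1), P.coeff k * X ^ ((D + 1) * k) := by
    unfold kron
    rw [coe_evalRingHom, eval_eq_sum_range]
    refine Finset.sum_congr rfl fun k _ => ?_
    rw [pow_mul]
  rw [h1, finsetSum_coeff]
  have h2 : ∀ k ∈ range (P.natDegree + 1), k ≠ j →
      (P.coeff k * X ^ ((D + 1) * k)).coeff (i + (D + 1) * j) = 0 := by
    intro k _ hk
    rw [coeff_mul_X_pow']
    split_ifs with h3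
    · rcases lt_or_gt_of_ne hk with h4 | h4
      · refine coeff_eq_zero_of_natDegree_lt (lt_of_le_of_lt (hP k) ?_)
        have h5 : (D + 1) * (k + 1) ≤ (D + 1) * j := Nat.mul_le_mul_left _ h4
        rw [Nat.mul_add, Nat.mul_one] at h5
        omega
      · have h5 : (D + 1) * (j + 1) ≤ (D + 1) * k := Nat.mul_le_mul_left _ h4
        rw [Nat.mul_add, Nat.mul_one] at h5
        omega
    · rfl
  by_cases hj : j ∈ range (P.natDegree + 1)
  · rw [Finset.sum_eq_single_of_mem j hj h2, coeff_mul_X_pow', if_pos (by omega)]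
    congr 1
    omega
  · rw [Finset.sum_eq_zero]
    · rw [Finset.mem_range, not_lt] at hj
      rw [coeff_eq_zero_of_natDegree_lt (by omega : P.natDegree < j), coeff_zero]
    · intro k hk
      exact h2 k hk fun h => hj (h ▸ hk)

lemma kron_coeff_bound (D : ℕ) (P : ℤ[X][X]) (hP : ∀ j, (P.coeff j).natDegree ≤ D) (k : ℕ) :
    (kron D P).coeff k = (P.coeff (k / (D + 1))).coeff (k % (D + 1)) := by
  conv_lhs => rw [← Nat.mod_add_div k (D + 1)]
  exact kron_coeff D P hP _ _ (Nat.lt_succ_iff.1 (Nat.mod_lt k (Nat.succ_pos D)))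

lemma kron_natDegree (D : ℕ) (P : ℤ[X][X]) (h1 : P.natDegree ≤ D)
    (hP : ∀ j, (P.coeff j).natDegree ≤ D) : (kron D P).natDegree ≤ D + (D + 1) * D := by
  rw [natDegree_le_iff_coeff_eq_zero]
  intro N hN
  rw [kron_coeff_bound D P hP]
  have h2 : D < N / (D + 1) := by
    rw [Nat.lt_iff_add_one_le, Nat.le_div_iff_mul_le (Nat.succ_pos D)]
    have h3 : (D + 1) * (D + 1) = D + (D + 1) * D + 1 := by ring
    have h4 : (D + 1) * D.succ = (D + 1) * (D + 1) := rfl
    omega
  rw [coeff_eq_zero_of_natDegree_lt (by omega : P.natDegree < N / (D + 1)), coeff_zero]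

lemma kron_ne_zero (D : ℕ) (P : ℤ[X][X]) (hP : ∀ j, (P.coeff j).natDegree ≤ D) (h0 : P ≠ 0) :
    kron D P ≠ 0 := by
  intro h
  apply h0
  ext j i
  rw [coeff_zero, coeff_zero]
  by_cases hi : i ≤ D
  · rw [← kron_coeff D P hP i j hi, h, coeff_zero]
  · exact coeff_eq_zero_of_natDegree_lt (by have := hP j; omega)

/-- degrees and coefficients of a factor of a polynomial in two variables -/
lemma factor_bound2 (D : ℕ) (P F : ℤ[X][X]) (hP : P ≠ 0) (hd : P.natDegree ≤ D)
    (hdx : ∀ j, (P.coeff j).natDegree ≤ D) (hF : F ∣ P) (H : ℝ)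
    (hH : ∀ j i, |(((P.coeff j).coeff i : ℤ) : ℝ)| ≤ H) :
    F.natDegree ≤ D ∧ (∀ j, (F.coeff j).natDegree ≤ D) ∧
      ∀ j i, |(((F.coeff j).coeff i : ℤ) : ℝ)| ≤
        2 ^ (D + (D + 1) * D) * ((D + (D + 1) * D : ℕ) + 1) * H := by
  obtain ⟨G, hG⟩ := hF
  have hF0 : F ≠ 0 := by
    rintro rfl
    rw [zero_mul] at hG
    exact hP hG
  have hG0 : G ≠ 0 := by
    rintro rfl
    rw [mul_zero] at hG
    exact hP hG
  have h1 := natDegree_mul hF0 hG0
  rw [← hG] at h1
  have hFd : F.natDegree ≤ D := by omega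
  have hsw : (Bivariate.swap P).natDegree =
      (Bivariate.swap F).natDegree + (Bivariate.swap G).natDegree := by
    rw [hG, map_mul]
    exact natDegree_mul ((map_ne_zero_iff _ Bivariate.swap.injective).2 hF0)
      ((map_ne_zero_iff _ Bivariate.swap.injective).2 hG0)
  have hPx := (swap_natDegree_le P D).2 hdx
  have hFx : ∀ j, (F.coeff j).natDegree ≤ D := (swap_natDegree_le F D).1 (by omega)
  have hGx : ∀ j, (G.coeff j).natDegree ≤ D := (swap_natDegree_le G D).1 (by omega)
  refine ⟨hFd, hFx, fun j i => ?_⟩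
  have hH0 : 0 ≤ H := (abs_nonneg _).trans (hH 0 0)
  by_cases hi : i ≤ D
  · have h2 := height_factor (D + (D + 1) * D) (kron D F) (kron D G) (kron_ne_zero D F hFx hF0)
      (kron_ne_zero D G hGx hG0) (by
        rw [← map_mul, ← hG]
        exact kron_natDegree D P hd hdx) H (fun k => by
        rw [← map_mul, ← hG, kron_coeff_bound D P hdx]
        exact hH _ _) (i + (D + 1) * j)
    rwa [kron_coeff D F hFx i j hi] at h2
  · rw [coeff_eq_zero_of_natDegree_lt (by have := hFx j; omega)]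
    rw [Int.cast_zero, abs_zero]
    positivity

lemma hgt_le (P : ℤ[X][X]) (hP : P ≠ 0) (B : ℝ)
    (h : ∀ j i, |(((P.coeff j).coeff i : ℤ) : ℝ)| ≤ B) : (hgt P : ℝ) ≤ B := by
  have hB : 0 ≤ B := (abs_nonneg _).trans (h 0 0)
  obtain ⟨j, hj, hj'⟩ := Finset.exists_mem_eq_sup P.support (nonempty_support_iff.2 hP)
    (fun j => (P.coeff j).support.sup fun i => ((P.coeff j).coeff i).natAbs)
  have hne : (P.coeff j).support.Nonempty := nonempty_support_iff.2 (mem_support_iff.1 hj)
  obtain ⟨i, hi, hi'⟩ := Finset.exists_mem_eq_sup (P.coeff j).support hne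
    (fun i => ((P.coeff j).coeff i).natAbs)
  have h1 : (hgt P : ℝ) = |(((P.coeff j).coeff i : ℤ) : ℝ)| := by
    unfold hgt
    rw [hj', hi', ← Int.cast_abs, Int.abs_eq_natAbs, Int.cast_natCast]
  rw [h1]
  exact h j i

/-- change of sign -/
lemma sign_normal2 (D : ℕ) (q : ℤ[X][X]) (hq : Irreducible q) (hd : q.natDegree ≤ D)
    (hdx : ∀ j, (q.coeff j).natDegree ≤ D) :
    ∃ r ∈ IR D, (∀ j i, |(((r.coeff j).coeff i : ℤ) : ℝ)| = |(((q.coeff j).coeff i : ℤ) : ℝ)|) ∧
      ∀ x t : ℂ, ‖aevalAeval x t r‖ = ‖aevalAeval x t q‖ := by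
  rcases lt_or_gt_of_ne (leadingCoeff_ne_zero.2 (leadingCoeff_ne_zero.2 hq.ne_zero)) with h | h
  · refine ⟨-q, ⟨?_, by rwa [natDegree_neg], fun j => by rw [coeff_neg, natDegree_neg]; exact hdx j,
      by rw [leadingCoeff_neg, leadingCoeff_neg]; linarith⟩, fun j i => ?_, fun x t => ?_⟩
    · exact (Associated.neg_left (Associated.refl q)).symm.irreducible hq
    · rw [coeff_neg, coeff_neg]; push_cast; rw [abs_neg]
    · rw [map_neg, norm_neg]
  · exact ⟨q, ⟨hq, hd, hdx, h⟩, fun _ _ => rfl, fun _ _ => rfl⟩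

/-- values of a polynomial whose irreducible factors have large values -/
theorem value_of_factors2 (x t : ℂ) (δ : ℝ) (hδ : 0 < δ) (hδ1 : δ ≤ 1) (P : ℤ[X][X]) (hP : P ≠ 0)
    (h : ∀ q : ℤ[X][X], Irreducible q → q ∣ P → δ ≤ ‖aevalAeval x t q‖) :
    δ ^ (P.natDegree + (Bivariate.swap P).natDegree) ≤ ‖aevalAeval x t P‖ := by
  induction P using UniqueFactorizationMonoid.induction_on_prime with
  | h₁ => exact absurd rfl hP
  | h₂ a ha =>
    obtain ⟨r, hr, rfl⟩ := Polynomial.isUnit_iff.1 ha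
    obtain ⟨s, hs, rfl⟩ := Polynomial.isUnit_iff.1 hr
    have h1 : aevalAeval x t (C (C s)) = (s : ℂ) := by simp
    rw [h1, Complex.norm_intCast]
    have h2 : |(s : ℝ)| = 1 := by
      rcases Int.isUnit_iff.1 hs with h | h <;> rw [h] <;> simp
    rw [h2]
    exact pow_le_one₀ hδ.le hδ1
  | h₃ a p ha hp ih =>
    have h1 := ih ha fun q hq hqa => h q hq (hqa.mul_left p)
    have hsp : Bivariate.swap p ≠ 0 := (map_ne_zero_iff _ Bivariate.swap.injective).2 hp.ne_zero
    have hsa : Bivariate.swap a ≠ 0 := (map_ne_zero_iff _ Bivariate.swap.injective).2 ha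
    rw [natDegree_mul hp.ne_zero ha, map_mul Bivariate.swap, natDegree_mul hsp hsa, map_mul, norm_mul]
    have h2 : δ ^ (p.natDegree + a.natDegree +
        ((Bivariate.swap p).natDegree + (Bivariate.swap a).natDegree)) =
        δ ^ (p.natDegree + (Bivariate.swap p).natDegree) *
          δ ^ (a.natDegree + (Bivariate.swap a).natDegree) := by
      rw [← pow_add]
      congr 1
      ring
    rw [h2]
    refine mul_le_mul ?_ h1 (by positivity) (norm_nonneg _)
    by_cases hd : p.natDegree + (Bivariate.swap p).natDegree = 0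
    · rw [hd, pow_zero]
      have hd1 : p.natDegree = 0 := by omega
      have hd2 : ∀ j, (p.coeff j).natDegree ≤ 0 := (swap_natDegree_le p 0).1 (by omega)
      have h3 : p = C (C ((p.coeff 0).coeff 0)) := by
        conv_lhs => rw [eq_C_of_natDegree_eq_zero hd1, eq_C_of_natDegree_le_zero (hd2 0)]
      have h4 : (p.coeff 0).coeff 0 ≠ 0 := fun h => hp.ne_zero (by rw [h3, h, C_0, C_0])
      have h5 : aevalAeval x t (C (C ((p.coeff 0).coeff 0))) = (((p.coeff 0).coeff 0 : ℤ) : ℂ) := by
        simp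
      rw [h3, h5, Complex.norm_intCast, ← Int.cast_abs]
      exact_mod_cast Int.one_le_abs h4
    · refine le_trans ?_ (h p hp.irreducible (dvd_mul_right p a))
      exact pow_le_of_le_one hδ.le hδ1 hd

end Pool.Agent.N743
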