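import Pool.Agent.N743.EngineU
import Pool.Agent.N743.Biv

/-!
# Near relations between a number with a transcendence measure and an arbitrary complex number
-/

set_option autoImplicit false

namespace Pool.Agent.N743

open Polynomial Finset
open Pool.Agent.TH456.TM Pool.Agent.R356

/-- The polynomial `P` in two variables with integer coefficients has degree at most `D` in each
variable and all its coefficients have absolute value at most `H`. -/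
def Small (D : ℕ) (H : ℝ) (P : ℤ[X][X]) : Prop :=
  P.natDegree ≤ D ∧ (∀ j, (P.coeff j).natDegree ≤ D) ∧
    ∀ j i, |(((P.coeff j).coeff i : ℤ) : ℝ)| ≤ H

/-- `F` is irreducible with positive leading coefficient. -/
def IrrNormal (F : ℤ[X][X]) : Prop := Irreducible F ∧ 0 < F.leadingCoeff.leadingCoeff

/-- There is a near relation between `x` and `t` at the scale `X`: a nonzero polynomial `P` with
integer coefficients, of degree at most `D` in each variable, with coefficients at most `X ^ θ`, and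
with `|P(x, t)| ≤ 1 / X`. -/
def NearRel (D : ℕ) (θ : ℝ) (x t : ℂ) (X : ℝ) : Prop :=
  ∃ P : ℤ[X][X], P ≠ 0 ∧ Small D (X ^ θ) P ∧ ‖aevalAeval x t P‖ ≤ X⁻¹

/-- The irreducible normalised polynomial `F` is a near relation between `x` and `t` at the scale
`X`. -/
def IrrNear (D : ℕ) (θ : ℝ) (x t : ℂ) (X : ℝ) (F : ℤ[X][X]) : Prop :=
  IrrNormal F ∧ Small D (X ^ θ) F ∧ ‖aevalAeval x t F‖ ≤ X⁻¹

lemma mem_IR_iff (D : ℕ) (F : ℤ[X][X]) : F ∈ IR D ↔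
    IrrNormal F ∧ F.natDegree ≤ D ∧ ∀ j, (F.coeff j).natDegree ≤ D :=
  ⟨fun h => ⟨⟨h.1, h.2.2.2⟩, h.2.1, h.2.2.1⟩, fun h => ⟨h.1.1, h.2.1, h.2.2, h.1.2⟩⟩

lemma coeff_le_hgt (F : ℤ[X][X]) (j i : ℕ) : |(((F.coeff j).coeff i : ℤ) : ℝ)| ≤ hgt F := by
  rw [← Int.cast_abs, Int.abs_eq_natAbs, Int.cast_natCast]
  exact_mod_cast le_hgt F j i

lemma small_iff (D : ℕ) (H : ℝ) (F : ℤ[X][X]) (hF : F ∈ IR D) : Small D H F ↔ (hgt F : ℝ) ≤ H :=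
  ⟨fun h => hgt_le F hF.1.ne_zero H h.2.2, fun h => ⟨hF.2.1, hF.2.2.1, fun j i =>
    (coeff_le_hgt F j i).trans h⟩⟩

/-- the constant for the factors -/
noncomputable def cF (D : ℕ) : ℝ := 2 ^ (D + (D + 1) * D) * ((D + (D + 1) * D : ℕ) + 1)

lemma one_le_cF (D : ℕ) : 1 ≤ cF D := by
  unfold cF
  have h1 : (1 : ℝ) ≤ 2 ^ (D + (D + 1) * D) := one_le_pow₀ (by norm_num)
  have h2 : (0 : ℝ) ≤ ((D + (D + 1) * D : ℕ) : ℝ) := by positivity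
  nlinarith

/-- a near relation has an irreducible factor with a small value -/
lemma near_irr2 (D : ℕ) (θ X : ℝ) (x t : ℂ) (hX : 1 < X) (h : NearRel D θ x t X) :
    ∃ F ∈ IR D, (hgt F : ℝ) ≤ cF D * X ^ θ ∧
      ‖aevalAeval x t F‖ ≤ X ^ (-(1 / (2 * (D : ℝ) + 1))) := by
  obtain ⟨P, hP, ⟨hd, hdx, hc⟩, hv⟩ := h
  have hX0 : 0 < X := by linarith
  have hd0 : (0 : ℝ) < 2 * (D : ℝ) + 1 := by positivity
  obtain ⟨δ, hδ⟩ : ∃ δ : ℝ, δ = X ^ (-(1 / (2 * (D : ℝ) + 1))) := ⟨_, rfl⟩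
  have hδ0 : 0 < δ := by rw [hδ]; positivity
  have hδ1 : δ ≤ 1 := by
    rw [hδ]
    refine Real.rpow_le_one_of_one_le_of_nonpos hX.le ?_
    have : 0 < 1 / (2 * (D : ℝ) + 1) := by positivity
    linarith
  obtain ⟨q, hq, hqP, hqv⟩ : ∃ q : ℤ[X][X], Irreducible q ∧ q ∣ P ∧ ‖aevalAeval x t q‖ < δ := by
    by_contra hcon
    push Not at hcon
    have h1 := value_of_factors2 x t δ hδ0 hδ1 P hP hcon
    have h2 : δ ^ (2 * D) ≤ δ ^ (P.natDegree + (Bivariate.swap P).natDegree) :=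
      pow_le_pow_of_le_one hδ0.le hδ1 (by
        have := (swap_natDegree_le P D).2 hdx
        omega)
    have h3 : X⁻¹ < δ ^ (2 * D) := by
      rw [hδ, ← Real.rpow_natCast, ← Real.rpow_mul hX0.le, ← Real.rpow_neg_one]
      refine Real.rpow_lt_rpow_of_exponent_lt hX ?_
      push_cast
      have h4 : -(1 / (2 * (D : ℝ) + 1)) * (2 * D) = -(2 * D / (2 * D + 1)) := by ring
      rw [h4, neg_lt_neg_iff, div_lt_one hd0]
      linarith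
    linarith
  obtain ⟨hqd, hqdx, hqc⟩ := factor_bound2 D P q hP hd hdx hqP _ hc
  obtain ⟨r, hr, hrc, hrv⟩ := sign_normal2 D q hq hqd hqdx
  refine ⟨r, hr, hgt_le r hr.1.ne_zero _ fun j i => by rw [hrc]; exact hqc j i, ?_⟩
  rw [hrv, ← hδ]
  exact hqv.le

lemma near_of_rel (D : ℕ) (θ : ℝ) (x t : ℂ) (hθ : 0 < θ)
    (h : ∃ P : ℤ[X][X], P ≠ 0 ∧ P.natDegree ≤ D ∧ (∀ j, (P.coeff j).natDegree ≤ D) ∧
      aevalAeval x t P = 0) : ∃ K : ℝ, ∀ X ≥ K, NearRel D θ x t X := by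
  obtain ⟨P, hP, hd, hdx, h0⟩ := h
  obtain ⟨K, hK1, hK⟩ := large_scale θ (hgt P) hθ
  refine ⟨K, fun X hX => ⟨P, hP, ⟨hd, hdx, fun j i => (coeff_le_hgt P j i).trans (hK X hX).le⟩, ?_⟩⟩
  rw [h0, norm_zero, inv_nonneg]
  have : K ≤ X := hX
  linarith

/-- **The criterion.** -/
theorem crit (x : ℂ) (hx : MeasT x) (D : ℕ) (hD : 1 ≤ D) (M : ℝ) (hM : 1 < M) :
    ∃ θ₀ : ℝ, 0 < θ₀ ∧ ∀ θ : ℝ, 0 < θ → θ ≤ θ₀ →
      (∀ T : ℝ, ∃ K : ℝ, 1 < K ∧ ∀ t : ℂ, ‖t‖ ≤ T →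
        (∀ X ≥ K, ∀ F G, IrrNear D θ x t X F → IrrNear D θ x t X G → F = G) ∧
        (∀ X ≥ K, ∀ F, IrrNear D θ x t X F → aevalAeval x t F ≠ 0 →
          X ≤ ‖aevalAeval x t F‖⁻¹ ∧ ∀ Y, ‖aevalAeval x t F‖⁻¹ < Y →
            Y ≤ (‖aevalAeval x t F‖⁻¹) ^ M → ∀ G, ¬ IrrNear D θ x t Y G) ∧
        (∀ Y Z, K ≤ Y → Y ≤ Z → (∀ X, Y ≤ X → X ≤ Z → ∃ F, IrrNear D θ x t X F) →
          ∃ F, ∀ X, Y ≤ X → X ≤ Z → IrrNear D θ x t X F) ∧
        (∀ Y Z, K ≤ Y → Y ≤ Z → (∀ X, Y ≤ X → X ≤ Z → NearRel D θ x t X) →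
          ∃ F, IrrNormal F ∧ Small D (Y ^ (2 * θ)) F ∧
            ‖aevalAeval x t F‖ ≤ Z ^ (-(1 / (2 * (D : ℝ) + 1))))) ∧
      ∀ t : ℂ,
        ((∃ P : ℤ[X][X], P ≠ 0 ∧ P.natDegree ≤ D ∧ (∀ j, (P.coeff j).natDegree ≤ D) ∧
          aevalAeval x t P = 0) ↔ ∃ K : ℝ, ∀ X ≥ K, NearRel D θ x t X) ∧
        ((¬ ∃ P : ℤ[X][X], P ≠ 0 ∧ P.natDegree ≤ D ∧ (∀ j, (P.coeff j).natDegree ≤ D) ∧
          aevalAeval x t P = 0) → ∀ K : ℝ, ∃ Z ≥ K, ∀ Y, Z < Y → Y ≤ Z ^ M → ¬ NearRel D θ x t Y) := by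
  obtain ⟨κ, hκ, hcore⟩ := core x hx D hD
  have hd0 : (0 : ℝ) < 2 * (D : ℝ) + 1 := by positivity
  have hσ0 : (0 : ℝ) < 1 / (2 * (D : ℝ) + 1) := by positivity
  have hσ1 : 1 / (2 * (D : ℝ) + 1) ≤ 1 := by
    rw [div_le_one hd0]
    have : (0 : ℝ) ≤ D := by positivity
    linarith
  have hM0 : 0 < M + 1 := by linarith
  refine ⟨1 / (2 * (D : ℝ) + 1) / ((M + 1) * κ) / 2, by positivity, fun θ hθ hθ₀ => ?_⟩
  have hθM : (M + 1) * (θ * κ) < 1 / (2 * (D : ℝ) + 1) := by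
    have h1 : (M + 1) * (θ * κ) ≤
        (M + 1) * ((1 / (2 * (D : ℝ) + 1) / ((M + 1) * κ) / 2) * κ) := by gcongr
    have h2 : (M + 1) * ((1 / (2 * (D : ℝ) + 1) / ((M + 1) * κ) / 2) * κ) =
        1 / (2 * (D : ℝ) + 1) / 2 := by field_simp
    linarith
  -- the objects
  have hmain : ∀ T : ℝ, ∃ C : ℝ, 0 < C ∧ ∀ t : ℂ, ‖t‖ ≤ T → ∀ a b : {F : ℤ[X][X] // F ∈ IR D},
      a ≠ b → C * ((hgt a.1 : ℝ) * hgt b.1) ^ (-κ) ≤
        max ‖aevalAeval x t a.1‖ ‖aevalAeval x t b.1‖ := by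
    intro T
    obtain ⟨C, hC, hcT⟩ := hcore T
    refine ⟨C, hC, ?_⟩
    rintro t ht ⟨P, hP⟩ ⟨Q, hQ⟩ hne
    have h1 : (1 : ℝ) ≤ hgt P := by exact_mod_cast hgt_pos P hP.1.ne_zero
    have h2 : (1 : ℝ) ≤ hgt Q := by exact_mod_cast hgt_pos Q hQ.1.ne_zero
    have h3 := hcT t ht P hP Q hQ (fun h => hne (Subtype.ext h)) ((hgt P : ℝ) * hgt Q)
      (by nlinarith) (by nlinarith)
    rw [vl_eq, vl_eq] at h3
    exact h3
  have hsz : ∀ a : {F : ℤ[X][X] // F ∈ IR D}, (1 : ℝ) ≤ hgt a.1 := fun a => by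
    exact_mod_cast hgt_pos a.1 a.2.1.ne_zero
  refine ⟨fun T => ?_, fun t => ?_⟩
  · obtain ⟨C, hC, hmC⟩ := hmain T
    obtain ⟨K₁, hK₁, e1⟩ := engineU κ C 1 θ 1 M hκ hC le_rfl hθ one_pos (by linarith) hM
    obtain ⟨K₂, hK₂, e2⟩ := engineU κ C (cF D) θ (1 / (2 * (D : ℝ) + 1)) M hκ hC (one_le_cF D) hθ
      hσ0 hθM hM
    obtain ⟨K₃, hK₃, e3⟩ := large_scale θ (cF D) hθ
    refine ⟨max K₁ (max K₂ K₃), lt_max_of_lt_left hK₁, fun t ht => ?_⟩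
    obtain ⟨u1, u2, u3⟩ := e1 {F : ℤ[X][X] // F ∈ IR D} (fun a => (hgt a.1 : ℝ))
      (fun a => ‖aevalAeval x t a.1‖) hsz (fun a => norm_nonneg _) (hmC t ht)
    obtain ⟨w1, w2, w3⟩ := e2 {F : ℤ[X][X] // F ∈ IR D} (fun a => (hgt a.1 : ℝ))
      (fun a => ‖aevalAeval x t a.1‖) hsz (fun a => norm_nonneg _) (hmC t ht)
    have hseen : ∀ X : ℝ, ∀ F : ℤ[X][X], IrrNear D θ x t X F → ∃ hF : F ∈ IR D,
        Seen (α := {F : ℤ[X][X] // F ∈ IR D}) (fun a => (hgt a.1 : ℝ))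
          (fun a => ‖aevalAeval x t a.1‖) 1 θ 1 X ⟨F, hF⟩ := by
      rintro X F ⟨h1, h2, h3⟩
      have hF : F ∈ IR D := (mem_IR_iff D F).2 ⟨h1, h2.1, h2.2.1⟩
      refine ⟨hF, ?_, ?_⟩
      · rw [one_mul]
        exact (small_iff D _ F hF).1 h2
      · rw [Real.rpow_neg_one]
        exact h3
    have hunseen : ∀ X : ℝ, ∀ a : {F : ℤ[X][X] // F ∈ IR D},
        Seen (α := {F : ℤ[X][X] // F ∈ IR D}) (fun a => (hgt a.1 : ℝ))
          (fun a => ‖aevalAeval x t a.1‖) 1 θ 1 X a → IrrNear D θ x t X a.1 := by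
      rintro X ⟨F, hF⟩ ⟨h1, h2⟩
      rw [one_mul] at h1
      rw [Real.rpow_neg_one] at h2
      exact ⟨((mem_IR_iff D F).1 hF).1, (small_iff D _ F hF).2 h1, h2⟩
    refine ⟨?_, ?_, ?_, ?_⟩
    · intro X hX F G hFn hGn
      obtain ⟨hF, h1⟩ := hseen X F hFn
      obtain ⟨hG, h2⟩ := hseen X G hGn
      have h3 := u1 X ((le_max_left _ _).trans hX) _ _ h1 h2
      exact congrArg Subtype.val h3
    · intro X hX F hFn hne
      obtain ⟨hF, h1⟩ := hseen X F hFn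
      have h2 := u2 X ((le_max_left _ _).trans hX) _ h1 (norm_pos_iff.2 hne)
      simp only [div_one, Real.rpow_neg_one] at h2
      refine ⟨h2.1, fun Y hY hYM G hGn => ?_⟩
      obtain ⟨hG, h3⟩ := hseen Y G hGn
      exact h2.2 Y hY hYM _ h3
    · intro Y Z hY hYZ hn
      obtain ⟨a, ha⟩ := u3 Y Z ((le_max_left _ _).trans hY) hYZ fun X hX1 hX2 => by
        obtain ⟨F, hFn⟩ := hn X hX1 hX2
        obtain ⟨hF, h1⟩ := hseen X F hFn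
        exact ⟨_, h1⟩
      exact ⟨a.1, fun X hX1 hX2 => hunseen X a (ha X hX1 hX2)⟩
    · intro Y Z hY hYZ hn
      have hY2 : K₂ ≤ Y := ((le_max_left _ _).trans (le_max_right _ _)).trans hY
      have hY3 : K₃ ≤ Y := ((le_max_right _ _).trans (le_max_right _ _)).trans hY
      obtain ⟨a, ha⟩ := w3 Y Z hY2 hYZ fun X hX1 hX2 => by
        obtain ⟨F, hF, h1, h2⟩ := near_irr2 D θ X x t (by linarith) (hn X hX1 hX2)
        exact ⟨⟨F, hF⟩, h1, h2⟩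
      refine ⟨a.1, ((mem_IR_iff D a.1).1 a.2).1, (small_iff D _ a.1 a.2).2 ?_, (ha Z hYZ le_rfl).2⟩
      refine (ha Y le_rfl hYZ).1.trans ?_
      have h5 : Y ^ (2 * θ) = Y ^ θ * Y ^ θ := by
        rw [← Real.rpow_add (by linarith)]
        congr 1
        ring
      rw [h5]
      have h6 := e3 Y hY3
      have h7 : 0 ≤ Y ^ θ := by
        have : 0 < Y := by linarith
        positivity
      exact mul_le_mul_of_nonneg_right h6.le h7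
  · -- one number `t`
    obtain ⟨C, hC, hmC⟩ := hmain ‖t‖
    obtain ⟨K₂, hK₂, e2⟩ := engineU κ C (cF D) θ (1 / (2 * (D : ℝ) + 1)) M hκ hC (one_le_cF D) hθ
      hσ0 hθM hM
    obtain ⟨w1, w2, w3⟩ := e2 {F : ℤ[X][X] // F ∈ IR D} (fun a => (hgt a.1 : ℝ))
      (fun a => ‖aevalAeval x t a.1‖) hsz (fun a => norm_nonneg _) (hmC t le_rfl)
    have hvoid : (¬ ∃ P : ℤ[X][X], P ≠ 0 ∧ P.natDegree ≤ D ∧ (∀ j, (P.coeff j).natDegree ≤ D) ∧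
        aevalAeval x t P = 0) → ∀ K : ℝ, ∃ Z ≥ K, ∀ Y, Z < Y → Y ≤ Z ^ M →
          ¬ NearRel D θ x t Y := by
      intro hno K
      by_cases hex : ∃ X ≥ max K K₂, NearRel D θ x t X
      · obtain ⟨X, hX, hn⟩ := hex
        have hX2 : K₂ ≤ X := (le_max_right _ _).trans hX
        obtain ⟨F, hF, h1, h2⟩ := near_irr2 D θ X x t (by linarith) hn
        have hF0 : aevalAeval x t F ≠ 0 := fun h0 =>
          hno ⟨F, hF.1.ne_zero, hF.2.1, hF.2.2.1, h0⟩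
        obtain ⟨h3, h4⟩ := w2 X hX2 ⟨F, hF⟩ ⟨h1, h2⟩ (norm_pos_iff.2 hF0)
        refine ⟨_, ((le_max_left _ _).trans hX).trans h3, fun Y hY hYM hn' => ?_⟩
        obtain ⟨G, hG, h5, h6⟩ := near_irr2 D θ Y x t (by linarith) hn'
        exact h4 Y hY hYM ⟨G, hG⟩ ⟨h5, h6⟩
      · push Not at hex
        exact ⟨max K K₂, le_max_left _ _, fun Y hY _ => hex Y hY.le⟩
    refine ⟨⟨near_of_rel D θ x t hθ, ?_⟩, hvoid⟩
    rintro ⟨K, hK⟩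
    by_contra hno
    obtain ⟨Z, hZ, hZv⟩ := hvoid hno (max K 2)
    have hZ2 : 2 ≤ Z := (le_max_right _ _).trans hZ
    have h3 : Z < Z ^ M := by
      conv_lhs => rw [← Real.rpow_one Z]
      exact Real.rpow_lt_rpow_of_exponent_lt (by linarith) hM
    exact hZv (Z ^ M) h3 le_rfl (hK _ (((le_max_left _ _).trans hZ).trans h3.le))

end Pool.Agent.N743
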