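import Pool.Agent.N743.EngineR
import Pool.Agent.N743.Crit

/-!
# The scale dichotomy of rank `r` for near relations over a number with a transcendence measure
-/

set_option autoImplicit false

namespace Pool.Agent.N743

open Polynomial Finset
open Pool.Agent.TH456.TM Pool.Agent.R356

/-- `P(x, t) = 0` for a nonzero polynomial `P` with integer coefficients, of degree at most `D` in
each variable -/
def Related (D : ℕ) (x t : ℂ) : Prop :=
  ∃ P : ℤ[X][X], P ≠ 0 ∧ P.natDegree ≤ D ∧ (∀ j, (P.coeff j).natDegree ≤ D) ∧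
    aevalAeval x t P = 0

/-- a joint measure for the numbers `v_i` over `ℤ[x]` -/
def JointFam (x : ℂ) {ν : Type} (v : ν → ℂ) : Prop :=
  ∀ D : ℕ, ∃ κ C : ℝ, 0 < κ ∧ 0 < C ∧ ∀ P : ν → ℤ[X][X],
    (∀ i, P i ≠ 0 ∧ (P i).natDegree ≤ D ∧ ∀ j, ((P i).coeff j).natDegree ≤ D) → ∀ H : ℝ, 1 ≤ H →
      (∀ i j k, |((((P i).coeff j).coeff k : ℤ) : ℝ)| ≤ H) → ∃ i, C * H ^ (-κ) ≤ ‖aevalAeval x (v i) (P i)‖

lemma related_iff (D : ℕ) (x t : ℂ) : Related D x t ↔ ∃ F ∈ IR D, ‖aevalAeval x t F‖ = 0 := by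
  constructor
  · rintro ⟨P, hP, hd, hdx, h0⟩
    obtain ⟨q, hq, hqP, hqv⟩ : ∃ q : ℤ[X][X], Irreducible q ∧ q ∣ P ∧ aevalAeval x t q = 0 := by
      clear hd hdx
      induction P using UniqueFactorizationMonoid.induction_on_prime with
      | h₁ => exact absurd rfl hP
      | h₂ a ha =>
        obtain ⟨r, hr, rfl⟩ := Polynomial.isUnit_iff.1 ha
        obtain ⟨s, hs, rfl⟩ := Polynomial.isUnit_iff.1 hr
        have h1 : aevalAeval x t (C (C s)) = (s : ℂ) := by simp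
        rw [h1] at h0
        have h2 : s = 0 := by exact_mod_cast h0
        rw [h2] at hs
        exact absurd hs (by simp)
      | h₃ a p ha hp ih =>
        rw [map_mul, mul_eq_zero] at h0
        rcases h0 with h0 | h0
        · exact ⟨p, hp.irreducible, dvd_mul_right p a, h0⟩
        · obtain ⟨q, hq, hqa, hq0⟩ := ih ha h0
          exact ⟨q, hq, hqa.mul_left p, hq0⟩
    obtain ⟨hqd, hqdx, -⟩ := factor_bound2 D P q hP hd hdx hqP (hgt P) (fun j i => coeff_le_hgt P j i)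
    obtain ⟨r, hr, -, hrv⟩ := sign_normal2 D q hq hqd hqdx
    exact ⟨r, hr, by rw [hrv, hqv, norm_zero]⟩
  · rintro ⟨F, hF, h0⟩
    exact ⟨F, hF.1.ne_zero, hF.2.1, hF.2.2.1, norm_eq_zero.1 h0⟩

/-- **The scale dichotomy of rank `r` over `ℚ(x)`.** -/
theorem dichotomyR_biv {ι : Type} [Finite ι] (x : ℂ) (hx : MeasT x) (t : ι → ℂ) (r : ℕ) (hr : 1 ≤ r)
    (h : ∀ s : Finset ι, s.card = r + 1 → JointFam x (fun i : s => t i)) (D : ℕ) (hD : 1 ≤ D) (M : ℝ) (hM : 1 < M) :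
    ∃ θ₀ : ℝ, 0 < θ₀ ∧ ∀ θ : ℝ, 0 < θ → θ ≤ θ₀ →
      DichotomyR r (fun i => Related D x (t i)) (fun X i => NearRel D θ x (t i) X) M := by
  classical
  cases nonempty_fintype ι
  obtain ⟨κ₁, hκ₁, hcore⟩ := core x hx D hD
  obtain ⟨T, hT⟩ : ∃ T : ℝ, ∀ i, ‖t i‖ ≤ T := by
    obtain ⟨T, hT⟩ := (Set.finite_range fun i => ‖t i‖).bddAbove
    exact ⟨T, fun i => hT ⟨i, rfl⟩⟩
  obtain ⟨C₁, hC₁, hcore⟩ := hcore T
  have h1 : ∀ s : Finset ι, ∃ κ C : ℝ, 0 < κ ∧ 0 < C ∧ (s.card = r + 1 → ∀ P : s → ℤ[X][X],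
      (∀ i, P i ≠ 0 ∧ (P i).natDegree ≤ D ∧ ∀ j, ((P i).coeff j).natDegree ≤ D) → ∀ H : ℝ, 1 ≤ H →
      (∀ i j k, |((((P i).coeff j).coeff k : ℤ) : ℝ)| ≤ H) → ∃ i : s, C * H ^ (-κ) ≤ ‖aevalAeval x (t i) (P i)‖) := by
    intro s
    by_cases hs : s.card = r + 1
    · obtain ⟨κ, C, hκ, hC, h2⟩ := h s hs D
      exact ⟨κ, C, hκ, hC, fun _ => h2⟩
    · exact ⟨1, 1, one_pos, one_pos, fun h => absurd h hs⟩
  choose κ' C' hκ' hC' h1 using h1
  obtain ⟨C₂, hC₂, hCle⟩ := exists_pos_le (Finset.univ : Finset (Finset ι)) C' (fun b _ => hC' b)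
  obtain ⟨κ₂, hκle⟩ : ∃ κ₂ : ℝ, ∀ s, κ' s ≤ κ₂ := by
    obtain ⟨B, hB⟩ := (Set.finite_range κ').bddAbove
    exact ⟨B, fun s => hB ⟨s, rfl⟩⟩
  obtain ⟨κ, hκ⟩ : ∃ κ, κ = max κ₁ κ₂ := ⟨_, rfl⟩
  obtain ⟨C, hC⟩ : ∃ C, C = min C₁ C₂ := ⟨_, rfl⟩
  have hκ0 : 0 < κ := by rw [hκ]; exact lt_max_of_lt_left hκ₁
  have hC0 : 0 < C := by rw [hC]; exact lt_min hC₁ hC₂
  have hmono : ∀ (C' κ' H : ℝ), 1 ≤ H → C ≤ C' → κ' ≤ κ → C * H ^ (-κ) ≤ C' * H ^ (-κ') := by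
    intro C' κ' H hH h2 h3
    have h4 : H ^ (-κ) ≤ H ^ (-κ') := Real.rpow_le_rpow_of_exponent_le hH (by linarith)
    have h5 : 0 ≤ H ^ (-κ) := by positivity
    exact mul_le_mul h2 h4 h5 (hC0.le.trans h2)
  have hd0 : (0 : ℝ) < 2 * (D : ℝ) + 1 := by positivity
  have hσ0 : (0 : ℝ) < 1 / (2 * (D : ℝ) + 1) := by positivity
  have hM0 : 0 < M := by linarith
  refine ⟨1 / (2 * (D : ℝ) + 1) / (M * κ) / 2, by positivity, fun θ hθ hθ₀ => ?_⟩
  have hθM : M * θ * κ < 1 / (2 * (D : ℝ) + 1) := by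
    have h1 : M * θ * κ ≤ M * (1 / (2 * (D : ℝ) + 1) / (M * κ) / 2) * κ := by gcongr
    have h2 : M * (1 / (2 * (D : ℝ) + 1) / (M * κ) / 2) * κ = 1 / (2 * (D : ℝ) + 1) / 2 := by field_simp
    linarith
  have hpair : ∀ a b : ι × {F : ℤ[X][X] // F ∈ IR D}, a.1 = b.1 → a ≠ b → ∀ H : ℝ, 1 ≤ H →
      (hgt a.2.1 : ℝ) ≤ H → (hgt b.2.1 : ℝ) ≤ H →
      C * H ^ (-κ) ≤ max ‖aevalAeval x (t a.1) a.2.1‖ ‖aevalAeval x (t b.1) b.2.1‖ := by
    rintro ⟨i, P, hP⟩ ⟨j, Q, hQ⟩ hij hne H hH hPH hQH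
    have hij' : i = j := hij
    subst hij'
    have h3 := hcore (t i) (hT i) P hP Q hQ (fun h => hne (by subst h; rfl)) H hPH hQH
    rw [vl_eq, vl_eq] at h3
    refine le_trans (hmono _ _ H hH ?_ ?_) h3
    · rw [hC]; exact min_le_left _ _
    · rw [hκ]; exact le_max_left _ _
  refine engineR (α := ι × {F : ℤ[X][X] // F ∈ IR D}) r hr (fun a => a.1) (fun a => (hgt a.2.1 : ℝ))
    (fun a => ‖aevalAeval x (t a.1) a.2.1‖) (fun a => norm_nonneg _) κ C hκ0 hC0 ?_ hpair _ _ (cF D) θ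
    (1 / (2 * (D : ℝ) + 1)) M (one_le_cF D) hθ hσ0 ?_ ?_ ?_ hθM hM
  · intro S hS H hH hSH
    by_cases hinj : ∀ a ∈ S, ∀ b ∈ S, a.1 = b.1 → a = b
    · have hcard : (S.image Prod.fst).card = r + 1 := by
        rw [Finset.card_image_of_injOn (fun a ha b hb hab => hinj a ha b hb hab), hS]
      have h2 : ∀ i : {i // i ∈ S.image Prod.fst}, ∃ a ∈ S, a.1 = i.1 := fun i => Finset.mem_image.1 i.2
      choose f hfS hf using h2
      obtain ⟨i, hi⟩ := h1 (S.image Prod.fst) hcard (fun i => (f i).2.1)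
        (fun i => ⟨(f i).2.2.1.ne_zero, (f i).2.2.2.1, (f i).2.2.2.2.1⟩) H hH
        (fun i j k => (coeff_le_hgt _ j k).trans (hSH _ (hfS i)))
      refine ⟨f i, hfS i, ?_⟩
      simp only [hf i]
      refine le_trans (hmono _ _ H hH ?_ ?_) hi
      · rw [hC]; exact (min_le_right _ _).trans (hCle _ (Finset.mem_univ _))
      · rw [hκ]; exact (hκle _).trans (le_max_right _ _)
    · push Not at hinj
      obtain ⟨a, ha, b, hb, hab, hne⟩ := hinj
      have h3 := hpair a b hab hne H hH (hSH a ha) (hSH b hb)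
      rcases le_max_iff.1 h3 with h4 | h4
      · exact ⟨a, ha, h4⟩
      · exact ⟨b, hb, h4⟩
  · intro X hX i hi
    obtain ⟨F, hF, h1, h2⟩ := near_irr2 D θ X x (t i) hX hi
    exact ⟨(i, ⟨F, hF⟩), rfl, h1, h2⟩
  · intro i
    rw [related_iff]
    constructor
    · rintro ⟨F, hF, h0⟩
      exact ⟨(i, ⟨F, hF⟩), rfl, h0⟩
    · rintro ⟨⟨j, F, hF⟩, rfl, h0⟩
      exact ⟨F, hF, h0⟩
  · intro i hi
    exact near_of_rel D θ x (t i) hθ hi

/-- the rank one dichotomy is the simple one -/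
theorem DichotomyR.one {ι : Type} {good : ι → Prop} {near : ℝ → ι → Prop} {M : ℝ} (h : DichotomyR 1 good near M) :
    Dichotomy good near M := by
  classical
  have hs : (∀ i, ¬ good i) → ∀ s : Finset ι, (∀ i ∈ s, good i) → s.card < 1 := by
    intro hng s hs
    rw [Nat.lt_one_iff, Finset.card_eq_zero, Finset.eq_empty_iff_forall_notMem]
    exact fun i hi => hng i (hs i hi)
  have hn : ∀ Y, (∀ s' : Finset ι, (∀ i ∈ s', near Y i) → s'.card < 1) → ∀ j, ¬ near Y j := by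
    intro Y hY j hj
    have := hY {j} (fun i hi => by rw [Finset.mem_singleton.1 hi]; exact hj)
    simp at this
  obtain ⟨K, hK⟩ := h.excl
  refine ⟨⟨K, fun X hX i j hi hj => ?_⟩, ?_, ?_, ?_, ?_⟩
  · by_contra hne
    have h1 := hK X hX {i, j} (fun k hk => by
      rcases Finset.mem_insert.1 hk with rfl | hk
      · exact hi
      · rw [Finset.mem_singleton.1 hk]; exact hj)
    rw [Finset.card_pair hne] at h1
    omega
  · intro i hi
    obtain ⟨K', hK'⟩ := h.good_case {i} (fun j hj => by rw [Finset.mem_singleton.1 hj]; exact hi)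
      (Finset.card_singleton i)
    refine ⟨K', fun X hX => ⟨(hK' X hX i).2 (Finset.mem_singleton_self i), fun j hj => ⟨fun hnj => ?_, fun hg => ?_⟩⟩⟩
    · exact hj (Finset.mem_singleton.1 ((hK' X hX j).1 hnj))
    · have h1 := h.good_le {i, j} (fun k hk => by
        rcases Finset.mem_insert.1 hk with rfl | hk
        · exact hi
        · rw [Finset.mem_singleton.1 hk]; exact hg)
      rw [Finset.card_pair (Ne.symm hj)] at h1
      omega
  · intro hng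
    obtain ⟨K', hK'⟩ := h.void_case (hs hng)
    refine ⟨K', fun X hX i hi => ?_⟩
    obtain ⟨Z, hXZ, h1, h2⟩ := hK' X hX {i} (fun j hj => by rw [Finset.mem_singleton.1 hj]; exact hi)
      (Finset.card_singleton i)
    exact ⟨Z, hXZ, fun Y h3 h4 j hj => Finset.mem_singleton.1 (h1 Y h3 h4 j hj), fun Y h3 h4 => hn Y (h2 Y h3 h4)⟩
  · intro hng K'
    obtain ⟨Z, hZ, h1⟩ := h.voids (hs hng) K'
    exact ⟨Z, hZ, fun Y h3 h4 => hn Y (h1 Y h3 h4)⟩
  · constructor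
    · rintro ⟨i, hi⟩
      obtain ⟨K', hK'⟩ := h.equiv.1 ⟨{i}, Finset.card_singleton i, fun j hj => by
        rw [Finset.mem_singleton.1 hj]; exact hi⟩
      refine ⟨K', fun X hX => ?_⟩
      obtain ⟨s, hs1, hs2⟩ := hK' X hX
      obtain ⟨j, hj⟩ := Finset.card_pos.1 (by omega : 0 < s.card)
      exact ⟨j, hs2 j hj⟩
    · rintro ⟨K', hK'⟩
      obtain ⟨s, hs1, hs2⟩ := h.equiv.2 ⟨K', fun X hX => by
        obtain ⟨i, hi⟩ := hK' X hX
        exact ⟨{i}, Finset.card_singleton i, fun j hj => by rw [Finset.mem_singleton.1 hj]; exact hi⟩⟩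
      obtain ⟨j, hj⟩ := Finset.card_pos.1 (by omega : 0 < s.card)
      exact ⟨j, hs2 j hj⟩

end Pool.Agent.N743
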