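import Mathlib

/-!
# The scale dichotomy: the abstract argument
-/

set_option autoImplicit false

namespace Pool.Agent.N743

/-- The scale dichotomy for the objects `i : ι`, of which some are `good` and some are `near` at the
scale `X`. -/
structure Dichotomy {ι : Type} (good : ι → Prop) (near : ℝ → ι → Prop) (M : ℝ) : Prop where
  /-- at every large scale at most one object is near -/
  excl : ∃ K : ℝ, ∀ X ≥ K, ∀ i j, near X i → near X j → i = j
  /-- if an object is good, it is near at all large scales, and all the others are not good and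
  near at no large scale -/
  good_case : ∀ i, good i → ∃ K : ℝ, ∀ X ≥ K, near X i ∧ ∀ j, j ≠ i → ¬ near X j ∧ ¬ good j
  /-- if no object is good, every large scale `X` at which an object `i` is near is followed by a
  scale `Z ≥ X` such that only `i` is near between `X` and `Z` and nothing is near between
  `Z` and `Z ^ M` -/
  void_case : (∀ i, ¬ good i) → ∃ K : ℝ, ∀ X ≥ K, ∀ i, near X i → ∃ Z ≥ X,
    (∀ Y, X ≤ Y → Y ≤ Z → ∀ j, near Y j → j = i) ∧ ∀ Y, Z < Y → Y ≤ Z ^ M → ∀ j, ¬ near Y j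
  /-- if no object is good, there are arbitrarily large `Z` such that no object is near at any scale
  between `Z` and `Z ^ M` -/
  voids : (∀ i, ¬ good i) → ∀ K : ℝ, ∃ Z ≥ K, ∀ Y, Z < Y → Y ≤ Z ^ M → ∀ j, ¬ near Y j
  /-- some object is good if and only if at every large scale some object is near -/
  equiv : (∃ i, good i) ↔ ∃ K : ℝ, ∀ X ≥ K, ∃ i, near X i

/-- powers dominate constants -/
lemma large_scale (a B : ℝ) (ha : 0 < a) : ∃ K : ℝ, 1 < K ∧ ∀ X ≥ K, B < X ^ a := by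
  obtain ⟨K, hK⟩ := (Filter.eventually_atTop.1
    ((tendsto_rpow_atTop ha).eventually (Filter.eventually_gt_atTop B)))
  exact ⟨max K 2, lt_max_of_lt_right one_lt_two, fun X hX => hK X ((le_max_left _ _).trans hX)⟩

theorem engine {ι α : Type} (idx : α → ι) (size val : α → ℝ) (hs : ∀ a, 1 ≤ size a)
    (hv : ∀ a, 0 ≤ val a) (κ C : ℝ) (hκ : 0 < κ) (hC : 0 < C)
    (hmain : ∀ a b, a ≠ b → C * (size a * size b) ^ (-κ) ≤ max (val a) (val b))
    (near : ℝ → ι → Prop) (good : ι → Prop) (A θ σ M : ℝ) (hA : 1 ≤ A) (hθ : 0 < θ) (hσ : 0 < σ)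
    (hnear : ∀ X, 1 < X → ∀ i, near X i → ∃ a, idx a = i ∧ size a ≤ A * X ^ θ ∧ val a ≤ X ^ (-σ))
    (hgood : ∀ i, good i ↔ ∃ a, idx a = i ∧ val a = 0)
    (hgn : ∀ i, good i → ∃ K : ℝ, ∀ X ≥ K, near X i)
    (hM : (M + 1) * (θ * κ) < σ) (hM1 : 1 < M) : Dichotomy good near M := by
  have hA0 : 0 < A := by linarith
  have hθκ : 0 < θ * κ := by positivity
  have h2 : 2 * (θ * κ) < σ := by nlinarith
  -- two distinct objects of small size at the scale `Y`
  obtain ⟨K₁, hK₁1, hK₁⟩ := large_scale (σ - 2 * (θ * κ)) (A ^ (2 * κ) / C) (by linarith)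
  have hA2 : (A * A) ^ κ = A ^ (2 * κ) := by
    rw [Real.mul_rpow hA0.le hA0.le, ← Real.rpow_add hA0]
    congr 1
    ring
  have same : ∀ Y ≥ K₁, ∀ a b, size a ≤ A * Y ^ θ → size b ≤ A * Y ^ θ → val a ≤ Y ^ (-σ) →
      val b ≤ Y ^ (-σ) → a = b := by
    intro Y hY a b ha hb hva hvb
    by_contra hne
    have hY1 : 1 < Y := lt_of_lt_of_le hK₁1 hY
    have hY0 : 0 < Y := by linarith
    have h3 := hmain a b hne
    have h4 : C * (size a * size b) ^ (-κ) ≤ Y ^ (-σ) := h3.trans (max_le hva hvb)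
    have hsa := hs a
    have hsb := hs b
    have hab : 0 < size a * size b := by positivity
    have h5 : size a * size b ≤ (A * A) * Y ^ (2 * θ) := by
      have h6 : Y ^ (2 * θ) = Y ^ θ * Y ^ θ := by
        rw [← Real.rpow_add hY0]
        congr 1
        ring
      rw [h6]
      calc size a * size b ≤ (A * Y ^ θ) * (A * Y ^ θ) := by gcongr
        _ = _ := by ring
    have h6 : (size a * size b) ^ κ ≤ A ^ (2 * κ) * Y ^ (2 * (θ * κ)) := by
      calc (size a * size b) ^ κ ≤ ((A * A) * Y ^ (2 * θ)) ^ κ := by gcongr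
        _ = _ := by
          rw [Real.mul_rpow (by positivity) (by positivity), hA2, ← Real.rpow_mul hY0.le]
          congr 2
          ring
    have h7 : (size a * size b) ^ (-κ) * (size a * size b) ^ κ = 1 := by
      rw [← Real.rpow_add hab]; simp
    have h8 : C ≤ Y ^ (-σ) * (A ^ (2 * κ) * Y ^ (2 * (θ * κ))) := by
      calc C = (C * (size a * size b) ^ (-κ)) * (size a * size b) ^ κ := by
            rw [mul_assoc, h7, mul_one]
        _ ≤ Y ^ (-σ) * (A ^ (2 * κ) * Y ^ (2 * (θ * κ))) := by gcongr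
    have h9 : Y ^ (σ - 2 * (θ * κ)) * (Y ^ (-σ) * Y ^ (2 * (θ * κ))) = 1 := by
      rw [← Real.rpow_add hY0, ← Real.rpow_add hY0]
      have : σ - 2 * (θ * κ) + (-σ + 2 * (θ * κ)) = 0 := by ring
      rw [this, Real.rpow_zero]
    have h10 : C * Y ^ (σ - 2 * (θ * κ)) ≤ A ^ (2 * κ) := by
      calc C * Y ^ (σ - 2 * (θ * κ)) ≤ (Y ^ (-σ) * (A ^ (2 * κ) * Y ^ (2 * (θ * κ)))) *
            Y ^ (σ - 2 * (θ * κ)) := by gcongr
        _ = A ^ (2 * κ) * (Y ^ (σ - 2 * (θ * κ)) * (Y ^ (-σ) * Y ^ (2 * (θ * κ)))) := by ring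
        _ = _ := by rw [h9, mul_one]
    have h11 := hK₁ Y hY
    rw [div_lt_iff₀ hC] at h11
    linarith
  have excl : ∀ X ≥ K₁, ∀ i j, near X i → near X j → i = j := by
    intro X hX i j hi hj
    have hX1 : 1 < X := lt_of_lt_of_le hK₁1 hX
    obtain ⟨a, rfl, ha, hva⟩ := hnear X hX1 i hi
    obtain ⟨b, rfl, hb, hvb⟩ := hnear X hX1 j hj
    rw [same X hX a b ha hb hva hvb]
  -- the good case
  have good_case : ∀ i, good i → ∃ K : ℝ, ∀ X ≥ K, near X i ∧ ∀ j, j ≠ i → ¬ near X j ∧ ¬ good j := by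
    intro i hi
    obtain ⟨K₂, hK₂⟩ := hgn i hi
    refine ⟨max K₁ K₂, fun X hX => ⟨hK₂ X ((le_max_right _ _).trans hX), fun j hj => ?_⟩⟩
    have hX1 : K₁ ≤ X := (le_max_left _ _).trans hX
    refine ⟨fun hjn => hj (excl X hX1 j i hjn (hK₂ X ((le_max_right _ _).trans hX))), fun hg => ?_⟩
    obtain ⟨K₃, hK₃⟩ := hgn j hg
    refine hj (excl (max X K₃) (hX1.trans (le_max_left _ _)) j i (hK₃ _ (le_max_right _ _))
      (hK₂ _ (((le_max_right _ _).trans hX).trans (le_max_left _ _))))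
  -- the void case
  obtain ⟨K₄, hK₄1, hK₄⟩ := large_scale (σ - (M + 1) * (θ * κ)) (A ^ (2 * κ) / C) (by linarith)
  have void_case : (∀ i, ¬ good i) → ∀ X ≥ max K₁ K₄, ∀ i, near X i → ∃ Z ≥ X,
      (∀ Y, X ≤ Y → Y ≤ Z → ∀ j, near Y j → j = i) ∧
        ∀ Y, Z < Y → Y ≤ Z ^ M → ∀ j, ¬ near Y j := by
    intro hng X hX i hi
    have hXK₁ : K₁ ≤ X := (le_max_left _ _).trans hX
    have hXK₄ : K₄ ≤ X := (le_max_right _ _).trans hX
    have hX1 : 1 < X := lt_of_lt_of_le hK₁1 hXK₁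
    have hX0 : 0 < X := by linarith
    obtain ⟨a, rfl, ha, hva⟩ := hnear X hX1 i hi
    have hva0 : 0 < val a := lt_of_le_of_ne (hv a) fun h => hng (idx a) ((hgood _).2 ⟨a, rfl, h.symm⟩)
    obtain ⟨Z, hZ⟩ : ∃ Z : ℝ, Z = val a ^ (-(1 / σ)) := ⟨_, rfl⟩
    have hZ0 : 0 < Z := by rw [hZ]; positivity
    have hZσ : Z ^ (-σ) = val a := by
      rw [hZ, ← Real.rpow_mul hva0.le]
      have : -(1 / σ) * -σ = 1 := by field_simp
      rw [this, Real.rpow_one]
    have hXZ : X ≤ Z := by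
      by_contra hcon
      push Not at hcon
      have h3 : X ^ (-σ) < Z ^ (-σ) := Real.rpow_lt_rpow_of_neg hZ0 hcon (by linarith)
      rw [hZσ] at h3
      linarith
    refine ⟨Z, hXZ, ?_, ?_⟩
    · intro Y hXY hYZ j hj
      have hY0 : 0 < Y := by linarith
      obtain ⟨b, rfl, hb, hvb⟩ := hnear Y (by linarith) j hj
      have h3 : X ^ θ ≤ Y ^ θ := by gcongr
      have h4 : val a ≤ Y ^ (-σ) := by
        rw [← hZσ]
        exact Real.rpow_le_rpow_of_nonpos hY0 hYZ (by linarith)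
      rw [same Y (hXK₁.trans hXY) a b (ha.trans (by gcongr)) hb h4 hvb]
    · intro Y hZY hYM j hj
      have hY0 : 0 < Y := by linarith
      obtain ⟨b, rfl, hb, hvb⟩ := hnear Y (by linarith) j hj
      have h3 : val b < val a := by
        rw [← hZσ]
        exact lt_of_le_of_lt hvb (Real.rpow_lt_rpow_of_neg hZ0 hZY (by linarith))
      have hne : a ≠ b := by
        rintro rfl
        exact lt_irrefl _ h3
      have h4 := hmain a b hne
      rw [max_eq_left h3.le, ← hZσ] at h4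
      have hsa := hs a
      have hsb := hs b
      have hab : 0 < size a * size b := by positivity
      have h5 : size a * size b ≤ (A * A) * Z ^ ((M + 1) * θ) := by
        have h6 : Z ^ ((M + 1) * θ) = Z ^ θ * (Z ^ M) ^ θ := by
          rw [← Real.rpow_mul hZ0.le, ← Real.rpow_add hZ0]
          congr 1
          ring
        rw [h6]
        calc size a * size b ≤ (A * X ^ θ) * (A * Y ^ θ) := by gcongr
          _ ≤ (A * Z ^ θ) * (A * (Z ^ M) ^ θ) := by gcongr
          _ = _ := by ring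
      have h6 : (size a * size b) ^ κ ≤ A ^ (2 * κ) * Z ^ ((M + 1) * (θ * κ)) := by
        calc (size a * size b) ^ κ ≤ ((A * A) * Z ^ ((M + 1) * θ)) ^ κ := by gcongr
          _ = _ := by
            rw [Real.mul_rpow (by positivity) (by positivity), hA2, ← Real.rpow_mul hZ0.le]
            congr 2
            ring
      have h7 : (size a * size b) ^ (-κ) * (size a * size b) ^ κ = 1 := by
        rw [← Real.rpow_add hab]; simp
      have h8 : C ≤ Z ^ (-σ) * (A ^ (2 * κ) * Z ^ ((M + 1) * (θ * κ))) := by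
        calc C = (C * (size a * size b) ^ (-κ)) * (size a * size b) ^ κ := by
              rw [mul_assoc, h7, mul_one]
          _ ≤ Z ^ (-σ) * (A ^ (2 * κ) * Z ^ ((M + 1) * (θ * κ))) := by gcongr
      have h9 : Z ^ (σ - (M + 1) * (θ * κ)) * (Z ^ (-σ) * Z ^ ((M + 1) * (θ * κ))) = 1 := by
        rw [← Real.rpow_add hZ0, ← Real.rpow_add hZ0]
        have : σ - (M + 1) * (θ * κ) + (-σ + (M + 1) * (θ * κ)) = 0 := by ring
        rw [this, Real.rpow_zero]
      have h10 : C * Z ^ (σ - (M + 1) * (θ * κ)) ≤ A ^ (2 * κ) := by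
        calc C * Z ^ (σ - (M + 1) * (θ * κ)) ≤ (Z ^ (-σ) * (A ^ (2 * κ) *
              Z ^ ((M + 1) * (θ * κ)))) * Z ^ (σ - (M + 1) * (θ * κ)) := by gcongr
          _ = A ^ (2 * κ) * (Z ^ (σ - (M + 1) * (θ * κ)) *
              (Z ^ (-σ) * Z ^ ((M + 1) * (θ * κ)))) := by ring
          _ = _ := by rw [h9, mul_one]
      have h11 := hK₄ Z (hXK₄.trans hXZ)
      rw [div_lt_iff₀ hC] at h11
      linarith
  have voids : (∀ i, ¬ good i) → ∀ K : ℝ, ∃ Z ≥ K, ∀ Y, Z < Y → Y ≤ Z ^ M → ∀ j, ¬ near Y j := by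
    intro hng K
    by_cases hex : ∃ X ≥ max K (max K₁ K₄), ∃ i, near X i
    · obtain ⟨X, hX, i, hi⟩ := hex
      obtain ⟨Z, hXZ, _, hZ⟩ := void_case hng X ((le_max_right _ _).trans hX) i hi
      exact ⟨Z, ((le_max_left _ _).trans hX).trans hXZ, hZ⟩
    · push Not at hex
      exact ⟨max K (max K₁ K₄), le_max_left _ _, fun Y hY _ j => hex Y hY.le j⟩
  refine ⟨⟨K₁, excl⟩, good_case, fun hng => ⟨_, void_case hng⟩, voids, ?_⟩
  constructor
  · rintro ⟨i, hi⟩
    obtain ⟨K, hK⟩ := hgn i hi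
    exact ⟨K, fun X hX => ⟨i, hK X hX⟩⟩
  · rintro ⟨K, hK⟩
    by_contra hcon
    push Not at hcon
    obtain ⟨Z, hZ, hZv⟩ := voids hcon (max K 2)
    have hZ2 : 2 ≤ Z := (le_max_right _ _).trans hZ
    have h3 : Z < Z ^ M := by
      conv_lhs => rw [← Real.rpow_one Z]
      exact Real.rpow_lt_rpow_of_exponent_lt (by linarith) hM1
    obtain ⟨i, hi⟩ := hK (Z ^ M) (((le_max_left _ _).trans hZ).trans h3.le)
    exact hZv (Z ^ M) h3 le_rfl i hi

end Pool.Agent.N743
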