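import Pool.Agent.N743.Engine

/-!
# The scale dichotomy of rank `r`: the abstract argument
-/

set_option autoImplicit false

namespace Pool.Agent.N743

/-- The scale dichotomy of rank `r` for the objects `i : ι`, of which some are `good` and some are
`near` at the scale `X`. -/
structure DichotomyR {ι : Type} (r : ℕ) (good : ι → Prop) (near : ℝ → ι → Prop) (M : ℝ) : Prop where
  /-- at every large scale at most `r` objects are near -/
  excl : ∃ K : ℝ, ∀ X ≥ K, ∀ s : Finset ι, (∀ i ∈ s, near X i) → s.card ≤ r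
  /-- at most `r` objects are good -/
  good_le : ∀ s : Finset ι, (∀ i ∈ s, good i) → s.card ≤ r
  /-- if `r` objects are good, then precisely these are near at all large scales -/
  good_case : ∀ s : Finset ι, (∀ i ∈ s, good i) → s.card = r → ∃ K : ℝ, ∀ X ≥ K, ∀ i, near X i ↔ i ∈ s
  /-- if fewer than `r` objects are good, every large scale `X` at which `r` objects are near is
  followed by a scale `Z ≥ X` such that only these `r` objects can be near between `X` and `Z` and fewer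
  than `r` objects are near at every scale between `Z` and `Z ^ M` -/
  void_case : (∀ s : Finset ι, (∀ i ∈ s, good i) → s.card < r) → ∃ K : ℝ, ∀ X ≥ K, ∀ s : Finset ι,
    (∀ i ∈ s, near X i) → s.card = r → ∃ Z ≥ X,
      (∀ Y, X ≤ Y → Y ≤ Z → ∀ j, near Y j → j ∈ s) ∧
      ∀ Y, Z < Y → Y ≤ Z ^ M → ∀ s' : Finset ι, (∀ i ∈ s', near Y i) → s'.card < r
  /-- if fewer than `r` objects are good, there are arbitrarily large `Z` such that fewer than `r` objects
  are near at every scale between `Z` and `Z ^ M` -/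
  voids : (∀ s : Finset ι, (∀ i ∈ s, good i) → s.card < r) → ∀ K : ℝ, ∃ Z ≥ K, ∀ Y, Z < Y → Y ≤ Z ^ M →
    ∀ s' : Finset ι, (∀ i ∈ s', near Y i) → s'.card < r
  /-- `r` objects are good if and only if at every large scale `r` objects are near -/
  equiv : (∃ s : Finset ι, s.card = r ∧ ∀ i ∈ s, good i) ↔
    ∃ K : ℝ, ∀ X ≥ K, ∃ s : Finset ι, s.card = r ∧ ∀ i ∈ s, near X i

theorem engineR {ι α : Type} (r : ℕ) (hr : 1 ≤ r) (idx : α → ι) (size val : α → ℝ)
    (hv : ∀ a, 0 ≤ val a) (κ C : ℝ) (hκ : 0 < κ) (hC : 0 < C)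
    (hfew : ∀ S : Finset α, S.card = r + 1 → ∀ H : ℝ, 1 ≤ H → (∀ a ∈ S, size a ≤ H) →
      ∃ a ∈ S, C * H ^ (-κ) ≤ val a)
    (hpair : ∀ a b, idx a = idx b → a ≠ b → ∀ H : ℝ, 1 ≤ H → size a ≤ H → size b ≤ H →
      C * H ^ (-κ) ≤ max (val a) (val b))
    (near : ℝ → ι → Prop) (good : ι → Prop) (A θ σ M : ℝ) (hA : 1 ≤ A) (hθ : 0 < θ) (hσ : 0 < σ)
    (hnear : ∀ X, 1 < X → ∀ i, near X i → ∃ a, idx a = i ∧ size a ≤ A * X ^ θ ∧ val a ≤ X ^ (-σ))
    (hgood : ∀ i, good i ↔ ∃ a, idx a = i ∧ val a = 0)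
    (hgn : ∀ i, good i → ∃ K : ℝ, ∀ X ≥ K, near X i)
    (hM : M * θ * κ < σ) (hM1 : 1 < M) : DichotomyR r good near M := by
  classical
  have hA0 : 0 < A := by linarith
  obtain ⟨K₁, hK₁1, hK₁⟩ := large_scale (σ - M * θ * κ) (A ^ κ / C) (by linarith)
  -- the numerical contradiction
  have hnum : ∀ Z ≥ K₁, Z ^ (-σ) < C * (A * Z ^ (M * θ)) ^ (-κ) := by
    intro Z hZ
    have hZ1 : 1 < Z := lt_of_lt_of_le hK₁1 hZ
    have hZ0 : 0 < Z := by linarith
    have h1 := hK₁ Z hZ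
    rw [div_lt_iff₀ hC] at h1
    have h2 : (A * Z ^ (M * θ)) ^ (-κ) = (A ^ κ)⁻¹ * Z ^ (-(M * θ * κ)) := by
      rw [Real.mul_rpow hA0.le (by positivity), Real.rpow_neg hA0.le, ← Real.rpow_mul hZ0.le]
      congr 2
      ring
    have h3 : Z ^ (σ - M * θ * κ) = Z ^ σ * Z ^ (-(M * θ * κ)) := by
      rw [← Real.rpow_add hZ0]; congr 1
    have h4 : Z ^ (-σ) * Z ^ σ = 1 := by
      rw [← Real.rpow_add hZ0]; simp
    have h5 : 0 < A ^ κ := by positivity
    rw [h2]
    have h6 : Z ^ (-σ) * (A ^ κ * Z ^ σ) < (C * ((A ^ κ)⁻¹ * Z ^ (-(M * θ * κ)))) * (A ^ κ * Z ^ σ) := by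
      calc Z ^ (-σ) * (A ^ κ * Z ^ σ) = A ^ κ * (Z ^ (-σ) * Z ^ σ) := by ring
        _ = A ^ κ := by rw [h4, mul_one]
        _ < Z ^ (σ - M * θ * κ) * C := h1
        _ = _ := by
          rw [h3]
          field_simp
    exact lt_of_mul_lt_mul_right h6 (by positivity)
  have few : ∀ Z ≥ K₁, ∀ S : Finset α, (∀ a ∈ S, size a ≤ A * Z ^ (M * θ) ∧ val a ≤ Z ^ (-σ)) →
      S.card ≤ r ∧ ∀ a ∈ S, ∀ b ∈ S, idx a = idx b → a = b := by
    intro Z hZ S hS
    have hZ1 : 1 < Z := lt_of_lt_of_le hK₁1 hZ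
    have hZ0 : 0 < Z := by linarith
    have hH : 1 ≤ A * Z ^ (M * θ) := by
      have : 1 ≤ Z ^ (M * θ) := Real.one_le_rpow hZ1.le (by positivity)
      nlinarith
    constructor
    · by_contra hcon
      push Not at hcon
      obtain ⟨T, hTS, hT⟩ := Finset.exists_subset_card_eq (Nat.succ_le_of_lt hcon)
      obtain ⟨a, ha, h1⟩ := hfew T hT _ hH (fun a ha => (hS a (hTS ha)).1)
      have h2 := (hS a (hTS ha)).2
      have h3 := hnum Z hZ
      linarith
    · intro a ha b hb hab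
      by_contra hne
      have h1 := hpair a b hab hne _ hH (hS a ha).1 (hS b hb).1
      have h2 := max_le (hS a ha).2 (hS b hb).2
      have h3 := hnum Z hZ
      linarith
  have hpow : ∀ X : ℝ, 1 < X → A * X ^ θ ≤ A * X ^ (M * θ) := by
    intro X hX
    refine mul_le_mul_of_nonneg_left ?_ hA0.le
    exact Real.rpow_le_rpow_of_exponent_le hX.le (by nlinarith)
  -- the objects of a set of near indices
  have objs : ∀ X ≥ K₁, ∀ s : Finset ι, (∀ i ∈ s, near X i) → ∃ S : Finset α, S.card = s.card ∧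
      (∀ a ∈ S, idx a ∈ s ∧ size a ≤ A * X ^ θ ∧ val a ≤ X ^ (-σ)) ∧ ∀ i ∈ s, ∃ a ∈ S, idx a = i := by
    intro X hX s hs
    have hX1 : 1 < X := lt_of_lt_of_le hK₁1 hX
    have h1 : ∀ i : s, ∃ a, idx a = i ∧ size a ≤ A * X ^ θ ∧ val a ≤ X ^ (-σ) := fun i =>
      hnear X hX1 i (hs i i.2)
    choose f hf using h1
    have hinj : Function.Injective f := fun i j hij => by
      refine Subtype.ext ?_
      rw [← (hf i).1, ← (hf j).1, hij]
    refine ⟨s.attach.image f, ?_, ?_, ?_⟩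
    · rw [Finset.card_image_of_injective _ hinj, Finset.card_attach]
    · intro a ha
      obtain ⟨i, -, rfl⟩ := Finset.mem_image.1 ha
      exact ⟨by rw [(hf i).1]; exact i.2, (hf i).2⟩
    · intro i hi
      exact ⟨f ⟨i, hi⟩, Finset.mem_image_of_mem _ (Finset.mem_attach _ _), (hf ⟨i, hi⟩).1⟩
  have excl : ∀ X ≥ K₁, ∀ s : Finset ι, (∀ i ∈ s, near X i) → s.card ≤ r := by
    intro X hX s hs
    have hX1 : 1 < X := lt_of_lt_of_le hK₁1 hX
    obtain ⟨S, hS, h1, -⟩ := objs X hX s hs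
    rw [← hS]
    exact (few X hX S fun a ha => ⟨(h1 a ha).2.1.trans (hpow X hX1), (h1 a ha).2.2⟩).1
  have hgs : ∀ s : Finset ι, (∀ i ∈ s, good i) → ∃ K : ℝ, ∀ X ≥ K, ∀ i ∈ s, near X i := by
    intro s hs
    have h1 : ∀ i : s, ∃ K : ℝ, ∀ X ≥ K, near X i := fun i => hgn i (hs i i.2)
    choose K hK using h1
    obtain ⟨B, hB⟩ := (Set.finite_range K).bddAbove
    exact ⟨B, fun X hX i hi => hK ⟨i, hi⟩ X ((hB ⟨⟨i, hi⟩, rfl⟩).trans hX)⟩
  have good_le : ∀ s : Finset ι, (∀ i ∈ s, good i) → s.card ≤ r := by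
    intro s hs
    obtain ⟨K, hK⟩ := hgs s hs
    exact excl (max K₁ K) (le_max_left _ _) s (hK _ (le_max_right _ _))
  have good_case : ∀ s : Finset ι, (∀ i ∈ s, good i) → s.card = r → ∃ K : ℝ, ∀ X ≥ K, ∀ i, near X i ↔ i ∈ s := by
    intro s hs hcard
    obtain ⟨K, hK⟩ := hgs s hs
    refine ⟨max K₁ K, fun X hX i => ⟨fun hi => ?_, fun hi => hK X ((le_max_right _ _).trans hX) i hi⟩⟩
    by_contra hne
    have h1 := excl X ((le_max_left _ _).trans hX) (insert i s) (fun j hj => by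
      rcases Finset.mem_insert.1 hj with rfl | hj
      · exact hi
      · exact hK X ((le_max_right _ _).trans hX) j hj)
    rw [Finset.card_insert_of_notMem hne] at h1
    omega
  -- the void case
  have void_case : (∀ s : Finset ι, (∀ i ∈ s, good i) → s.card < r) → ∀ X ≥ K₁, ∀ s : Finset ι,
      (∀ i ∈ s, near X i) → s.card = r → ∃ Z ≥ X,
        (∀ Y, X ≤ Y → Y ≤ Z → ∀ j, near Y j → j ∈ s) ∧
        ∀ Y, Z < Y → Y ≤ Z ^ M → ∀ s' : Finset ι, (∀ i ∈ s', near Y i) → s'.card < r := by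
    intro hng X hX s hs hcard
    have hX1 : 1 < X := lt_of_lt_of_le hK₁1 hX
    have hX0 : 0 < X := by linarith
    obtain ⟨S, hS, h1, h1'⟩ := objs X hX s hs
    have hSne : S.Nonempty := by
      rw [← Finset.card_pos]
      omega
    obtain ⟨a, haS, hamax⟩ := Finset.exists_max_image S val hSne
    have hva0 : 0 < val a := by
      refine lt_of_le_of_ne (hv a) fun h0 => ?_
      refine absurd (hng s fun i hi => ?_) (by omega)
      obtain ⟨b, hb, rfl⟩ := h1' i hi
      refine (hgood _).2 ⟨b, rfl, le_antisymm ?_ (hv b)⟩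
      rw [h0]
      exact hamax b hb
    have hva := (h1 a haS).2.2
    obtain ⟨Z, hZ⟩ : ∃ Z : ℝ, Z = val a ^ (-(1 / σ)) := ⟨_, rfl⟩
    have hZ0 : 0 < Z := by rw [hZ]; positivity
    have hZσ : Z ^ (-σ) = val a := by
      rw [hZ, ← Real.rpow_mul hva0.le]
      have : -(1 / σ) * -σ = 1 := by field_simp
      rw [this, Real.rpow_one]
    have hXZ : X ≤ Z := by
      by_contra hcon
      push Not at hcon
      have h3 : X ^ (-σ) < Z ^ (-σ) := Real.rpow_lt_rpow_of_neg hZ0 hcon (by linarith)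
      rw [hZσ] at h3
      linarith
    have hZ1 : 1 < Z := lt_of_lt_of_le hX1 hXZ
    refine ⟨Z, hXZ, ?_, ?_⟩
    · intro Y hXY hYZ j hj
      have hY0 : 0 < Y := by linarith
      have hY1 : 1 < Y := by linarith
      obtain ⟨b, rfl, hb, hvb⟩ := hnear Y hY1 j hj
      have h3 : X ^ θ ≤ Y ^ θ := by gcongr
      have h4 : val a ≤ Y ^ (-σ) := by
        rw [← hZσ]
        exact Real.rpow_le_rpow_of_nonpos hY0 hYZ (by linarith)
      obtain ⟨h5, h6⟩ := few Y (hX.trans hXY) (insert b S) (fun c hc => by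
        rcases Finset.mem_insert.1 hc with rfl | hc
        · exact ⟨hb.trans (hpow Y hY1), hvb⟩
        · exact ⟨((h1 c hc).2.1.trans (by gcongr)).trans (hpow Y hY1), (hamax c hc).trans h4⟩)
      by_cases hbS : b ∈ S
      · exact (h1 b hbS).1
      · rw [Finset.card_insert_of_notMem hbS] at h5
        omega
    · intro Y hZY hYM s' hs'
      have hY0 : 0 < Y := by linarith
      have hY1 : 1 < Y := by linarith
      have hYK : K₁ ≤ Y := by linarith
      obtain ⟨S', hS', h2, -⟩ := objs Y hYK s' hs'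
      have h3 : ∀ b ∈ S', val b < val a := by
        intro b hb
        rw [← hZσ]
        exact lt_of_le_of_lt (h2 b hb).2.2 (Real.rpow_lt_rpow_of_neg hZ0 hZY (by linarith))
      have haS' : a ∉ S' := fun h => lt_irrefl _ (h3 a h)
      obtain ⟨h5, -⟩ := few Z (hX.trans hXZ) (insert a S') (fun c hc => by
        rcases Finset.mem_insert.1 hc with rfl | hc
        · refine ⟨((h1 c haS).2.1.trans ?_).trans (hpow Z hZ1), hZσ.symm.le⟩
          gcongr
        · refine ⟨(h2 c hc).2.1.trans ?_, by rw [hZσ]; exact (h3 c hc).le⟩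
          rw [Real.rpow_mul hZ0.le]
          gcongr)
      rw [Finset.card_insert_of_notMem haS'] at h5
      omega
  have voids : (∀ s : Finset ι, (∀ i ∈ s, good i) → s.card < r) → ∀ K : ℝ, ∃ Z ≥ K, ∀ Y, Z < Y → Y ≤ Z ^ M →
      ∀ s' : Finset ι, (∀ i ∈ s', near Y i) → s'.card < r := by
    intro hng K
    by_cases hex : ∃ X ≥ max K K₁, ∃ s : Finset ι, (∀ i ∈ s, near X i) ∧ s.card = r
    · obtain ⟨X, hX, s, hs, hcard⟩ := hex
      obtain ⟨Z, hXZ, _, hZ⟩ := void_case hng X ((le_max_right _ _).trans hX) s hs hcard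
      exact ⟨Z, ((le_max_left _ _).trans hX).trans hXZ, hZ⟩
    · push Not at hex
      refine ⟨max K K₁, le_max_left _ _, fun Y hY _ s' hs' => ?_⟩
      by_contra hcon
      push Not at hcon
      obtain ⟨T, hTS, hT⟩ := Finset.exists_subset_card_eq hcon
      exact hex Y hY.le T (fun i hi => hs' i (hTS hi)) hT
  refine ⟨⟨K₁, excl⟩, good_le, good_case, fun hng => ⟨_, void_case hng⟩, voids, ?_⟩
  constructor
  · rintro ⟨s, hs, hg⟩
    obtain ⟨K, hK⟩ := hgs s hg
    exact ⟨K, fun X hX => ⟨s, hs, hK X hX⟩⟩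
  · rintro ⟨K, hK⟩
    by_contra hcon
    push Not at hcon
    have hng : ∀ s : Finset ι, (∀ i ∈ s, good i) → s.card < r := by
      intro s hs
      by_contra hlt
      push Not at hlt
      obtain ⟨T, hTS, hT⟩ := Finset.exists_subset_card_eq hlt
      obtain ⟨i, hi, hgi⟩ := hcon T hT
      exact hgi (hs i (hTS hi))
    obtain ⟨Z, hZ, hZv⟩ := voids hng (max K 2)
    have hZ2 : 2 ≤ Z := (le_max_right _ _).trans hZ
    have h3 : Z < Z ^ M := by
      conv_lhs => rw [← Real.rpow_one Z]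
      exact Real.rpow_lt_rpow_of_exponent_lt (by linarith) hM1
    obtain ⟨s, hs, hn⟩ := hK (Z ^ M) (((le_max_left _ _).trans hZ).trans h3.le)
    have := hZv (Z ^ M) h3 le_rfl s hn
    omega

end Pool.Agent.N743
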