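import Pool.Agent.N743.Engine

/-!
# The scale dichotomy: a version with uniform constants
-/

set_option autoImplicit false

namespace Pool.Agent.N743

/-- the object `a` is seen at the scale `X` -/
def Seen {α : Type} (size val : α → ℝ) (A θ σ X : ℝ) (a : α) : Prop :=
  size a ≤ A * X ^ θ ∧ val a ≤ X ^ (-σ)

theorem engineU (κ C A θ σ M : ℝ) (hκ : 0 < κ) (hC : 0 < C) (hA : 1 ≤ A) (hθ : 0 < θ) (hσ : 0 < σ)
    (hM : (M + 1) * (θ * κ) < σ) (hM1 : 1 < M) : ∃ K : ℝ, 1 < K ∧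
    ∀ (α : Type) (size val : α → ℝ), (∀ a, 1 ≤ size a) → (∀ a, 0 ≤ val a) →
    (∀ a b, a ≠ b → C * (size a * size b) ^ (-κ) ≤ max (val a) (val b)) →
    (∀ X ≥ K, ∀ a b, Seen size val A θ σ X a → Seen size val A θ σ X b → a = b) ∧
    (∀ X ≥ K, ∀ a, Seen size val A θ σ X a → 0 < val a → X ≤ val a ^ (-(1 / σ)) ∧
      ∀ Y, val a ^ (-(1 / σ)) < Y → Y ≤ (val a ^ (-(1 / σ))) ^ M →
        ∀ b, ¬ Seen size val A θ σ Y b) ∧
    (∀ Y Z, K ≤ Y → Y ≤ Z → (∀ X, Y ≤ X → X ≤ Z → ∃ a, Seen size val A θ σ X a) →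
      ∃ a, ∀ X, Y ≤ X → X ≤ Z → Seen size val A θ σ X a) := by
  have hA0 : 0 < A := by linarith
  have hθκ : 0 < θ * κ := by positivity
  have h2 : 2 * (θ * κ) < σ := by nlinarith
  obtain ⟨K₁, hK₁1, hK₁⟩ := large_scale (σ - 2 * (θ * κ)) (A ^ (2 * κ) / C) (by linarith)
  obtain ⟨K₄, hK₄1, hK₄⟩ := large_scale (σ - (M + 1) * (θ * κ)) (A ^ (2 * κ) / C) (by linarith)
  have hA2 : (A * A) ^ κ = A ^ (2 * κ) := by
    rw [Real.mul_rpow hA0.le hA0.le, ← Real.rpow_add hA0]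
    congr 1
    ring
  refine ⟨max K₁ K₄, lt_max_of_lt_left hK₁1, fun α size val hs hv hmain => ?_⟩
  have same : ∀ Y ≥ max K₁ K₄, ∀ a b, Seen size val A θ σ Y a → Seen size val A θ σ Y b →
      a = b := by
    rintro Y hY a b ⟨ha, hva⟩ ⟨hb, hvb⟩
    by_contra hne
    have hYK : K₁ ≤ Y := (le_max_left _ _).trans hY
    have hY1 : 1 < Y := lt_of_lt_of_le hK₁1 hYK
    have hY0 : 0 < Y := by linarith
    have h3 := hmain a b hne
    have h4 : C * (size a * size b) ^ (-κ) ≤ Y ^ (-σ) := h3.trans (max_le hva hvb)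
    have hsa := hs a
    have hsb := hs b
    have hab : 0 < size a * size b := by positivity
    have h5 : size a * size b ≤ (A * A) * Y ^ (2 * θ) := by
      have h6 : Y ^ (2 * θ) = Y ^ θ * Y ^ θ := by
        rw [← Real.rpow_add hY0]
        congr 1
        ring
      rw [h6]
      calc size a * size b ≤ (A * Y ^ θ) * (A * Y ^ θ) := by gcongr
        _ = _ := by ring
    have h6 : (size a * size b) ^ κ ≤ A ^ (2 * κ) * Y ^ (2 * (θ * κ)) := by
      calc (size a * size b) ^ κ ≤ ((A * A) * Y ^ (2 * θ)) ^ κ := by gcongr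
        _ = _ := by
          rw [Real.mul_rpow (by positivity) (by positivity), hA2, ← Real.rpow_mul hY0.le]
          congr 2
          ring
    have h7 : (size a * size b) ^ (-κ) * (size a * size b) ^ κ = 1 := by
      rw [← Real.rpow_add hab]; simp
    have h8 : C ≤ Y ^ (-σ) * (A ^ (2 * κ) * Y ^ (2 * (θ * κ))) := by
      calc C = (C * (size a * size b) ^ (-κ)) * (size a * size b) ^ κ := by
            rw [mul_assoc, h7, mul_one]
        _ ≤ Y ^ (-σ) * (A ^ (2 * κ) * Y ^ (2 * (θ * κ))) := by gcongr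
    have h9 : Y ^ (σ - 2 * (θ * κ)) * (Y ^ (-σ) * Y ^ (2 * (θ * κ))) = 1 := by
      rw [← Real.rpow_add hY0, ← Real.rpow_add hY0]
      have : σ - 2 * (θ * κ) + (-σ + 2 * (θ * κ)) = 0 := by ring
      rw [this, Real.rpow_zero]
    have h10 : C * Y ^ (σ - 2 * (θ * κ)) ≤ A ^ (2 * κ) := by
      calc C * Y ^ (σ - 2 * (θ * κ)) ≤ (Y ^ (-σ) * (A ^ (2 * κ) * Y ^ (2 * (θ * κ)))) *
            Y ^ (σ - 2 * (θ * κ)) := by gcongr
        _ = A ^ (2 * κ) * (Y ^ (σ - 2 * (θ * κ)) * (Y ^ (-σ) * Y ^ (2 * (θ * κ)))) := by ring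
        _ = _ := by rw [h9, mul_one]
    have h11 := hK₁ Y hYK
    rw [div_lt_iff₀ hC] at h11
    linarith
  have void : ∀ X ≥ max K₁ K₄, ∀ a, Seen size val A θ σ X a → 0 < val a → X ≤ val a ^ (-(1 / σ)) ∧
      ∀ Y, val a ^ (-(1 / σ)) < Y → Y ≤ (val a ^ (-(1 / σ))) ^ M →
        ∀ b, ¬ Seen size val A θ σ Y b := by
    rintro X hX a ⟨ha, hva⟩ hva0
    have hXK₁ : K₁ ≤ X := (le_max_left _ _).trans hX
    have hXK₄ : K₄ ≤ X := (le_max_right _ _).trans hX
    have hX1 : 1 < X := lt_of_lt_of_le hK₁1 hXK₁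
    have hX0 : 0 < X := by linarith
    obtain ⟨Z, hZ⟩ : ∃ Z : ℝ, Z = val a ^ (-(1 / σ)) := ⟨_, rfl⟩
    rw [← hZ]
    have hZ0 : 0 < Z := by rw [hZ]; positivity
    have hZσ : Z ^ (-σ) = val a := by
      rw [hZ, ← Real.rpow_mul hva0.le]
      have : -(1 / σ) * -σ = 1 := by field_simp
      rw [this, Real.rpow_one]
    have hXZ : X ≤ Z := by
      by_contra hcon
      push Not at hcon
      have h3 : X ^ (-σ) < Z ^ (-σ) := Real.rpow_lt_rpow_of_neg hZ0 hcon (by linarith)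
      rw [hZσ] at h3
      linarith
    refine ⟨hXZ, ?_⟩
    rintro Y hZY hYM b ⟨hb, hvb⟩
    have hY0 : 0 < Y := by linarith
    have h3 : val b < val a := by
      rw [← hZσ]
      exact lt_of_le_of_lt hvb (Real.rpow_lt_rpow_of_neg hZ0 hZY (by linarith))
    have hne : a ≠ b := by
      rintro rfl
      exact lt_irrefl _ h3
    have h4 := hmain a b hne
    rw [max_eq_left h3.le, ← hZσ] at h4
    have hsa := hs a
    have hsb := hs b
    have hab : 0 < size a * size b := by positivity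
    have h5 : size a * size b ≤ (A * A) * Z ^ ((M + 1) * θ) := by
      have h6 : Z ^ ((M + 1) * θ) = Z ^ θ * (Z ^ M) ^ θ := by
        rw [← Real.rpow_mul hZ0.le, ← Real.rpow_add hZ0]
        congr 1
        ring
      rw [h6]
      calc size a * size b ≤ (A * X ^ θ) * (A * Y ^ θ) := by gcongr
        _ ≤ (A * Z ^ θ) * (A * (Z ^ M) ^ θ) := by gcongr
        _ = _ := by ring
    have h6 : (size a * size b) ^ κ ≤ A ^ (2 * κ) * Z ^ ((M + 1) * (θ * κ)) := by
      calc (size a * size b) ^ κ ≤ ((A * A) * Z ^ ((M + 1) * θ)) ^ κ := by gcongr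
        _ = _ := by
          rw [Real.mul_rpow (by positivity) (by positivity), hA2, ← Real.rpow_mul hZ0.le]
          congr 2
          ring
    have h7 : (size a * size b) ^ (-κ) * (size a * size b) ^ κ = 1 := by
      rw [← Real.rpow_add hab]; simp
    have h8 : C ≤ Z ^ (-σ) * (A ^ (2 * κ) * Z ^ ((M + 1) * (θ * κ))) := by
      calc C = (C * (size a * size b) ^ (-κ)) * (size a * size b) ^ κ := by
            rw [mul_assoc, h7, mul_one]
        _ ≤ Z ^ (-σ) * (A ^ (2 * κ) * Z ^ ((M + 1) * (θ * κ))) := by gcongr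
    have h9 : Z ^ (σ - (M + 1) * (θ * κ)) * (Z ^ (-σ) * Z ^ ((M + 1) * (θ * κ))) = 1 := by
      rw [← Real.rpow_add hZ0, ← Real.rpow_add hZ0]
      have : σ - (M + 1) * (θ * κ) + (-σ + (M + 1) * (θ * κ)) = 0 := by ring
      rw [this, Real.rpow_zero]
    have h10 : C * Z ^ (σ - (M + 1) * (θ * κ)) ≤ A ^ (2 * κ) := by
      calc C * Z ^ (σ - (M + 1) * (θ * κ)) ≤ (Z ^ (-σ) * (A ^ (2 * κ) *
            Z ^ ((M + 1) * (θ * κ)))) * Z ^ (σ - (M + 1) * (θ * κ)) := by gcongr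
        _ = A ^ (2 * κ) * (Z ^ (σ - (M + 1) * (θ * κ)) *
            (Z ^ (-σ) * Z ^ ((M + 1) * (θ * κ)))) := by ring
        _ = _ := by rw [h9, mul_one]
    have h11 := hK₄ Z (hXK₄.trans hXZ)
    rw [div_lt_iff₀ hC] at h11
    linarith
  refine ⟨same, void, fun Y Z hY hYZ hnear => ?_⟩
  have hY1 : 1 < Y := lt_of_lt_of_le (lt_max_of_lt_left hK₁1) hY
  obtain ⟨a, ha⟩ := hnear Y le_rfl hYZ
  have hZ0 : 0 < Z := by linarith
  -- the value at the end of the interval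
  have hend : val a ≤ Z ^ (-σ) := by
    rcases eq_or_lt_of_le (hv a) with h0 | h0
    · rw [← h0]; positivity
    · obtain ⟨h3, h4⟩ := void Y hY a ha h0
      obtain ⟨W, hW⟩ : ∃ W : ℝ, W = val a ^ (-(1 / σ)) := ⟨_, rfl⟩
      rw [← hW] at h3 h4
      have hW0 : 0 < W := by linarith
      have hWσ : W ^ (-σ) = val a := by
        rw [hW, ← Real.rpow_mul h0.le]
        have : -(1 / σ) * -σ = 1 := by field_simp
        rw [this, Real.rpow_one]
      by_contra hcon
      push Not at hcon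
      have hWZ : W < Z := by
        by_contra hcon2
        push Not at hcon2
        have h5 : W ^ (-σ) ≤ Z ^ (-σ) := Real.rpow_le_rpow_of_nonpos hZ0 hcon2 (by linarith)
        rw [hWσ] at h5
        linarith
      have hWM : W < W ^ M := by
        conv_lhs => rw [← Real.rpow_one W]
        exact Real.rpow_lt_rpow_of_exponent_lt (by linarith) hM1
      obtain ⟨b, hb⟩ := hnear (min Z (W ^ M)) (le_min hYZ (h3.trans hWM.le)) (min_le_left _ _)
      exact h4 _ (lt_min hWZ hWM) (min_le_right _ _) b hb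
  refine ⟨a, fun X hYX hXZ => ⟨ha.1.trans ?_, hend.trans ?_⟩⟩
  · gcongr
  · exact Real.rpow_le_rpow_of_nonpos (by linarith) hXZ (by linarith)

end Pool.Agent.N743
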