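import Pool.Agent.N743.BivR
import Pool.Agent.N778.EM.FinalQ

/-!
# Joint measures: polynomials in two variables in two notations
-/

set_option autoImplicit false

namespace Pool.Agent.N743

open Polynomial Finset
open Pool.Agent.TH456.TM Pool.Agent.R356

/-- the polynomial with outer variable `X 0` and inner variable `X 1` -/
noncomputable def toMv (D : ℕ) (P : ℤ[X][X]) : MvPolynomial (Fin 2) ℤ :=
  ∑ j ∈ range (D + 1), ∑ k ∈ range (D + 1),
    MvPolynomial.monomial (Finsupp.single 0 j + Finsupp.single 1 k) ((P.coeff j).coeff k)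

lemma expo_eq (j k : ℕ) (s : Fin 2 →₀ ℕ) : Finsupp.single 0 j + Finsupp.single 1 k = s ↔ j = s 0 ∧ k = s 1 := by
  constructor
  · rintro rfl
    simp
  · rintro ⟨rfl, rfl⟩
    ext i
    fin_cases i <;> simp

lemma coeff_toMv (D : ℕ) (P : ℤ[X][X]) (s : Fin 2 →₀ ℕ) : (toMv D P).coeff s =
    if s 0 ≤ D ∧ s 1 ≤ D then (P.coeff (s 0)).coeff (s 1) else 0 := by
  classical
  rw [toMv, MvPolynomial.coeff_sum]
  simp only [MvPolynomial.coeff_sum, MvPolynomial.coeff_monomial, expo_eq]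
  by_cases h : s 0 ≤ D ∧ s 1 ≤ D
  · rw [if_pos h, Finset.sum_eq_single_of_mem (s 0) (Finset.mem_range.2 (by omega)), Finset.sum_eq_single_of_mem (s 1)
      (Finset.mem_range.2 (by omega)), if_pos ⟨rfl, rfl⟩]
    · intro k _ hk
      rw [if_neg (fun h => hk h.2)]
    · intro j _ hj
      exact Finset.sum_eq_zero fun k _ => if_neg (fun h => hj h.1)
  · rw [if_neg h]
    refine Finset.sum_eq_zero fun j hj => Finset.sum_eq_zero fun k hk => if_neg ?_
    rintro ⟨rfl, rfl⟩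
    rw [Finset.mem_range] at hj hk
    exact h ⟨by omega, by omega⟩

lemma toMv_ne_zero (D : ℕ) (P : ℤ[X][X]) (h0 : P ≠ 0) (hd : P.natDegree ≤ D) (hdx : ∀ j, (P.coeff j).natDegree ≤ D) :
    toMv D P ≠ 0 := by
  intro h
  apply h0
  ext j k
  rw [coeff_zero, coeff_zero]
  by_cases hj : j ≤ D
  · by_cases hk : k ≤ D
    · have h1 := coeff_toMv D P (Finsupp.single 0 j + Finsupp.single 1 k)
      rw [h, MvPolynomial.coeff_zero] at h1
      simp only [Finsupp.add_apply, Finsupp.single_eq_same] at h1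
      simp [hj, hk] at h1
      exact h1.symm
    · rw [coeff_eq_zero_of_natDegree_lt (lt_of_le_of_lt (hdx j) (by omega))]
  · rw [coeff_eq_zero_of_natDegree_lt (lt_of_le_of_lt hd (by omega)), coeff_zero]

lemma totalDegree_toMv (D : ℕ) (P : ℤ[X][X]) : (toMv D P).totalDegree ≤ 2 * D := by
  rw [MvPolynomial.totalDegree]
  refine Finset.sup_le fun s hs => ?_
  rw [MvPolynomial.mem_support_iff, coeff_toMv] at hs
  have h1 : s 0 ≤ D ∧ s 1 ≤ D := by
    by_contra h
    rw [if_neg h] at hs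
    exact hs rfl
  rw [Finsupp.sum_fintype _ _ (fun _ => rfl), Fin.sum_univ_two]
  omega

lemma aeval_toMv (D : ℕ) (P : ℤ[X][X]) (hd : P.natDegree ≤ D) (hdx : ∀ j, (P.coeff j).natDegree ≤ D) (u x : ℝ) :
    ((MvPolynomial.aeval (Fin.cons u (fun _ : Fin 1 => x) : Fin 2 → ℝ) (toMv D P) : ℝ) : ℂ) =
      aevalAeval (x : ℂ) (u : ℂ) P := by
  rw [← vl_eq, vl, eval_eq_sum_range' (lt_of_le_of_lt (natDegree_map_le.trans hd) (Nat.lt_succ_self D)), toMv, map_sum,
    Complex.ofReal_sum]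
  refine Finset.sum_congr rfl fun j _ => ?_
  rw [coeff_map, map_sum, Complex.ofReal_sum]
  have h1 : σx (x : ℂ) (P.coeff j) = ∑ k ∈ range (D + 1), ((P.coeff j).coeff k : ℂ) * (x : ℂ) ^ k := by
    have h2 : σx (x : ℂ) (P.coeff j) = aeval (x : ℂ) (P.coeff j) := by simp [σx]
    rw [h2, aeval_eq_sum_range' (lt_of_le_of_lt (hdx j) (Nat.lt_succ_self D))]
    refine Finset.sum_congr rfl fun k _ => ?_
    simp
  rw [h1, Finset.sum_mul]
  refine Finset.sum_congr rfl fun k _ => ?_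
  rw [MvPolynomial.aeval_monomial, Finsupp.prod_fintype _ _ (fun _ => pow_zero _), Fin.prod_univ_two]
  have e0 : (Fin.cons u (fun _ : Fin 1 => x) : Fin 2 → ℝ) 0 = u := rfl
  have e1 : (Fin.cons u (fun _ : Fin 1 => x) : Fin 2 → ℝ) 1 = x := rfl
  have e2 : (Finsupp.single 0 j + Finsupp.single 1 k : Fin 2 →₀ ℕ) 0 = j := by simp
  have e3 : (Finsupp.single 0 j + Finsupp.single 1 k : Fin 2 →₀ ℕ) 1 = k := by simp
  rw [e0, e1, e2, e3]
  push_cast
  simp
  ring

theorem jointFam_of {ν : Type} {v : ν → ℝ} {x : ℝ} (h : Pool.Agent.N778.EM.Joint (fun _ : Fin 1 => x) v) :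
    JointFam (x : ℂ) (fun i => (v i : ℂ)) := by
  intro D
  obtain ⟨κ, c, hc, h1⟩ := h (2 * D)
  refine ⟨(κ : ℝ) + 1, c, by positivity, hc, fun P hP H hH hPH => ?_⟩
  obtain ⟨i, hi⟩ := h1 (fun i => toMv D (P i)) (fun i => toMv_ne_zero D _ (hP i).1 (hP i).2.1 (hP i).2.2)
    (fun i => totalDegree_toMv D _) H hH (fun i s => by
      rw [coeff_toMv]
      split_ifs
      · exact hPH i _ _
      · simp only [Int.cast_zero, abs_zero]; linarith)
  refine ⟨i, ?_⟩
  have h2 := aeval_toMv D (P i) (hP i).2.1 (hP i).2.2 (v i) x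
  rw [← h2, Complex.norm_real, Real.norm_eq_abs]
  have hH0 : 0 < H := by linarith
  have h3 : H ^ (-((κ : ℝ) + 1)) * H ^ κ ≤ 1 := by
    rw [← Real.rpow_natCast H κ, ← Real.rpow_add hH0]
    exact Real.rpow_le_one_of_one_le_of_nonpos hH (by linarith)
  have h4 : 0 < H ^ (-((κ : ℝ) + 1)) := by positivity
  calc c * H ^ (-((κ : ℝ) + 1)) ≤ (H ^ κ * |_|) * H ^ (-((κ : ℝ) + 1)) := by gcongr
    _ = (H ^ (-((κ : ℝ) + 1)) * H ^ κ) * |_| := by ring
    _ ≤ 1 * |_| := by gcongr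
    _ = _ := one_mul _

end Pool.Agent.N743
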