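import Pool.Agent.R532.Nc4
import Pool.Agent.TH709.NC.Lines
import Pool.Agent.TH456.TM.Fam

/-!
# Near-coincidences for several pairs of bases at once
-/

set_option autoImplicit false

namespace Pool.Agent.N743.Nc

open Real Pool.Agent.R532.Nc Pool.Agent.R356
open Pool.Agent.TH709.NC (LL LL_fin gaps)

/-- iterated exponentials, beginning with `y` -/
noncomputable def iter (κ y : ℝ) : ℕ → ℝ
  | 0 => y
  | h + 1 => exp (κ * iter κ y h)

lemma iter_mono {κ : ℝ} (hκ : 0 < κ) {y y' : ℝ} (hy : y ≤ y') (h : ℕ) : iter κ y h ≤ iter κ y' h := by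
  induction h with
  | zero => exact hy
  | succ h ih => exact exp_le_exp.2 (mul_le_mul_of_nonneg_left ih hκ.le)

/-- the asymptotic formula at `x` for all `T` from `C log x` up to `Y` -/
def Upto (C a b x Y : ℝ) : Prop :=
  ∀ T : ℝ, C * log x ≤ T → T < Y → (pairsUpTo a b 1 x T).Finite ∧
    |(((pairsUpTo a b 1 x T).ncard : ℕ) : ℝ) - log x ^ 2 / (log a * log b)| ≤ C * log x

section

variable {ι : Type} [Fintype ι] {a b : ι → ℝ}

/-- near misses for different pairs of bases repel each other -/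
theorem repel_all (ha : ∀ i, 1 < a i) (hb : ∀ i, 1 < b i)
    (hJ : ∀ i j, i ≠ j → JointR (log (a i) / log (b i)) (log (a j) / log (b j))) :
    ∃ κ : ℝ, 0 < κ ∧ ∃ N : ℕ, ∀ i j, i ≠ j → ∀ n m n' m' : ℕ, N ≤ n → N ≤ n' →
      (n, m) ∈ nearMisses (a i) (b i) 1 → (n', m') ∈ nearMisses (a j) (b j) 1 →
      exp (κ * min (n : ℝ) n') ≤ max (n : ℝ) n' := by
  classical
  have h1 : ∀ p : ι × ι, ∃ κ : ℝ, 0 < κ ∧ ∃ N : ℝ, p.1 ≠ p.2 → ∀ n m n' m' : ℕ, N ≤ n → N ≤ n' →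
      (n, m) ∈ nearMisses (a p.1) (b p.1) 1 → (n', m') ∈ nearMisses (a p.2) (b p.2) 1 →
      exp (κ * min (n : ℝ) n') ≤ max (n : ℝ) n' := by
    intro p
    by_cases hp : p.1 = p.2
    · exact ⟨1, one_pos, 0, fun h => absurd hp h⟩
    · obtain ⟨κ, hκ, N, hN⟩ := repel (ha p.1) (hb p.1) (ha p.2) (hb p.2) (hJ _ _ hp)
      exact ⟨κ, hκ, N, fun _ => hN⟩
  choose κ hκ N hN using h1
  obtain ⟨κ₀, hκ₀, hle⟩ := Pool.Agent.TH456.TM.exists_pos_le (Finset.univ : Finset (ι × ι)) κ (fun p _ => hκ p)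
  obtain ⟨N₀, hN₀, hle2⟩ := Pool.Agent.TH456.TM.exists_le_ge (Finset.univ : Finset (ι × ι)) N
  refine ⟨κ₀, hκ₀, ⌈N₀⌉₊, fun i j hij n m n' m' hn hn' h h' => ?_⟩
  have h2 : N₀ ≤ (⌈N₀⌉₊ : ℝ) := Nat.le_ceil _
  have h3 : (⌈N₀⌉₊ : ℝ) ≤ n := by exact_mod_cast hn
  have h4 : (⌈N₀⌉₊ : ℝ) ≤ n' := by exact_mod_cast hn'
  have h5 := hle2 (i, j) (Finset.mem_univ _)
  refine le_trans ?_ (hN (i, j) hij n m n' m' (by linarith) (by linarith) h h')
  refine exp_le_exp.2 (mul_le_mul_of_nonneg_right (hle (i, j) (Finset.mem_univ _)) ?_)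
  exact le_min (Nat.cast_nonneg _) (Nat.cast_nonneg _)

/-- a chain of near misses for different pairs of bases -/
lemma chain_all {κ y : ℝ} (hκ : 0 < κ) (n : ι → ℕ)
    (hsep : ∀ i j, i ≠ j → y < n i → y < n j → exp (κ * min (n i : ℝ) (n j)) ≤ max (n i : ℝ) (n j)) :
    ∀ k : ℕ, ∀ F : Finset ι, (∀ i ∈ F, y < n i) → F.card = k + 1 → ∃ i ∈ F, iter κ y k ≤ n i := by
  classical
  intro k
  induction k with
  | zero =>
    intro F hF hcard
    obtain ⟨i, hi⟩ := Finset.card_pos.1 (by omega : 0 < F.card)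
    exact ⟨i, hi, (hF i hi).le⟩
  | succ k ih =>
    intro F hF hcard
    obtain ⟨i₀, hi₀, hmax⟩ := Finset.exists_max_image F n (Finset.card_pos.1 (by omega))
    obtain ⟨j, hj, hjn⟩ := ih (F.erase i₀) (fun i hi => hF i (Finset.mem_of_mem_erase hi)) (by
      rw [Finset.card_erase_of_mem hi₀]
      omega)
    refine ⟨i₀, hi₀, ?_⟩
    have hne : j ≠ i₀ := Finset.ne_of_mem_erase hj
    have hjF := Finset.mem_of_mem_erase hj
    have h1 : (n j : ℝ) ≤ n i₀ := by exact_mod_cast hmax j hjF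
    have h2 := hsep j i₀ hne (hF j hjF) (hF i₀ hi₀)
    rw [min_eq_left h1, max_eq_right h1] at h2
    refine le_trans ?_ h2
    exact exp_le_exp.2 (mul_le_mul_of_nonneg_left hjn hκ.le)

/-- **Up to an `h`-fold iterated exponential of `log x` the formula fails for at most `h` of the pairs.** -/
theorem few_fail (ha : ∀ i, 1 < a i) (hb : ∀ i, 1 < b i)
    (hJ : ∀ i j, i ≠ j → JointR (log (a i) / log (b i)) (log (a j) / log (b j))) :
    ∃ κ : ℝ, 0 < κ ∧ ∃ C : ℝ, 0 ≤ C ∧ ∀ C' ≥ C, ∀ x : ℝ, 2 ≤ x → ∀ h : ℕ,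
      {i | ¬ Upto C' (a i) (b i) x (iter κ (log x) h)}.ncard ≤ h := by
  classical
  obtain ⟨κ, hκ, N, hN⟩ := repel_all ha hb hJ
  have hlog2 : 0 < log 2 := log_pos (by norm_num)
  obtain ⟨K, hK⟩ : ∃ K : ℝ, K = N / log 2 + 1 := ⟨_, rfl⟩
  have hK1 : 1 ≤ K := by
    rw [hK]
    have : 0 ≤ (N : ℝ) / log 2 := by positivity
    linarith
  choose C' hC'0 hC' using fun i => good_of_gap (ha i) (hb i) K (by linarith)
  obtain ⟨C, hC, hCle⟩ := Pool.Agent.TH456.TM.exists_le_ge (Finset.univ : Finset ι) C'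
  refine ⟨κ, hκ, max C 1, by positivity, fun C₁ hC₁ x hx h => ?_⟩
  have hC₁C : C ≤ C₁ := (le_max_left _ _).trans hC₁
  have hC₁1 : 1 ≤ C₁ := (le_max_right _ _).trans hC₁
  have hlx : log 2 ≤ log x := log_le_log (by norm_num) hx
  have hlx0 : 0 < log x := by linarith
  have hx0 : 0 < x := by linarith
  by_contra hcon
  push Not at hcon
  obtain ⟨S, hS⟩ : ∃ S : Set ι, S = {i | ¬ Upto C₁ (a i) (b i) x (iter κ (log x) h)} := ⟨_, rfl⟩
  rw [← hS] at hcon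
  have hSf : S.Finite := Set.toFinite _
  rw [Set.ncard_eq_toFinset_card _ hSf] at hcon
  obtain ⟨F, hFS, hFc⟩ := Finset.exists_subset_card_eq (Nat.succ_le_of_lt hcon)
  -- near misses
  have hnear : ∀ i ∈ S, ∃ n m : ℕ, K * log x < n ∧ (n : ℝ) < iter κ (log x) h ∧
      (n, m) ∈ nearMisses (a i) (b i) 1 := by
    intro i hi
    by_contra hno
    push Not at hno
    rw [hS] at hi
    refine hi fun T hT hTY => ?_
    have hT0 : 0 < T := by nlinarith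
    have hxT : x ^ (log T / log x) = T := by
      rw [rpow_def_of_pos hx0, mul_div_cancel₀ _ hlx0.ne', exp_log hT0]
    have h1 := hC' i (log T / log x) x hx (fun n m hn hnx => by
      rw [hxT] at hnx
      exact hno n m hn (by linarith))
    have h2 : C' i ≤ C₁ := (hCle i (Finset.mem_univ _)).trans hC₁C
    obtain ⟨h3, h4⟩ := h1 T (le_trans (mul_le_mul_of_nonneg_right h2 hlx0.le) hT) hxT.ge
    exact ⟨h3, h4.trans (mul_le_mul_of_nonneg_right h2 hlx0.le)⟩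
  choose! n m hn1 hn2 hn3 using hnear
  have hF : ∀ i ∈ F, i ∈ S := fun i hi => by
    have := hFS hi
    rwa [Set.Finite.mem_toFinset] at this
  -- the chain
  obtain ⟨n', hn'⟩ : ∃ n' : ι → ℕ, n' = fun i => if i ∈ S then n i else 0 := ⟨_, rfl⟩
  have hKx : (N : ℝ) ≤ K * log x := by
    have h1 : (N : ℝ) / log 2 * log 2 ≤ N / log 2 * log x :=
      mul_le_mul_of_nonneg_left hlx (by positivity)
    rw [div_mul_cancel₀ _ hlog2.ne'] at h1
    rw [hK, add_mul, one_mul]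
    linarith
  have hpos : ∀ i, K * log x < n' i → i ∈ S ∧ n' i = n i := by
    intro i hi
    rw [hn'] at hi ⊢
    by_cases hiS : i ∈ S
    · exact ⟨hiS, if_pos hiS⟩
    · simp only [if_neg hiS, Nat.cast_zero] at hi
      have : 0 ≤ K * log x := by positivity
      linarith
  obtain ⟨i, hi, hin⟩ := chain_all hκ n' (y := K * log x) (fun i j hij h1 h2 => by
    obtain ⟨hiS, ei⟩ := hpos i h1
    obtain ⟨hjS, ej⟩ := hpos j h2
    rw [ei, ej]
    rw [ei] at h1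
    rw [ej] at h2
    have h3 : N ≤ n i := by exact_mod_cast hKx.trans h1.le
    have h4 : N ≤ n j := by exact_mod_cast hKx.trans h2.le
    exact hN i j hij (n i) (m i) (n j) (m j) h3 h4 (hn3 i hiS) (hn3 j hjS)) h F
    (fun i hi => by
      rw [hn']
      simp only [if_pos (hF i hi)]
      exact hn1 i (hF i hi)) hFc
  have h1 : n' i = n i := by
    rw [hn']
    simp only [if_pos (hF i hi)]
  rw [h1] at hin
  have h2 := hn2 i (hF i hi)
  have h3 : iter κ (log x) h ≤ iter κ (K * log x) h := iter_mono hκ (by nlinarith) h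
  linarith

/-- the primitive near misses of all the pairs of bases -/
def Lines (a b : ι → ℝ) (T : ℝ) : Set (ι × (ℕ × ℕ)) := {p | p.2 ∈ LL (a p.1) (b p.1) ∧ (p.2.1 : ℝ) ≤ T}

lemma lines_fin (ha : ∀ i, 1 < a i) (hb : ∀ i, 1 < b i) (T : ℝ) : (Lines a b T).Finite := by
  have h1 : Lines a b T ⊆ ⋃ i : ι, (fun l => (i, l)) '' {l | l ∈ LL (a i) (b i) ∧ l.1 ≤ ⌊T⌋₊} := by
    rintro ⟨i, l⟩ ⟨h1, h2⟩
    rw [Set.mem_iUnion]
    exact ⟨i, l, ⟨h1, Nat.le_floor h2⟩, rfl⟩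
  exact (Set.finite_iUnion fun i => (LL_fin (ha i) (hb i) _).image _).subset h1

/-- **All exceptional lines together are very few.** -/
theorem few_lines (ha : ∀ i, 1 < a i) (hb : ∀ i, 1 < b i)
    (hJ : ∀ i j, i ≠ j → JointR (log (a i) / log (b i)) (log (a j) / log (b j))) :
    ∃ C : ℝ, 0 ≤ C ∧ ∀ h : ℕ, ((Lines a b (tower h)).ncard : ℝ) ≤ h + C := by
  classical
  obtain ⟨κ₁, hκ₁, N₁, hN₁⟩ := repel_all ha hb hJ
  have h1 : ∀ i, ∃ κ : ℝ, 0 < κ ∧ ∃ N : ℝ, ∀ p ∈ LL (a i) (b i), ∀ q ∈ LL (a i) (b i), N ≤ p.1 → p ≠ q →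
      p.1 ≤ q.1 → exp (κ * p.1) ≤ q.1 := by
    intro i
    obtain ⟨n₀, lam, hn₀, hlam, hlam1, hln, g1, g2, g3⟩ := gaps (ha i) (hb i)
    have hlog2 : 0 < log 2 := log_pos (by norm_num)
    refine ⟨lam * log 2, by positivity, n₀, fun p hp q hq hnp hpq hle => ?_⟩
    have hnp' : n₀ ≤ p.1 := by exact_mod_cast hnp
    have hlt : p.1 < q.1 := lt_of_le_of_ne hle fun h => hpq (g1 p hp q hq hnp' h)
    have h2 := g3 p hp q hq hnp' hlt
    have h3 : (2 : ℝ) ^ (lam * (p.1 : ℝ)) = exp (lam * log 2 * p.1) := by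
      rw [rpow_def_of_pos (by norm_num)]
      congr 1
      ring
    rw [← h3]
    have h4 : (0 : ℝ) ≤ q.1 := Nat.cast_nonneg _
    nlinarith
  choose κ₂ hκ₂ N₂ hN₂ using h1
  obtain ⟨κ₃, hκ₃, hle3⟩ := Pool.Agent.TH456.TM.exists_pos_le (Finset.univ : Finset ι) κ₂ (fun i _ => hκ₂ i)
  obtain ⟨N₃, hN₃, hle4⟩ := Pool.Agent.TH456.TM.exists_le_ge (Finset.univ : Finset ι) N₂
  obtain ⟨κ, hκ⟩ : ∃ κ : ℝ, κ = min κ₁ κ₃ := ⟨_, rfl⟩
  have hκ0 : 0 < κ := by rw [hκ]; exact lt_min hκ₁ hκ₃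
  have hκ1 : κ ≤ κ₁ := by rw [hκ]; exact min_le_left _ _
  have hκ3 : κ ≤ κ₃ := by rw [hκ]; exact min_le_right _ _
  obtain ⟨N, hN⟩ : ∃ N : ℕ, N = max N₁ (max ⌈N₃⌉₊ (⌈2 / κ ^ 2⌉₊ + 1)) := ⟨_, rfl⟩
  have hNN1 : N₁ ≤ N := by rw [hN]; exact le_max_left _ _
  have hNN3 : N₃ ≤ N := by
    have h2 : ⌈N₃⌉₊ ≤ N := by rw [hN]; exact (le_max_left _ _).trans (le_max_right _ _)
    exact (Nat.le_ceil _).trans (by exact_mod_cast h2)
  have hNκ : 2 / κ ^ 2 < N := by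
    have h2 : ⌈2 / κ ^ 2⌉₊ + 1 ≤ N := by rw [hN]; exact (le_max_right _ _).trans (le_max_right _ _)
    have h3 := Nat.le_ceil (2 / κ ^ 2)
    have h4 : ((⌈2 / κ ^ 2⌉₊ + 1 : ℕ) : ℝ) ≤ N := by exact_mod_cast h2
    push_cast at h4
    linarith
  have hgrow : ∀ n : ℕ, N ≤ n → (n : ℝ) < exp (κ * n) := by
    intro n hn
    have hn' : 2 / κ ^ 2 < n := hNκ.trans_le (by exact_mod_cast hn)
    rw [div_lt_iff₀ (by positivity)] at hn'
    have hn0 : (0 : ℝ) ≤ n := Nat.cast_nonneg _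
    have h2 := quadratic_le_exp_of_nonneg (mul_nonneg hκ0.le hn0)
    have hnp : (0 : ℝ) < n := by
      rcases hn0.lt_or_eq with h3 | h3
      · exact h3
      · rw [← h3] at hn'
        linarith
    have h3 : (n : ℝ) < (κ * n) ^ 2 / 2 := by
      have h4 : n * 2 < n * (n * κ ^ 2) := mul_lt_mul_of_pos_left hn' hnp
      nlinarith
    have h5 : 0 ≤ κ * n := by positivity
    linarith
  -- separation
  have hnm : ∀ i l, l ∈ LL (a i) (b i) → l ∈ nearMisses (a i) (b i) 1 := by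
    rintro i l ⟨-, -, h2⟩
    simp only [nearMisses, Set.mem_ofPred_eq, one_mul]
    exact h2
  have hsep : ∀ p q : ι × (ℕ × ℕ), p.2 ∈ LL (a p.1) (b p.1) → q.2 ∈ LL (a q.1) (b q.1) → p ≠ q →
      N ≤ p.2.1 → p.2.1 ≤ q.2.1 → exp (κ * p.2.1) ≤ q.2.1 := by
    rintro ⟨i, l⟩ ⟨j, l'⟩ hp hq hne hNp hle
    simp only at hp hq hNp hle ⊢
    have hl0 : (0 : ℝ) ≤ l.1 := Nat.cast_nonneg _
    have hle' : (l.1 : ℝ) ≤ l'.1 := by exact_mod_cast hle
    by_cases hij : i = j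
    · subst hij
      have hne' : l ≠ l' := fun h => hne (by rw [h])
      have h2 := hN₂ i l hp l' hq ((hle4 i (Finset.mem_univ _)).trans (hNN3.trans (by exact_mod_cast hNp)))
        hne' hle
      refine le_trans ?_ h2
      refine exp_le_exp.2 (mul_le_mul_of_nonneg_right (hκ3.trans (hle3 i (Finset.mem_univ _))) hl0)
    · have h2 := hN₁ i j hij l.1 l.2 l'.1 l'.2 (hNN1.trans hNp) (hNN1.trans (hNp.trans hle)) (hnm i l hp)
        (hnm j l' hq)
      rw [min_eq_left hle', max_eq_right hle'] at h2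
      exact le_trans (exp_le_exp.2 (mul_le_mul_of_nonneg_right hκ1 hl0)) h2
  obtain ⟨C, hC0, hC⟩ := tower_count hκ0 N
  obtain ⟨S, hS⟩ : ∃ S : Set ℕ, S = {n | N ≤ n ∧ ∃ p : ι × (ℕ × ℕ), p.2 ∈ LL (a p.1) (b p.1) ∧ p.2.1 = n} :=
    ⟨_, rfl⟩
  have hSsep : ∀ n ∈ S, ∀ n' ∈ S, N ≤ n → n < n' → exp (κ * n) ≤ n' := by
    rw [hS]
    rintro n ⟨hn, p, hp, rfl⟩ n' ⟨hn', q, hq, rfl⟩ _ hlt
    exact hsep p q hp hq (fun h => by rw [h] at hlt; exact lt_irrefl _ hlt) hn hlt.le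
  refine ⟨C + (Lines a b N).ncard, by positivity, fun h => ?_⟩
  have h2 := hC S hSsep h (tower h) le_rfl
  obtain ⟨B, hB⟩ : ∃ B : Set (ι × (ℕ × ℕ)), B = {p ∈ Lines a b (tower h) | N ≤ p.2.1} := ⟨_, rfl⟩
  have hBf : B.Finite := by
    rw [hB]
    exact (lines_fin ha hb _).subset fun p hp => hp.1
  have hBcard : B.ncard ≤ {n : ℕ | n ∈ S ∧ (n : ℝ) ≤ tower h}.ncard := by
    refine Set.ncard_le_ncard_of_injOn (fun p => p.2.1) ?_ ?_ ((le_fin _).subset fun n hn => hn.2)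
    · rintro p hp
      rw [hB] at hp
      refine ⟨?_, hp.1.2⟩
      rw [hS]
      exact ⟨hp.2, p, hp.1.1, rfl⟩
    · intro p hp q hq hpq
      rw [hB] at hp hq
      by_contra hne
      have h3 := hsep p q hp.1.1 hq.1.1 hne hp.2 (le_of_eq hpq)
      have h4 := hgrow p.2.1 hp.2
      have h5 : (q.2.1 : ℝ) = p.2.1 := by exact_mod_cast hpq.symm
      rw [h5] at h3
      linarith
  have hsub : Lines a b (tower h) ⊆ B ∪ Lines a b N := by
    intro p hp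
    by_cases h3 : N ≤ p.2.1
    · left
      rw [hB]
      exact ⟨hp, h3⟩
    · right
      push Not at h3
      exact ⟨hp.1, by exact_mod_cast h3.le⟩
  have h3 : (Lines a b (tower h)).ncard ≤ {n : ℕ | n ∈ S ∧ (n : ℝ) ≤ tower h}.ncard + (Lines a b N).ncard := by
    calc _ ≤ (B ∪ Lines a b N).ncard := Set.ncard_le_ncard hsub (hBf.union (lines_fin ha hb _))
      _ ≤ B.ncard + (Lines a b N).ncard := Set.ncard_union_le _ _
      _ ≤ _ := by omega
  have h4 : ((Lines a b (tower h)).ncard : ℝ) ≤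
      (({n : ℕ | n ∈ S ∧ (n : ℝ) ≤ tower h}.ncard : ℕ) : ℝ) + (Lines a b N).ncard := by exact_mod_cast h3
  linarith

end

end Pool.Agent.N743.Nc
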