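import Pool.Agent.N743.Engine
import Pool.Agent.R356.Four

/-!
# The scale dichotomy for rational approximations
-/

set_option autoImplicit false

namespace Pool.Agent.N743

open Polynomial Finset
open Pool.Agent.TH456.TM Pool.Agent.R356

/-- some fraction with denominator at most `X ^ θ` lies within `1 / X` of `u` -/
def RatNear (θ X u : ℝ) : Prop :=
  ∃ (p : ℤ) (q : ℕ), 0 < q ∧ (q : ℝ) ≤ X ^ θ ∧ |u - p / q| ≤ X⁻¹

/-- `u` is a rational number -/
def IsRat (u : ℝ) : Prop := ∃ r : ℚ, u = r

/-- **The scale dichotomy for rational approximations.** -/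
theorem dichotomy_rat {ι : Type} [Finite ι] (x : ι → ℝ)
    (h : ∀ i j, i ≠ j → RatR (x i) (x j)) (θ M : ℝ) (hθ : 0 < θ) (hM1 : 1 < M)
    (hM : 3 * θ * (M + 1) < 1) :
    Dichotomy (fun i => IsRat (x i)) (fun X i => RatNear θ X (x i)) M := by
  classical
  cases nonempty_fintype ι
  obtain ⟨η, hη0, hη⟩ : ∃ η : ℝ, 0 < η ∧ (M + 1) * (θ * (3 + η)) < 1 := by
    refine ⟨(1 - 3 * θ * (M + 1)) / (2 * (θ * (M + 1))), ?_, ?_⟩
    · have : 0 < 1 - 3 * θ * (M + 1) := by linarith
      have : 0 < M + 1 := by linarith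
      positivity
    · have h1 : 0 < M + 1 := by linarith
      have h2 : (M + 1) * (θ * (3 + (1 - 3 * θ * (M + 1)) / (2 * (θ * (M + 1))))) =
          3 * θ * (M + 1) + (1 - 3 * θ * (M + 1)) / 2 := by
        field_simp
      rw [h2]
      linarith
  have h1 : ∀ p : ι × ι, ∃ C : ℝ, 0 < C ∧ (p.1 ≠ p.2 → ∀ (a b : ℤ) (q s : ℕ), 0 < q → 0 < s →
      C * ((q : ℝ) * s) ^ (-(3 + η)) ≤ max |x p.1 - a / q| |x p.2 - b / s|) := by
    intro p
    by_cases hp : p.1 ≠ p.2
    · obtain ⟨C, hC, hj⟩ := h p.1 p.2 hp η hη0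
      exact ⟨C, hC, fun _ => hj⟩
    · exact ⟨1, one_pos, fun a => absurd a hp⟩
  choose C' hC' h1 using h1
  obtain ⟨C₁, hC₁, hCle⟩ := exists_pos_le (Finset.univ : Finset (ι × ι)) C' (fun b _ => hC' b)
  refine engine (α := ι × ℚ) (fun a => a.1) (fun a => (a.2.den : ℝ)) (fun a => |x a.1 - a.2|)
    (fun a => by exact_mod_cast a.2.den_pos) (fun a => abs_nonneg _) (3 + η) (min C₁ (1 / 2))
    (by linarith) (lt_min hC₁ (by norm_num)) ?_ _ _ 1 θ 1 M le_rfl hθ one_pos ?_ ?_ ?_ hη hM1
  · rintro ⟨i, r⟩ ⟨j, s⟩ hne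
    have hr : (1 : ℝ) ≤ r.den := by exact_mod_cast r.den_pos
    have hs : (1 : ℝ) ≤ s.den := by exact_mod_cast s.den_pos
    have hrs : (1 : ℝ) ≤ (r.den : ℝ) * s.den := by nlinarith
    have hpos : 0 ≤ ((r.den : ℝ) * s.den) ^ (-(3 + η)) := by positivity
    by_cases hij : i = j
    · subst hij
      have hrs' : r ≠ s := fun h => hne (by rw [h])
      -- the difference of the two fractions
      have h2 : 1 / ((r.den : ℝ) * s.den) ≤ |(r : ℝ) - s| := by
        have h3 : (r : ℝ) - s = ((r.num * s.den - s.num * r.den : ℤ) : ℝ) / ((r.den : ℝ) * s.den) := by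
          have e1 : (r : ℝ) = r.num / r.den := by exact_mod_cast (Rat.num_div_den r).symm
          have e2 : (s : ℝ) = s.num / s.den := by exact_mod_cast (Rat.num_div_den s).symm
          rw [e1, e2]
          push_cast
          field_simp
        have h4 : (r.num * s.den - s.num * r.den : ℤ) ≠ 0 := by
          intro h0
          rw [h0, Int.cast_zero, zero_div, sub_eq_zero] at h3
          exact hrs' (by exact_mod_cast h3)
        rw [h3, abs_div, abs_of_pos (show 0 < (r.den : ℝ) * s.den by positivity)]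
        gcongr
        exact_mod_cast Int.one_le_abs h4
      have h3 : |(r : ℝ) - s| ≤ |x i - s| + |x i - r| := by
        have : (r : ℝ) - s = (x i - s) - (x i - r) := by ring
        rw [this]
        exact abs_sub _ _
      have h4 : ((r.den : ℝ) * s.den) ^ (-(3 + η)) ≤ 1 / ((r.den : ℝ) * s.den) := by
        rw [one_div, ← Real.rpow_neg_one]
        exact Real.rpow_le_rpow_of_exponent_le hrs (by linarith)
      have h5 := le_max_left |x i - r| |x i - s|
      have h6 := le_max_right |x i - r| |x i - s|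
      calc min C₁ (1 / 2) * ((r.den : ℝ) * s.den) ^ (-(3 + η))
          ≤ 1 / 2 * (1 / ((r.den : ℝ) * s.den)) := by
            gcongr
            exact min_le_right _ _
        _ ≤ max |x i - r| |x i - s| := by linarith
    · have h2 := h1 (i, j) hij r.num s.num r.den s.den r.den_pos s.den_pos
      have e1 : (r : ℝ) = r.num / r.den := by exact_mod_cast (Rat.num_div_den r).symm
      have e2 : (s : ℝ) = s.num / s.den := by exact_mod_cast (Rat.num_div_den s).symm
      simp only [← e1, ← e2] at h2
      refine le_trans ?_ h2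
      gcongr
      exact (min_le_left _ _).trans (hCle (i, j) (Finset.mem_univ _))
  · rintro X hX i ⟨p, q, hq, hqX, hu⟩
    refine ⟨(i, (p : ℚ) / (q : ℚ)), rfl, ?_, ?_⟩
    · rw [one_mul]
      refine le_trans ?_ hqX
      have h3 : (((p : ℚ) / ((q : ℤ) : ℚ)).den : ℤ) ∣ (q : ℤ) := by
        rw [← Rat.divInt_eq_div]
        exact Rat.den_dvd p q
      have h4 : ((p : ℚ) / (q : ℚ)).den ≤ q := by
        rw [Int.cast_natCast] at h3
        exact Nat.le_of_dvd hq (by exact_mod_cast h3)
      exact_mod_cast h4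
    · rw [Real.rpow_neg_one]
      push_cast
      exact hu
  · intro i
    constructor
    · rintro ⟨r, hr⟩
      exact ⟨(i, r), rfl, by simp [hr]⟩
    · rintro ⟨⟨j, r⟩, rfl, h0⟩
      exact ⟨r, by
        have := abs_eq_zero.1 h0
        linarith⟩
  · rintro i ⟨r, hr⟩
    obtain ⟨K, hK1, hK⟩ := large_scale θ r.den hθ
    refine ⟨K, fun X hX => ⟨r.num, r.den, r.den_pos, (hK X hX).le, ?_⟩⟩
    have e1 : (r : ℝ) = r.num / r.den := by exact_mod_cast (Rat.num_div_den r).symm
    have hX' : K ≤ X := hX
    rw [hr, ← e1, sub_self, abs_zero, inv_nonneg]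
    linarith

/-- the four numbers -/
noncomputable def fourT (t : ℝ) : Fin 4 → ℝ :=
  ![t + Real.exp 1, t - Real.exp 1, t * Real.exp 1, t / Real.exp 1]

theorem four_rat (t : ℝ) (h0 : t ≠ 0) (h1 : t ≠ Real.exp 1) (h2 : t ≠ - Real.exp 1) (i j : Fin 4)
    (hij : i ≠ j) : RatR (fourT t i) (fourT t j) := by
  have he := Real.exp_pos 1
  have he0 : Real.exp 1 ≠ 0 := he.ne'
  have c01 : AffRel (t + Real.exp 1) (t - Real.exp 1) := by
    refine ⟨-1, 1, X + X, by simp, by simp, ?_, ?_, (0 : ℝ), ?_⟩
    · exact (natDegree_add_le _ _).trans (by simp)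
    · simp only [map_neg, map_one, map_add, aeval_X]
      ring
    · simp only [map_neg, map_one, map_add, aeval_X]
      intro h
      apply he0
      linarith
  have c02 : AffRel (t + Real.exp 1) (t * Real.exp 1) := by
    refine ⟨-X, 1, X ^ 2, by simp, by simp, by simp, ?_, |t| + Real.exp 1 + 1, ?_⟩
    · simp only [map_neg, map_one, map_pow, aeval_X]
      ring
    · simp only [map_neg, map_one, map_pow, aeval_X]
      have h3 : (|t| + Real.exp 1 + 1) ^ 2 + (t + Real.exp 1) * -(|t| + Real.exp 1 + 1) +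
          t * Real.exp 1 * 1 = (|t| + 1) * (|t| + Real.exp 1 + 1 - t) := by ring
      rw [h3]
      have h4 := le_abs_self t
      have h5 := abs_nonneg t
      have h6 : 0 < |t| + Real.exp 1 + 1 - t := by linarith
      positivity
  have c03 : AffRel (t + Real.exp 1) (t / Real.exp 1) := by
    refine ⟨-1, X, X, by simp, by simp, by simp, ?_, (0 : ℝ), ?_⟩
    · simp only [map_neg, map_one, aeval_X]
      field_simp
      ring
    · simp only [map_neg, map_one, aeval_X]
      intro h
      apply h2
      linarith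
  have c12 : AffRel (t - Real.exp 1) (t * Real.exp 1) := by
    refine ⟨X, -1, X ^ 2, by simp, by simp, by simp, ?_, |t| + Real.exp 1 + 1, ?_⟩
    · simp only [map_neg, map_one, map_pow, aeval_X]
      ring
    · simp only [map_neg, map_one, map_pow, aeval_X]
      have h3 : (|t| + Real.exp 1 + 1) ^ 2 + (t - Real.exp 1) * (|t| + Real.exp 1 + 1) +
          t * Real.exp 1 * -1 = (|t| + 1) * (|t| + Real.exp 1 + 1 + t) := by ring
      rw [h3]
      have h4 := neg_abs_le t
      have h5 := abs_nonneg t
      have h6 : 0 < |t| + Real.exp 1 + 1 + t := by linarith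
      positivity
  have c13 : AffRel (t - Real.exp 1) (t / Real.exp 1) := by
    refine ⟨-1, X, -X, by simp, by simp, by simp, ?_, (0 : ℝ), ?_⟩
    · simp only [map_neg, map_one, aeval_X]
      field_simp
      ring
    · simp only [map_neg, map_one, aeval_X]
      intro h
      apply h1
      linarith
  have c23 : AffRel (t * Real.exp 1) (t / Real.exp 1) := by
    refine ⟨-1, X ^ 2, 0, by simp, by simp, by simp, ?_, (0 : ℝ), ?_⟩
    · simp only [map_neg, map_one, map_pow, map_zero, aeval_X]
      field_simp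
      ring
    · simp only [map_neg, map_one, map_pow, map_zero, aeval_X]
      intro h
      have h3 : t * Real.exp 1 = 0 := by linarith
      rcases mul_eq_zero.1 h3 with h4 | h4
      · exact h0 h4
      · exact he0 h4
  have key : ∀ i j : Fin 4, i < j → AffRel (fourT t i) (fourT t j) := by
    intro i j hij
    fin_cases i <;> fin_cases j <;> first | (exact absurd hij (by decide)) | skip
    · exact c01
    · exact c02
    · exact c03
    · exact c12
    · exact c13
    · exact c23
  rcases lt_or_gt_of_ne hij with h | h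
  · exact rational _ _ (key i j h)
  · exact RatR.symm (rational _ _ (key j i h))

end Pool.Agent.N743
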