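import Pool.Agent.N743.Rat

/-!
# The scale dichotomy for rational approximations with weights
-/

set_option autoImplicit false

namespace Pool.Agent.N743

open Polynomial Finset
open Pool.Agent.TH456.TM Pool.Agent.R356

/-- **The scale dichotomy for rational approximations, weighted form.** -/
theorem dichotomy_ratw {ι : Type} [Finite ι] (x : ι → ℝ) (w : ι → ℕ) (hw : ∀ i, 1 ≤ w i) (κ : ℝ) (hκ : 1 ≤ κ)
    (h : ∀ i j, i ≠ j → ∀ ε : ℝ, 0 < ε → ∃ C : ℝ, 0 < C ∧ ∀ (a b : ℤ) (q s : ℕ), 0 < q → 0 < s →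
      C * ((q : ℝ) ^ w i * (s : ℝ) ^ w j) ^ (-(κ + ε)) ≤ max |x i - a / q| |x j - b / s|)
    (θ M : ℝ) (hθ : 0 < θ) (hM1 : 1 < M) (hM : κ * θ * (M + 1) < 1) :
    Dichotomy (fun i => IsRat (x i)) (fun X i => RatNear (θ / w i) X (x i)) M := by
  classical
  cases nonempty_fintype ι
  obtain ⟨η, hη0, hη⟩ : ∃ η : ℝ, 0 < η ∧ (M + 1) * (θ * (κ + η)) < 1 := by
    refine ⟨(1 - κ * θ * (M + 1)) / (2 * (θ * (M + 1))), ?_, ?_⟩
    · have : 0 < 1 - κ * θ * (M + 1) := by linarith
      have : 0 < M + 1 := by linarith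
      positivity
    · have h1 : 0 < M + 1 := by linarith
      have h2 : (M + 1) * (θ * (κ + (1 - κ * θ * (M + 1)) / (2 * (θ * (M + 1))))) =
          κ * θ * (M + 1) + (1 - κ * θ * (M + 1)) / 2 := by
        field_simp
      rw [h2]
      linarith
  have h1 : ∀ p : ι × ι, ∃ C : ℝ, 0 < C ∧ (p.1 ≠ p.2 → ∀ (a b : ℤ) (q s : ℕ), 0 < q → 0 < s →
      C * ((q : ℝ) ^ w p.1 * (s : ℝ) ^ w p.2) ^ (-(κ + η)) ≤ max |x p.1 - a / q| |x p.2 - b / s|) := by
    intro p
    by_cases hp : p.1 ≠ p.2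
    · obtain ⟨C, hC, hj⟩ := h p.1 p.2 hp η hη0
      exact ⟨C, hC, fun _ => hj⟩
    · exact ⟨1, one_pos, fun a => absurd a hp⟩
  choose C' hC' h1 using h1
  obtain ⟨C₁, hC₁, hCle⟩ := exists_pos_le (Finset.univ : Finset (ι × ι)) C' (fun b _ => hC' b)
  refine engine (α := ι × ℚ) (fun a => a.1) (fun a => (a.2.den : ℝ) ^ w a.1) (fun a => |x a.1 - a.2|)
    (fun a => one_le_pow₀ (by exact_mod_cast a.2.den_pos)) (fun a => abs_nonneg _) (κ + η) (min C₁ (1 / 2))
    (by linarith) (lt_min hC₁ (by norm_num)) ?_ _ _ 1 θ 1 M le_rfl hθ one_pos ?_ ?_ ?_ hη hM1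
  · rintro ⟨i, r⟩ ⟨j, s⟩ hne
    have hr : (1 : ℝ) ≤ r.den := by exact_mod_cast r.den_pos
    have hs : (1 : ℝ) ≤ s.den := by exact_mod_cast s.den_pos
    have hr' : (r.den : ℝ) ≤ (r.den : ℝ) ^ w i := le_self_pow₀ hr (by have := hw i; omega)
    have hs' : (s.den : ℝ) ≤ (s.den : ℝ) ^ w j := le_self_pow₀ hs (by have := hw j; omega)
    have hrs0 : (1 : ℝ) ≤ (r.den : ℝ) * s.den := by nlinarith
    have hrs1 : (r.den : ℝ) * s.den ≤ (r.den : ℝ) ^ w i * (s.den : ℝ) ^ w j := by gcongr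
    have hrs : (1 : ℝ) ≤ (r.den : ℝ) ^ w i * (s.den : ℝ) ^ w j := hrs0.trans hrs1
    have hpos : 0 ≤ ((r.den : ℝ) ^ w i * (s.den : ℝ) ^ w j) ^ (-(κ + η)) := by positivity
    by_cases hij : i = j
    · subst hij
      have hrs' : r ≠ s := fun h => hne (by rw [h])
      -- the difference of the two fractions
      have h2 : 1 / ((r.den : ℝ) * s.den) ≤ |(r : ℝ) - s| := by
        have h3 : (r : ℝ) - s = ((r.num * s.den - s.num * r.den : ℤ) : ℝ) / ((r.den : ℝ) * s.den) := by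
          have e1 : (r : ℝ) = r.num / r.den := by exact_mod_cast (Rat.num_div_den r).symm
          have e2 : (s : ℝ) = s.num / s.den := by exact_mod_cast (Rat.num_div_den s).symm
          rw [e1, e2]
          push_cast
          field_simp
        have h4 : (r.num * s.den - s.num * r.den : ℤ) ≠ 0 := by
          intro h0
          rw [h0, Int.cast_zero, zero_div, sub_eq_zero] at h3
          exact hrs' (by exact_mod_cast h3)
        rw [h3, abs_div, abs_of_pos (show 0 < (r.den : ℝ) * s.den by positivity)]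
        gcongr
        exact_mod_cast Int.one_le_abs h4
      have h3 : |(r : ℝ) - s| ≤ |x i - s| + |x i - r| := by
        have : (r : ℝ) - s = (x i - s) - (x i - r) := by ring
        rw [this]
        exact abs_sub _ _
      have h4 : ((r.den : ℝ) ^ w i * (s.den : ℝ) ^ w i) ^ (-(κ + η)) ≤ 1 / ((r.den : ℝ) * s.den) := by
        rw [one_div]
        calc ((r.den : ℝ) ^ w i * (s.den : ℝ) ^ w i) ^ (-(κ + η))
            ≤ ((r.den : ℝ) ^ w i * (s.den : ℝ) ^ w i) ^ (-1 : ℝ) :=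
              Real.rpow_le_rpow_of_exponent_le hrs (by linarith)
          _ = ((r.den : ℝ) ^ w i * (s.den : ℝ) ^ w i)⁻¹ := Real.rpow_neg_one _
          _ ≤ _ := by gcongr
      have h5 := le_max_left |x i - r| |x i - s|
      have h6 := le_max_right |x i - r| |x i - s|
      calc min C₁ (1 / 2) * ((r.den : ℝ) ^ w i * (s.den : ℝ) ^ w i) ^ (-(κ + η))
          ≤ 1 / 2 * (1 / ((r.den : ℝ) * s.den)) := by
            gcongr
            exact min_le_right _ _
        _ ≤ max |x i - r| |x i - s| := by linarith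
    · have h2 := h1 (i, j) hij r.num s.num r.den s.den r.den_pos s.den_pos
      have e1 : (r : ℝ) = r.num / r.den := by exact_mod_cast (Rat.num_div_den r).symm
      have e2 : (s : ℝ) = s.num / s.den := by exact_mod_cast (Rat.num_div_den s).symm
      simp only [← e1, ← e2] at h2
      refine le_trans ?_ h2
      gcongr
      exact (min_le_left _ _).trans (hCle (i, j) (Finset.mem_univ _))
  · rintro X hX i ⟨p, q, hq, hqX, hu⟩
    refine ⟨(i, (p : ℚ) / (q : ℚ)), rfl, ?_, ?_⟩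
    · rw [one_mul]
      have h3 : (((p : ℚ) / ((q : ℤ) : ℚ)).den : ℤ) ∣ (q : ℤ) := by
        rw [← Rat.divInt_eq_div]
        exact Rat.den_dvd p q
      have h4 : ((p : ℚ) / (q : ℚ)).den ≤ q := by
        rw [Int.cast_natCast] at h3
        exact Nat.le_of_dvd hq (by exact_mod_cast h3)
      have h5 : (((p : ℚ) / (q : ℚ)).den : ℝ) ≤ X ^ (θ / w i) := le_trans (by exact_mod_cast h4) hqX
      have h6 : (w i : ℝ) ≠ 0 := by
        have := hw i
        positivity
      have hX0 : 0 < X := by linarith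
      show (((p : ℚ) / (q : ℚ)).den : ℝ) ^ w i ≤ X ^ θ
      calc (((p : ℚ) / (q : ℚ)).den : ℝ) ^ w i ≤ (X ^ (θ / w i)) ^ w i := by gcongr
        _ = X ^ θ := by
          rw [← Real.rpow_natCast, ← Real.rpow_mul hX0.le]
          congr 1
          field_simp
    · rw [Real.rpow_neg_one]
      push_cast
      exact hu
  · intro i
    constructor
    · rintro ⟨r, hr⟩
      exact ⟨(i, r), rfl, by simp [hr]⟩
    · rintro ⟨⟨j, r⟩, rfl, h0⟩
      exact ⟨r, by
        have := abs_eq_zero.1 h0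
        linarith⟩
  · rintro i ⟨r, hr⟩
    have hwi : 0 < θ / w i := by
      have := hw i
      positivity
    obtain ⟨K, hK1, hK⟩ := large_scale (θ / w i) r.den hwi
    refine ⟨K, fun X hX => ⟨r.num, r.den, r.den_pos, (hK X hX).le, ?_⟩⟩
    have e1 : (r : ℝ) = r.num / r.den := by exact_mod_cast (Rat.num_div_den r).symm
    have hX' : K ≤ X := hX
    rw [hr, ← e1, sub_self, abs_zero, inv_nonneg]
    linarith

/-- the final estimate -/
lemma fin_bound {c K W D η κ : ℝ} (hK : 0 < K) (hW : 0 < W) (hD : 0 < D)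
    (h : c * (K * D) ^ (-κ) ≤ W * D * η) : c * K ^ (-κ) / W * D ^ (-(κ + 1)) ≤ η := by
  have e3 : (K * D) ^ (-κ) = K ^ (-κ) * (D * D ^ (-(κ + 1))) := by
    rw [Real.mul_rpow hK.le hD.le]
    congr 1
    conv_rhs => rw [← Real.rpow_one D, ← Real.rpow_mul hD.le, ← Real.rpow_add hD]
    congr 1
    ring
  rw [e3] at h
  have h8 : 0 < W * D := by positivity
  have h9 : (W * D) * (c * K ^ (-κ) / W * D ^ (-(κ + 1))) ≤ (W * D) * η := by
    calc _ = c * (K ^ (-κ) * (D * D ^ (-(κ + 1)))) := by field_simp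
      _ ≤ _ := h
  exact le_of_mul_le_mul_left h9 h8

end Pool.Agent.N743
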