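import Pool.Agent.N743.EngineR
import Pool.Agent.N743.Rat

/-!
# The scale dichotomy of rank `r` for rational approximations of `r + 1` numbers
-/

set_option autoImplicit false

namespace Pool.Agent.N743

open Finset

/-- the difference of two fractions -/
lemma rat_diff (ρ ρ' : ℚ) (h : ρ ≠ ρ') (H : ℝ) (h1 : (ρ.den : ℝ) ≤ H) (h2 : (ρ'.den : ℝ) ≤ H) :
    1 / H ^ 2 ≤ |(ρ : ℝ) - ρ'| := by
  have hd : (0 : ℝ) < ρ.den := by exact_mod_cast ρ.den_pos
  have hd' : (0 : ℝ) < ρ'.den := by exact_mod_cast ρ'.den_pos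
  have hH : 0 < H := by linarith
  have hne : ρ.num * ρ'.den - ρ'.num * ρ.den ≠ 0 := by
    intro h0
    apply h
    have h3 : (ρ.num : ℚ) * ρ'.den = ρ'.num * ρ.den := by exact_mod_cast sub_eq_zero.1 h0
    have hd1 : (ρ.den : ℚ) ≠ 0 := by exact_mod_cast ρ.den_pos.ne'
    have hd2 : (ρ'.den : ℚ) ≠ 0 := by exact_mod_cast ρ'.den_pos.ne'
    rw [← Rat.num_div_den ρ, ← Rat.num_div_den ρ', div_eq_div_iff hd1 hd2]
    exact h3
  have e1 : (ρ : ℝ) - ρ' = ((ρ.num * ρ'.den - ρ'.num * ρ.den : ℤ) : ℝ) / (ρ.den * ρ'.den) := by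
    have e2 : (ρ : ℝ) = ρ.num / ρ.den := by exact_mod_cast (Rat.num_div_den ρ).symm
    have e3 : (ρ' : ℝ) = ρ'.num / ρ'.den := by exact_mod_cast (Rat.num_div_den ρ').symm
    rw [e2, e3]
    push_cast
    field_simp
  rw [e1, abs_div, abs_of_pos (by positivity : (0 : ℝ) < ρ.den * ρ'.den)]
  have h3 : (1 : ℝ) ≤ |((ρ.num * ρ'.den - ρ'.num * ρ.den : ℤ) : ℝ)| := by exact_mod_cast Int.one_le_abs hne
  have h4 : (ρ.den : ℝ) * ρ'.den ≤ H ^ 2 := by nlinarith
  exact div_le_div₀ (abs_nonneg _) h3 (by positivity) h4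

/-- **The scale dichotomy of rank `r`** for the rational approximations of `r + 1` numbers with a measure of
simultaneous approximation -/
theorem dichotomy_sim {r : ℕ} (hr : 1 ≤ r) (x : Fin (r + 1) → ℝ) (w : ℕ) (hw : 1 ≤ w) (c : ℝ) (hc : 0 < c)
    (h : ∀ (a : Fin (r + 1) → ℤ) (q : ℕ), 0 < q → ∃ i, c / (q : ℝ) ^ w ≤ |x i - a i / q|)
    (θ M : ℝ) (hθ : 0 < θ) (hM1 : 1 < M) (hM : (((r + 1) * w : ℕ) : ℝ) * θ * M < 1)
    (hM2 : 2 * θ * M < 1) :
    DichotomyR r (fun i => IsRat (x i)) (fun X i => RatNear θ X (x i)) M := by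
  classical
  obtain ⟨κ, hκ⟩ : ∃ κ : ℕ, κ = max 2 ((r + 1) * w) := ⟨_, rfl⟩
  have hκ2 : 2 ≤ κ := by rw [hκ]; exact le_max_left _ _
  obtain ⟨C, hC⟩ : ∃ C : ℝ, C = min c (1 / 2) := ⟨_, rfl⟩
  have hC0 : 0 < C := by rw [hC]; positivity
  have hpow : ∀ (H : ℝ) (n : ℕ) (d : ℝ), 1 ≤ H → n ≤ κ → C ≤ d → C * H ^ (-(κ : ℝ)) ≤ d / H ^ n := by
    intro H n d hH hn hd
    have hH0 : 0 < H := by linarith
    rw [Real.rpow_neg hH0.le, Real.rpow_natCast, ← div_eq_mul_inv]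
    exact div_le_div₀ (by linarith) hd (by positivity) (pow_le_pow_right₀ hH hn)
  have hpair : ∀ a b : Fin (r + 1) × ℚ, a.1 = b.1 → a ≠ b → ∀ H : ℝ, 1 ≤ H → (a.2.den : ℝ) ≤ H →
      (b.2.den : ℝ) ≤ H → C * H ^ (-(κ : ℝ)) ≤ max |x a.1 - a.2| |x b.1 - b.2| := by
    intro a b hab hne H hH ha hb
    have hne2 : b.2 ≠ a.2 := by
      intro h2
      exact hne (Prod.ext hab h2.symm)
    have h1 := rat_diff b.2 a.2 hne2 H hb ha
    rw [← hab]
    have h2 : |(b.2 : ℝ) - a.2| ≤ |x a.1 - a.2| + |x a.1 - b.2| := by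
      have : (b.2 : ℝ) - a.2 = (x a.1 - a.2) - (x a.1 - b.2) := by ring
      rw [this]
      exact abs_sub _ _
    have h3 := le_max_left |x a.1 - (a.2 : ℝ)| |x a.1 - b.2|
    have h4 := le_max_right |x a.1 - (a.2 : ℝ)| |x a.1 - b.2|
    have h5 := hpow H 2 (1 / 2) hH hκ2 (by rw [hC]; exact min_le_right _ _)
    have h6 : (1 / 2 : ℝ) / H ^ 2 = (1 / H ^ 2) / 2 := by ring
    rw [h6] at h5
    linarith
  refine engineR r hr (fun a : Fin (r + 1) × ℚ => a.1) (fun a => (a.2.den : ℝ)) (fun a => |x a.1 - a.2|)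
    (fun a => abs_nonneg _) κ C (by positivity) hC0 ?_ hpair (fun X i => RatNear θ X (x i)) (fun i => IsRat (x i)) 1 θ 1 M
    le_rfl hθ one_pos ?_ ?_ ?_ ?_ hM1
  · -- `r + 1` fractions
    intro S hS H hH hsize
    by_cases hinj : Set.InjOn (fun a : Fin (r + 1) × ℚ => a.1) (S : Set (Fin (r + 1) × ℚ))
    · have himg : S.image (fun a : Fin (r + 1) × ℚ => a.1) = univ := by
        apply Finset.eq_univ_of_card
        rw [Finset.card_image_of_injOn hinj, hS, Fintype.card_fin]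
      have hex : ∀ i : Fin (r + 1), ∃ ρ : ℚ, (i, ρ) ∈ S := by
        intro i
        have h1 : i ∈ S.image (fun a : Fin (r + 1) × ℚ => a.1) := by rw [himg]; exact mem_univ i
        obtain ⟨a, ha, hai⟩ := mem_image.1 h1
        exact ⟨a.2, by rw [← hai]; exact ha⟩
      choose ρ hρ using hex
      obtain ⟨q, hq⟩ : ∃ q : ℕ, q = ∏ i, (ρ i).den := ⟨_, rfl⟩
      have hq0 : 0 < q := by rw [hq]; exact Finset.prod_pos fun i _ => (ρ i).den_pos
      have hqH : (q : ℝ) ≤ H ^ (r + 1) := by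
        rw [hq]
        push_cast
        calc ∏ i, ((ρ i).den : ℝ) ≤ ∏ _i : Fin (r + 1), H :=
              Finset.prod_le_prod (fun i _ => Nat.cast_nonneg _) fun i _ => hsize (i, ρ i) (hρ i)
          _ = H ^ (r + 1) := by rw [Finset.prod_const, Finset.card_univ, Fintype.card_fin]
      have hdiv : ∀ i, ∃ a : ℤ, (ρ i : ℝ) = (a : ℝ) / q := by
        intro i
        obtain ⟨d, hd⟩ : (ρ i).den ∣ q := by rw [hq]; exact Finset.dvd_prod_of_mem _ (mem_univ i)
        have hd0 : 0 < d := Nat.pos_of_ne_zero fun h0 => by rw [h0, mul_zero] at hd; omega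
        refine ⟨(ρ i).num * d, ?_⟩
        have e2 : (ρ i : ℝ) = (ρ i).num / (ρ i).den := by exact_mod_cast (Rat.num_div_den (ρ i)).symm
        have h1 : ((ρ i).den : ℝ) ≠ 0 := by exact_mod_cast (ρ i).den_pos.ne'
        have h2 : (d : ℝ) ≠ 0 := by exact_mod_cast hd0.ne'
        rw [e2, hd]
        push_cast
        field_simp
      choose a ha using hdiv
      obtain ⟨i, hi⟩ := h a q hq0
      refine ⟨(i, ρ i), hρ i, ?_⟩
      show C * H ^ (-(κ : ℝ)) ≤ |x i - (ρ i : ℝ)|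
      rw [ha i]
      refine le_trans ?_ hi
      have h3 := hpow H ((r + 1) * w) c hH (by rw [hκ]; exact le_max_right _ _) (by rw [hC]; exact min_le_left _ _)
      refine h3.trans ?_
      refine div_le_div_of_nonneg_left hc.le (by positivity) ?_
      calc (q : ℝ) ^ w ≤ (H ^ (r + 1)) ^ w := pow_le_pow_left₀ (by positivity) hqH w
        _ = H ^ ((r + 1) * w) := (pow_mul _ _ _).symm
    · rw [Set.InjOn] at hinj
      push Not at hinj
      obtain ⟨a, ha, b, hb, hab, hne⟩ := hinj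
      have h1 := hpair a b hab hne H hH (hsize a ha) (hsize b hb)
      rcases le_max_iff.1 h1 with h2 | h2
      · exact ⟨a, ha, h2⟩
      · exact ⟨b, hb, h2⟩
  · rintro X hX i ⟨p, q, hq, hqX, hval⟩
    refine ⟨(i, (p : ℚ) / q), rfl, ?_, ?_⟩
    · rw [one_mul]
      refine le_trans ?_ hqX
      have h1 : ((p : ℚ) / q).den ∣ q := by
        have := Rat.den_dvd p (q : ℤ)
        rw [Rat.divInt_eq_div, Int.cast_natCast] at this
        exact_mod_cast this
      exact_mod_cast Nat.le_of_dvd hq h1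
    · show |x i - (((p : ℚ) / q : ℚ) : ℝ)| ≤ X ^ (-(1 : ℝ))
      rw [Real.rpow_neg_one]
      push_cast
      exact hval
  · intro i
    constructor
    · rintro ⟨ρ, hρ⟩
      exact ⟨(i, ρ), rfl, by show |x i - (ρ : ℝ)| = 0; rw [hρ, sub_self, abs_zero]⟩
    · rintro ⟨⟨j, ρ⟩, hj, hv⟩
      have hj' : j = i := hj
      subst hj'
      refine ⟨ρ, ?_⟩
      have h1 : x j - (ρ : ℝ) = 0 := abs_eq_zero.1 hv
      linarith
  · rintro i ⟨ρ, hρ⟩
    obtain ⟨K, hK1, hK⟩ := large_scale θ ρ.den hθ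
    refine ⟨K, fun X hX => ⟨ρ.num, ρ.den, ρ.den_pos, (hK X hX).le, ?_⟩⟩
    have e2 : (ρ : ℝ) = ρ.num / ρ.den := by exact_mod_cast (Rat.num_div_den ρ).symm
    rw [hρ, e2, sub_self, abs_zero]
    have : 0 < X := by linarith
    positivity
  · rw [hκ, Nat.cast_max, mul_max_of_nonneg _ _ (by positivity)]
    refine max_lt ?_ ?_
    · push_cast; linarith
    · linarith

end Pool.Agent.N743
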