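import Pool.Agent.N743.Crit

/-!
# Measures of algebraic independence of two numbers, up to very few exceptional polynomials
-/

set_option autoImplicit false

namespace Pool.Agent.N743

open Polynomial Finset
open Pool.Agent.TH456.TM Pool.Agent.R356

/-- `F` is irreducible, of degree at most `D` in each variable, and `|F(x, t)| < H ^ (-A)` for some
`H ≥ 1` which is not smaller than the coefficients of `F`. -/
def Exceptional (D : ℕ) (A : ℝ) (x t : ℂ) (F : ℤ[X][X]) : Prop :=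
  IrrNormal F ∧ ∃ H : ℝ, 1 ≤ H ∧ Small D H F ∧ ‖aevalAeval x t F‖ < H ^ (-A)

lemma exc_hgt {D : ℕ} {A : ℝ} (hA : 0 ≤ A) {x t : ℂ} {F : ℤ[X][X]} (h : Exceptional D A x t F) :
    F ∈ IR D ∧ ‖aevalAeval x t F‖ < (hgt F : ℝ) ^ (-A) := by
  obtain ⟨h1, H, hH, hS, hv⟩ := h
  have hF : F ∈ IR D := (mem_IR_iff D F).2 ⟨h1, hS.1, hS.2.1⟩
  have h2 : (hgt F : ℝ) ≤ H := (small_iff D H F hF).1 hS
  have h3 : (1 : ℝ) ≤ hgt F := by exact_mod_cast hgt_pos F hF.1.ne_zero
  refine ⟨hF, hv.trans_le ?_⟩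
  exact Real.rpow_le_rpow_of_nonpos (by linarith) h2 (by linarith)

/-- the polynomials of bounded degree and height are finite in number -/
lemma small_finite (D : ℕ) (H : ℝ) : {F : ℤ[X][X] | Small D H F}.Finite := by
  classical
  obtain ⟨N, hN⟩ : ∃ N : ℕ, N = ⌊|H|⌋₊ := ⟨_, rfl⟩
  -- the map to the coefficients
  refine Set.Finite.of_finite_image (f := fun F : ℤ[X][X] => fun p : Fin (D + 1) × Fin (D + 1) =>
    ((F.coeff p.1).coeff p.2 : ℤ)) ?_ ?_
  · refine (Set.Finite.pi (t := fun _ : Fin (D + 1) × Fin (D + 1) => Set.Icc (-(N : ℤ)) N)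
      (fun _ => Set.finite_Icc _ _)).subset ?_
    rintro _ ⟨F, hF, rfl⟩
    rw [Set.mem_univ_pi]
    rintro ⟨j, i⟩
    have h1 := hF.2.2 j i
    have h2 : |(F.coeff j).coeff i| ≤ (N : ℤ) := by
      have h3 : (((F.coeff j).coeff i).natAbs : ℝ) ≤ |H| := by
        rw [Nat.cast_natAbs, Int.cast_abs]
        exact h1.trans (le_abs_self H)
      have h4 := Nat.le_floor h3
      rw [← hN] at h4
      rw [Int.abs_eq_natAbs]
      exact_mod_cast h4
    exact ⟨(abs_le.1 h2).1, (abs_le.1 h2).2⟩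
  · intro F hF G hG hFG
    ext j i
    by_cases hj : j ≤ D
    · by_cases hi : i ≤ D
      · exact congrFun hFG (⟨j, by omega⟩, ⟨i, by omega⟩)
      · rw [coeff_eq_zero_of_natDegree_lt (by have := hF.2.1 j; omega),
          coeff_eq_zero_of_natDegree_lt (by have := hG.2.1 j; omega)]
    · rw [coeff_eq_zero_of_natDegree_lt (p := F) (by have := hF.1; omega),
        coeff_eq_zero_of_natDegree_lt (p := G) (by have := hG.1; omega)]

/-- **The exceptional polynomials are very few.** -/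
theorem exc_sparse (x : ℂ) (hx : MeasT x) (D : ℕ) (hD : 1 ≤ D) (M : ℝ) (hM : 1 < M) :
    ∃ A₀ : ℝ, 0 < A₀ ∧ ∀ A ≥ A₀, ∀ T : ℝ, ∃ K N : ℝ, 1 < K ∧ ∀ t : ℂ, ‖t‖ ≤ T →
      (∀ H ≥ K, ∀ F G, Exceptional D A x t F → Exceptional D A x t G → ¬ Small D H F →
        ¬ Small D H G → Small D (H ^ M) F → Small D (H ^ M) G → F = G) ∧
      ∀ H : ℝ, 3 ≤ H → {F | Exceptional D A x t F ∧ Small D H F}.Finite ∧
        ({F | Exceptional D A x t F ∧ Small D H F}.ncard : ℝ) ≤ N + Real.log (Real.log H) / Real.log M := by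
  classical
  obtain ⟨κ, hκ, hcore⟩ := core x hx D hD
  have hM0 : 0 < M := by linarith
  have hlM : 0 < Real.log M := Real.log_pos hM
  refine ⟨2 * M * κ + 1, by positivity, fun A hA T => ?_⟩
  have hA0 : 0 < A := lt_of_lt_of_le (by positivity) hA
  obtain ⟨C, hC, hcT⟩ := hcore T
  obtain ⟨K₀, hK₀1, hK₀⟩ := large_scale 1 (1 / C) one_pos
  obtain ⟨K, hK⟩ : ∃ K : ℝ, K = max K₀ (Real.exp 1) := ⟨_, rfl⟩
  have hKe : Real.exp 1 ≤ K := by rw [hK]; exact le_max_right _ _
  have he2 : (2 : ℝ) < Real.exp 1 := by have := Real.exp_one_gt_d9; linarith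
  have hK1 : 1 < K := by linarith
  have hK0 : 0 < K := by linarith
  have hlK : 1 ≤ Real.log K := by
    rw [Real.le_log_iff_exp_le hK0]
    exact hKe
  have h1 : ∀ t : ℂ, ‖t‖ ≤ T → ∀ H ≥ K, ∀ F G, Exceptional D A x t F → Exceptional D A x t G →
      ¬ Small D H F → ¬ Small D H G → Small D (H ^ M) F → Small D (H ^ M) G → F = G := by
    intro t ht H hH F G hF hG hF1 hG1 hF2 hG2
    obtain ⟨hFI, hFv⟩ := exc_hgt hA0.le hF
    obtain ⟨hGI, hGv⟩ := exc_hgt hA0.le hG
    by_contra hne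
    have hH1 : 1 < H := lt_of_lt_of_le hK1 hH
    have hH0 : 0 < H := by linarith
    rw [small_iff D H F hFI, not_le] at hF1
    rw [small_iff D H G hGI, not_le] at hG1
    rw [small_iff D _ F hFI] at hF2
    rw [small_iff D _ G hGI] at hG2
    have h2 := hcT t ht F hFI G hGI hne (H ^ M) hF2 hG2
    rw [vl_eq, vl_eq] at h2
    have h3 : max ‖aevalAeval x t F‖ ‖aevalAeval x t G‖ < H ^ (-A) := by
      refine max_lt (hFv.trans_le ?_) (hGv.trans_le ?_)
      · exact Real.rpow_le_rpow_of_nonpos hH0 hF1.le (by linarith)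
      · exact Real.rpow_le_rpow_of_nonpos hH0 hG1.le (by linarith)
    have h4 : C * H ^ (-(M * κ)) < H ^ (-A) := by
      have e1 : (H ^ M) ^ (-κ) = H ^ (-(M * κ)) := by
        rw [← Real.rpow_mul hH0.le]
        congr 1
        ring
      rw [e1] at h2
      exact h2.trans_lt h3
    have h5 : H ^ (-A) ≤ H ^ (-(M * κ)) * H⁻¹ := by
      have e1 : H ^ (-(M * κ)) * H⁻¹ = H ^ (-(M * κ) + -1) := by
        rw [Real.rpow_add hH0, Real.rpow_neg_one]
      rw [e1]
      refine Real.rpow_le_rpow_of_exponent_le hH1.le ?_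
      have : 0 < M * κ := by positivity
      linarith
    have h6 : 1 / C < H := by
      have := hK₀ H (le_trans (by rw [hK]; exact le_max_left _ _) hH)
      rwa [Real.rpow_one] at this
    have h7 : 0 < H ^ (-(M * κ)) := by positivity
    have h8 : C < H⁻¹ := by
      have h9 : H ^ (-(M * κ)) * C < H ^ (-(M * κ)) * H⁻¹ := by linarith
      exact lt_of_mul_lt_mul_left h9 h7.le
    rw [div_lt_iff₀ hC] at h6
    have h9 : C * H < 1 := by
      have := mul_lt_mul_of_pos_right h8 hH0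
      rwa [inv_mul_cancel₀ hH0.ne'] at this
    linarith
  refine ⟨K, (small_finite D K).toFinset.card + 1, hK1, fun t ht => ⟨h1 t ht, fun H hH => ?_⟩⟩
  have hfin : {F | Exceptional D A x t F ∧ Small D H F}.Finite :=
    (small_finite D H).subset fun F hF => hF.2
  refine ⟨hfin, ?_⟩
  have hH0 : 0 < H := by linarith
  have hlH : 1 ≤ Real.log H := by
    rw [Real.le_log_iff_exp_le hH0]
    have := Real.exp_one_lt_d9
    linarith
  have hllH : 0 ≤ Real.log (Real.log H) := Real.log_nonneg hlH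
  -- the exceptional polynomials of height more than `K`
  obtain ⟨S, hS⟩ : ∃ S : Set ℤ[X][X], S = {F | Exceptional D A x t F ∧ Small D H F ∧ ¬ Small D K F} := ⟨_, rfl⟩
  have hSf : S.Finite := by
    rw [hS]
    exact hfin.subset fun F hF => ⟨hF.1, hF.2.1⟩
  obtain ⟨n, hn⟩ : ∃ n : ℕ, n = ⌈Real.log (Real.log H) / Real.log M⌉₊ := ⟨_, rfl⟩
  obtain ⟨g, hg⟩ : ∃ g : ℤ[X][X] → ℕ, g = fun F =>
      ⌈Real.log (Real.log (hgt F) / Real.log K) / Real.log M⌉₊ := ⟨_, rfl⟩
  -- the windows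
  have hwin : ∀ F ∈ S, 1 ≤ g F ∧ g F ≤ n ∧ K ^ (M ^ ((g F : ℝ) - 1)) < hgt F ∧ (hgt F : ℝ) ≤ K ^ (M ^ (g F : ℝ)) := by
    intro F hF
    rw [hS] at hF
    obtain ⟨hFe, hF1, hF2⟩ := hF
    obtain ⟨hFI, hFv⟩ := exc_hgt hA0.le hFe
    rw [small_iff D H F hFI] at hF1
    rw [small_iff D K F hFI, not_le] at hF2
    have hF0 : (0 : ℝ) < hgt F := by linarith
    have hlF : Real.log K < Real.log (hgt F) := Real.log_lt_log hK0 hF2
    have hlK0 : 0 < Real.log K := by linarith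
    have hq : 1 < Real.log (hgt F) / Real.log K := by rwa [one_lt_div hlK0]
    have hy0 : 0 < Real.log (Real.log (hgt F) / Real.log K) / Real.log M :=
      div_pos (Real.log_pos hq) hlM
    obtain ⟨y, hy⟩ : ∃ y : ℝ, y = Real.log (Real.log (hgt F) / Real.log K) / Real.log M := ⟨_, rfl⟩
    have hgF : g F = ⌈y⌉₊ := by rw [hg, hy]
    rw [← hy] at hy0
    have hMy : M ^ y = Real.log (hgt F) / Real.log K := by
      rw [hy, Real.rpow_def_of_pos hM0, mul_div_cancel₀ _ hlM.ne', Real.exp_log (by linarith)]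
    have hKy : K ^ (M ^ y) = hgt F := by
      rw [hMy, Real.rpow_def_of_pos hK0, mul_div_cancel₀ _ hlK0.ne', Real.exp_log hF0]
    refine ⟨?_, ?_, ?_, ?_⟩
    · rw [hgF]
      exact Nat.one_le_iff_ne_zero.2 (Nat.ceil_pos.2 hy0).ne'
    · rw [hgF, hn]
      refine Nat.ceil_le_ceil ?_
      rw [hy]
      refine div_le_div_of_nonneg_right ?_ hlM.le
      refine Real.log_le_log (by linarith) ?_
      rw [div_le_iff₀ hlK0]
      have h2 : Real.log (hgt F) ≤ Real.log H := Real.log_le_log hF0 hF1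
      nlinarith
    · rw [← hKy]
      refine Real.rpow_lt_rpow_of_exponent_lt hK1 ?_
      refine Real.rpow_lt_rpow_of_exponent_lt hM ?_
      rw [hgF]
      have := Nat.ceil_lt_add_one hy0.le
      linarith
    · rw [← hKy]
      refine Real.rpow_le_rpow_of_exponent_le hK1.le ?_
      refine Real.rpow_le_rpow_of_exponent_le hM.le ?_
      rw [hgF]
      exact Nat.le_ceil y
  have hinj : Set.InjOn g S := by
    intro F hF G hG hFG
    obtain ⟨a1, a2, a3, a4⟩ := hwin F hF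
    obtain ⟨b1, b2, b3, b4⟩ := hwin G hG
    rw [← hFG] at b3 b4
    rw [hS] at hF hG
    obtain ⟨hFI, -⟩ := exc_hgt hA0.le hF.1
    obtain ⟨hGI, -⟩ := exc_hgt hA0.le hG.1
    have hg1 : (1 : ℝ) ≤ g F := by exact_mod_cast a1
    have hKK : K ≤ K ^ (M ^ ((g F : ℝ) - 1)) := by
      have h2 : (1 : ℝ) ≤ M ^ ((g F : ℝ) - 1) := Real.one_le_rpow hM.le (by linarith)
      conv_lhs => rw [← Real.rpow_one K]
      exact Real.rpow_le_rpow_of_exponent_le hK1.le h2
    have hpow : (K ^ (M ^ ((g F : ℝ) - 1))) ^ M = K ^ (M ^ (g F : ℝ)) := by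
      rw [← Real.rpow_mul hK0.le]
      congr 1
      conv_lhs => rw [← Real.rpow_one M]
      rw [Real.rpow_one, ← Real.rpow_add_one hM0.ne']
      congr 1
      ring
    refine h1 t ht _ hKK F G hF.1 hG.1 ?_ ?_ ?_ ?_
    · rw [small_iff D _ F hFI, not_le]; exact a3
    · rw [small_iff D _ G hGI, not_le]; exact b3
    · rw [small_iff D _ F hFI, hpow]; exact a4
    · rw [small_iff D _ G hGI, hpow]; exact b4
  have hScard : S.ncard ≤ n := by
    have h2 : S.ncard ≤ (Set.Icc 1 n).ncard :=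
      Set.ncard_le_ncard_of_injOn g (fun F hF => ⟨(hwin F hF).1, (hwin F hF).2.1⟩) hinj (Set.finite_Icc 1 n)
    refine h2.trans ?_
    rw [Set.ncard_eq_toFinset_card' (Set.Icc 1 n)]
    simp
  have hsub : {F | Exceptional D A x t F ∧ Small D H F} ⊆ S ∪ ((small_finite D K).toFinset : Set ℤ[X][X]) := by
    rintro F ⟨hF1, hF2⟩
    by_cases hF3 : Small D K F
    · right
      simpa using hF3
    · left
      rw [hS]
      exact ⟨hF1, hF2, hF3⟩
  have hcard : {F | Exceptional D A x t F ∧ Small D H F}.ncard ≤ n + (small_finite D K).toFinset.card := by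
    calc _ ≤ (S ∪ ((small_finite D K).toFinset : Set ℤ[X][X])).ncard :=
          Set.ncard_le_ncard hsub (hSf.union (Finset.finite_toSet _))
      _ ≤ S.ncard + ((small_finite D K).toFinset : Set ℤ[X][X]).ncard := Set.ncard_union_le _ _
      _ ≤ n + (small_finite D K).toFinset.card := by
          rw [Set.ncard_coe_finset]
          omega
  have hnR : (n : ℝ) ≤ Real.log (Real.log H) / Real.log M + 1 := by
    rw [hn]
    exact (Nat.ceil_lt_add_one (div_nonneg hllH hlM.le)).le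
  have hcR : ({F | Exceptional D A x t F ∧ Small D H F}.ncard : ℝ) ≤ n + (small_finite D K).toFinset.card := by
    exact_mod_cast hcard
  linarith

/-- a polynomial without exceptional factor is not small -/
theorem no_factor (x t : ℂ) (D : ℕ) (A : ℝ) (hA : 0 < A) (P : ℤ[X][X]) (hP : P ≠ 0) (H : ℝ) (hH : 1 ≤ H)
    (hS : Small D H P) (h : ∀ F, Exceptional D A x t F → ¬ F ∣ P) :
    (cF D * H) ^ (-(2 * D * A)) ≤ ‖aevalAeval x t P‖ := by
  have hc := one_le_cF D
  have hcH : 1 ≤ cF D * H := by nlinarith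
  have hcH0 : 0 < cF D * H := by linarith
  obtain ⟨δ, hδ⟩ : ∃ δ : ℝ, δ = (cF D * H) ^ (-A) := ⟨_, rfl⟩
  have hδ0 : 0 < δ := by rw [hδ]; positivity
  have hδ1 : δ ≤ 1 := by
    rw [hδ]
    exact Real.rpow_le_one_of_one_le_of_nonpos hcH (by linarith)
  have key : ∀ q : ℤ[X][X], Irreducible q → q ∣ P → δ ≤ ‖aevalAeval x t q‖ := by
    intro q hq hqP
    obtain ⟨hqd, hqdx, hqc⟩ := factor_bound2 D P q hP hS.1 hS.2.1 hqP _ hS.2.2
    have hlc : q.leadingCoeff.leadingCoeff ≠ 0 := leadingCoeff_ne_zero.2 (leadingCoeff_ne_zero.2 hq.ne_zero)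
    have gen : ∀ r : ℤ[X][X], IrrNormal r → r ∣ P → Small D (cF D * H) r →
        ‖aevalAeval x t r‖ = ‖aevalAeval x t q‖ → δ ≤ ‖aevalAeval x t q‖ := by
      intro r hr hrP hrS hrv
      by_contra hcon
      push Not at hcon
      refine h r ⟨hr, cF D * H, hcH, hrS, ?_⟩ hrP
      rw [hrv, ← hδ]
      exact hcon
    rcases lt_or_gt_of_ne hlc with h2 | h2
    · refine gen (-q) ⟨(Associated.neg_left (Associated.refl q)).symm.irreducible hq, ?_⟩ ?_ ⟨?_, ?_, ?_⟩ ?_
      · rw [leadingCoeff_neg, leadingCoeff_neg]; linarith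
      · exact (neg_dvd).2 hqP
      · rwa [natDegree_neg]
      · intro j
        rw [coeff_neg, natDegree_neg]
        exact hqdx j
      · intro j i
        rw [coeff_neg, coeff_neg]
        push_cast
        rw [abs_neg]
        exact hqc j i
      · rw [map_neg, norm_neg]
    · exact gen q ⟨hq, h2⟩ hqP ⟨hqd, hqdx, hqc⟩ rfl
  have h1 := value_of_factors2 x t δ hδ0 hδ1 P hP key
  refine le_trans ?_ h1
  have h2 : δ ^ (2 * D) ≤ δ ^ (P.natDegree + (Bivariate.swap P).natDegree) :=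
    pow_le_pow_of_le_one hδ0.le hδ1 (by
      have := (swap_natDegree_le P D).2 hS.2.1
      have := hS.1
      omega)
  refine le_trans (le_of_eq ?_) h2
  rw [hδ, ← Real.rpow_natCast, ← Real.rpow_mul hcH0.le]
  congr 1
  push_cast
  ring

/-- windows of heights for which the measure holds -/
theorem windows (x : ℂ) (hx : MeasT x) (D : ℕ) (hD : 1 ≤ D) (M : ℝ) (hM : 1 < M) :
    ∃ C : ℝ, 0 < C ∧ ∀ t : ℂ,
      (¬ ∃ P : ℤ[X][X], P ≠ 0 ∧ P.natDegree ≤ D ∧ (∀ j, (P.coeff j).natDegree ≤ D) ∧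
          aevalAeval x t P = 0) → ∀ K : ℝ, ∃ Z ≥ K, ∀ H, Z ≤ H → H ≤ Z ^ M → ∀ P : ℤ[X][X], P ≠ 0 →
        Small D H P → H ^ (-C) < ‖aevalAeval x t P‖ := by
  obtain ⟨θ, hθ, hc⟩ := crit x hx D hD (M + 1) (by linarith)
  refine ⟨1 / θ, by positivity, fun t ht K => ?_⟩
  obtain ⟨-, h2⟩ := (hc θ hθ le_rfl).2 t
  obtain ⟨K₁, hK₁1, hK₁⟩ := large_scale θ (2 ^ M) hθ
  obtain ⟨K₂, hK₂1, hK₂⟩ := large_scale θ K hθ
  obtain ⟨Z, hZ, hZv⟩ := h2 ht (max K₁ K₂)
  have hZ1 : K₁ ≤ Z := (le_max_left _ _).trans hZ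
  have hZ2 : K₂ ≤ Z := (le_max_right _ _).trans hZ
  have hZ0 : 0 < Z := by linarith
  have hZθ : 0 < Z ^ θ := by positivity
  refine ⟨2 * Z ^ θ, ?_, fun H hH1 hH2 P hP hS => ?_⟩
  · have := hK₂ Z hZ2
    show K ≤ 2 * Z ^ θ
    linarith
  · have hH0 : 0 < H := by linarith
    have hHθ : (H ^ (1 / θ)) ^ θ = H := by
      rw [← Real.rpow_mul hH0.le, one_div, inv_mul_cancel₀ hθ.ne', Real.rpow_one]
    have hZH : Z < H ^ (1 / θ) := by
      have e1 : Z = (Z ^ θ) ^ (1 / θ) := by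
        rw [← Real.rpow_mul hZ0.le, mul_one_div, div_self hθ.ne', Real.rpow_one]
      conv_lhs => rw [e1]
      exact Real.rpow_lt_rpow hZθ.le (by linarith) (by positivity)
    have hHZ : H ^ (1 / θ) ≤ Z ^ (M + 1) := by
      have e1 : Z ^ (M + 1) = (Z ^ (θ * (M + 1))) ^ (1 / θ) := by
        rw [← Real.rpow_mul hZ0.le]
        congr 1
        field_simp
      rw [e1]
      refine Real.rpow_le_rpow hH0.le ?_ (by positivity)
      refine hH2.trans ?_
      rw [Real.mul_rpow (by norm_num) hZθ.le, ← Real.rpow_mul hZ0.le]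
      have e2 : Z ^ (θ * (M + 1)) = Z ^ θ * Z ^ (θ * M) := by
        rw [← Real.rpow_add hZ0]
        congr 1
        ring
      rw [e2]
      exact mul_le_mul_of_nonneg_right (hK₁ Z hZ1).le (by positivity)
    have h3 := hZv _ hZH hHZ
    by_contra hcon
    push Not at hcon
    refine h3 ⟨P, hP, ?_, ?_⟩
    · rw [hHθ]
      exact hS
    · refine hcon.trans (le_of_eq ?_)
      rw [Real.rpow_neg hH0.le]

end Pool.Agent.N743
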