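import Pool.Agent.N743.JointConv

/-!
# The scale dichotomy for zeta values and incomplete zeta integrals
-/

set_option autoImplicit false

open Set

namespace Pool.Agent.N743

open Polynomial Pool.Agent.TH456.TM Pool.Agent.R356
open Pool.Agent.R352.E (clF)
open Pool.Agent.R352.Q (Rk)
open Pool.Agent.R352.E (zt)

/-- the joint measure for `r + 1` of the numbers -/
theorem jointFam_zeta {r : ℕ} (y : Fin r → ℝ) {ι : Type} (b : ι → Fin r ⊕ (ℕ × ℚ)) (hb : Function.Injective b)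
    (hK : ∀ i p, b i = Sum.inr p → 2 ≤ p.1 ∧ 0 < p.2 ∧ zt p.1 ∈ clF ({Real.exp 1} ∪ range y))
    (s : Finset ι) (hs : s.card = r + 1) :
    JointFam ((Real.exp 1 : ℝ) : ℂ) (fun i : s => ((Sum.elim y (fun p => Rk p.1 p.2) (b i) : ℝ) : ℂ)) := by
  classical
  have hcard : (s.image b).card = r + 1 := by rw [Finset.card_image_of_injective _ hb, hs]
  have h := Pool.Agent.N778.EM.jointR y (s.image b) (fun p hp => by
    obtain ⟨i, _, hi⟩ := Finset.mem_image.1 hp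
    exact hK i p hi) (by omega)
  have h1 : ∀ i : {i // i ∈ s.image b}, ∃ j ∈ s, b j = i.1 := fun i => Finset.mem_image.1 i.2
  choose g hgs hg using h1
  refine jointFam_of (h.mono (fun i => (⟨g i, hgs i⟩ : s)) fun i => ?_)
  simp only [hg]

/-- **The scale dichotomy** -/
theorem dichotomy_zeta {r : ℕ} (hr : 1 ≤ r) (y : Fin r → ℝ) {ι : Type} [Finite ι] (b : ι → Fin r ⊕ (ℕ × ℚ))
    (hb : Function.Injective b)
    (hK : ∀ i p, b i = Sum.inr p → 2 ≤ p.1 ∧ 0 < p.2 ∧ zt p.1 ∈ clF ({Real.exp 1} ∪ range y))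
    (D : ℕ) (hD : 1 ≤ D) (M : ℝ) (hM : 1 < M) :
    ∃ θ₀ : ℝ, 0 < θ₀ ∧ ∀ θ : ℝ, 0 < θ → θ ≤ θ₀ →
      DichotomyR r (fun i => Related D ((Real.exp 1 : ℝ) : ℂ) ((Sum.elim y (fun p => Rk p.1 p.2) (b i) : ℝ) : ℂ))
        (fun X i => NearRel D θ ((Real.exp 1 : ℝ) : ℂ) ((Sum.elim y (fun p => Rk p.1 p.2) (b i) : ℝ) : ℂ) X) M := by
  obtain ⟨x, hx⟩ : ∃ x : ℂ, x = ((Real.exp 1 : ℝ) : ℂ) := ⟨_, rfl⟩
  obtain ⟨v, hv⟩ : ∃ v : ι → ℂ, v = fun i => ((Sum.elim y (fun p => Rk p.1 p.2) (b i) : ℝ) : ℂ) := ⟨_, rfl⟩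
  have h1 : ∀ s : Finset ι, s.card = r + 1 → JointFam x (fun i : s => v i) := by
    intro s hs
    rw [hx, hv]
    exact jointFam_zeta y b hb hK s hs
  have h2 := dichotomyR_biv x (by rw [hx]; exact measT_e) v r hr h1 D hD M hM
  rw [hx, hv] at h2
  exact h2

/-- pairs of numbers over `ℚ` -/
theorem jointR_of_fam {x : ℂ} {u v : ℝ} (h : JointFam x (fun i : Bool => ((if i then u else v : ℝ) : ℂ))) : JointR u v := by
  intro D
  obtain ⟨κ, C, hκ, hC, h1⟩ := h D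
  refine ⟨κ, C, hκ, hC, fun P Q hP hQ hPD hQD H hPH hQH => ?_⟩
  have hH : 1 ≤ H := one_le_of_coeff P hP H hPH
  have hinj : Function.Injective (Polynomial.C : ℤ →+* ℤ[X]) := Polynomial.C_injective
  obtain ⟨G, hG⟩ : ∃ G : Bool → ℤ[X], G = fun i => if i then P else Q := ⟨_, rfl⟩
  have hG1 : ∀ i, G i ≠ 0 ∧ (G i).natDegree ≤ D ∧ ∀ k, |(((G i).coeff k : ℤ) : ℝ)| ≤ H := by
    intro i
    rw [hG]
    cases i
    · exact ⟨hQ, hQD, hQH⟩
    · exact ⟨hP, hPD, hPH⟩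
  obtain ⟨i, hi⟩ := h1 (fun i => (G i).map Polynomial.C) (fun i => ⟨(Polynomial.map_ne_zero_iff hinj).2 (hG1 i).1,
    natDegree_map_le.trans (hG1 i).2.1, fun j => by rw [coeff_map, natDegree_C]; exact Nat.zero_le _⟩) H hH
    (fun i j k => by
      rw [coeff_map, coeff_C]
      split_ifs
      · exact (hG1 i).2.2 j
      · simp only [Int.cast_zero, abs_zero]; linarith)
  have h2 : ∀ (w : ℝ) (F : ℤ[X]), aevalAeval x (w : ℂ) (F.map Polynomial.C) = ((aeval w F : ℝ) : ℂ) := by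
    intro w F
    rw [← vl_eq, vl, eval_map, eval₂_map]
    have h3 : (σx x).comp Polynomial.C = algebraMap ℤ ℂ := Subsingleton.elim _ _
    rw [h3, ← aeval_def]
    exact (aeval_algebraMap_apply ℂ w F)
  rw [h2, Complex.norm_real, Real.norm_eq_abs] at hi
  refine hi.trans ?_
  cases i
  · rw [hG]; exact le_max_right _ _
  · rw [hG]; exact le_max_left _ _

end Pool.Agent.N743
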